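import Pool.Agent.K7.H5.Res
import Pool.Agent.W240.PG.Frame
import Pool.Agent.Y172.UpB

/-!
A criterion for prime divisors.
-/

set_option autoImplicit false
set_option linter.overlappingInstances false
set_option linter.unusedSectionVars false

open FF Pool.Agent.Y172 Pool.Agent.W602.GT

namespace Pool.Agent.K7.H5

section

variable {k K : Type} [Field k] [Field K] [Algebra k K]

theorem sum_red (P : Place k K) {α : Type} (s : Finset α) (F : α → K)
    (h : ∀ i ∈ s, P.Reg (F i)) :
    P.Reg (∑ i ∈ s, F i) ∧ P.red (∑ i ∈ s, F i) = ∑ i ∈ s, P.red (F i) := by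
  classical
  induction s using Finset.induction_on with
  | empty =>
    rw [Finset.sum_empty, Finset.sum_empty]
    exact ⟨P.reg_zero, P.red_zero⟩
  | insert a s ha ih =>
    have h1 := ih fun i hi => h i (Finset.mem_insert_of_mem hi)
    have h2 := h a (Finset.mem_insert_self _ _)
    rw [Finset.sum_insert ha, Finset.sum_insert ha]
    exact ⟨P.reg_add h2 h1.1, by rw [P.red_add h2 h1.1, h1.2]⟩

/-- there are fewer independent residues than independent functions -/
theorem no_res (P : Place k K) {n : ℕ} (hn : Algebra.trdeg k K = n) {w : Fin n → K}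
    (hw : ∀ p : MvPolynomial (Fin n) k, p ≠ 0 → MvPolynomial.aeval w p ≠ 0 ∧
      P.ord (MvPolynomial.aeval w p) = 0) : False := by
  obtain ⟨s, hs0, hs⟩ := P.surj
  have hind : AlgebraicIndependent k (Fin.cons s w : Fin (n + 1) → K) := by
    rw [algebraicIndependent_iff]
    intro Q hQ
    by_contra hQ0
    have h1 : MvPolynomial.finSuccEquiv k n Q ≠ 0 := by
      intro h2
      apply hQ0
      exact (map_eq_zero_iff _ (MvPolynomial.finSuccEquiv k n).injective).1 h2
    obtain ⟨t, Q', hQ', hQ0', -⟩ := Pool.Agent.W240.PG.Frame.psi_factor P hs hw _ h1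
    rw [Pool.Agent.W240.PG.Frame.aeval_cons, hQ'] at hQ
    exact (mul_ne_zero (pow_ne_zero t hs0) hQ0') hQ
  have h1 := hind.lift_cardinalMk_le_trdeg
  rw [hn] at h1
  have h2 : n + 1 ≤ n := by
    simp only [Cardinal.mk_fin, Cardinal.lift_natCast] at h1
    exact_mod_cast h1
  omega

end

variable {K : Type} [Field K] [Algebra ℂ K] {N : ℕ} {y : Fin (N + 1) → K}

/-- the local ring as a subalgebra -/
def LR (hy : NormalModel y) (Q : Place ℂ K) : Subalgebra ℂ K where
  carrier := localRing y Q
  mul_mem' := by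
    intro f g hf hg
    obtain ⟨j, hj⟩ := exists_centred hy Q
    obtain ⟨a, ha, b, hb, hb0, hbo, hab⟩ := (mem_localRing hj).1 hf
    obtain ⟨a', ha', b', hb', hb0', hbo', hab'⟩ := (mem_localRing hj).1 hg
    refine (mem_localRing hj).2 ⟨a * a', (chart y j).mul_mem ha ha', b * b',
      (chart y j).mul_mem hb hb', mul_ne_zero hb0 hb0', ?_, ?_⟩
    · rw [Q.ord_mul hb0 hb0', hbo, hbo', add_zero]
    · rw [← hab, ← hab']
      ring
  one_mem' := by
    obtain ⟨j, hj⟩ := exists_centred hy Q
    exact chart_localRing hj (chart y j).one_mem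
  add_mem' := by
    intro f g hf hg
    obtain ⟨j, hj⟩ := exists_centred hy Q
    obtain ⟨a, ha, b, hb, hb0, hbo, hab⟩ := (mem_localRing hj).1 hf
    obtain ⟨a', ha', b', hb', hb0', hbo', hab'⟩ := (mem_localRing hj).1 hg
    refine (mem_localRing hj).2 ⟨a * b' + a' * b, (chart y j).add_mem
      ((chart y j).mul_mem ha hb') ((chart y j).mul_mem ha' hb), b * b',
      (chart y j).mul_mem hb hb', mul_ne_zero hb0 hb0', ?_, ?_⟩
    · rw [Q.ord_mul hb0 hb0', hbo, hbo', add_zero]
    · rw [← hab, ← hab']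
      ring
  zero_mem' := by
    obtain ⟨j, hj⟩ := exists_centred hy Q
    exact chart_localRing hj (chart y j).zero_mem
  algebraMap_mem' := by
    intro c
    obtain ⟨j, hj⟩ := exists_centred hy Q
    exact chart_localRing hj ((chart y j).algebraMap_mem c)

theorem mem_LR {hy : NormalModel y} {Q : Place ℂ K} {f : K} :
    f ∈ LR hy Q ↔ f ∈ localRing y Q := Iff.rfl

/-- the units of the local ring -/
theorem inv_localRing (hy : NormalModel y) {Q : Place ℂ K} {f : K} (hf : f ∈ localRing y Q)
    (hf0 : f ≠ 0) (hfo : Q.ord f = 0) : f⁻¹ ∈ localRing y Q := by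
  obtain ⟨j, hj⟩ := exists_centred hy Q
  obtain ⟨a, ha, b, hb, hb0, hbo, hab⟩ := (mem_localRing hj).1 hf
  have ha0 : a ≠ 0 := by
    rw [← hab]
    exact mul_ne_zero hf0 hb0
  refine (mem_localRing hj).2 ⟨b, hb, a, ha, ha0, ?_, ?_⟩
  · rw [← hab, Q.ord_mul hf0 hb0, hfo, hbo, add_zero]
  · rw [← hab]
    field_simp

/-- **A criterion for prime divisors.** -/
theorem prime_of_res (hy : NormalModel y) {m : ℕ} (hn : Algebra.trdeg ℂ K = (m + 1 : ℕ))
    {Q : Place ℂ K} {w : Fin m → K} (hwc : ∀ i, w i ∈ localRing y Q)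
    (hw : ∀ p : MvPolynomial (Fin m) ℂ, p ≠ 0 → MvPolynomial.aeval w p ≠ 0 ∧
      Q.ord (MvPolynomial.aeval w p) = 0) : IsPrimeDivisor y Q := by
  obtain ⟨P, hP, hPQ⟩ := exists_through hy Q
  obtain ⟨j, hj⟩ := exists_centred hy Q
  have hPc := hPQ.centred hj
  have hle : ∀ a ∈ localRing y Q, a ≠ 0 → 0 < P.ord a → 0 < Q.ord a := by
    intro a ha ha0 hPa
    have h1 := (Q.reg_iff ha0).1 (localRing_reg ha)
    rcases lt_or_eq_of_le h1 with h2 | h2
    · exact h2
    exfalso
    have h4 := (P.reg_iff (inv_ne_zero ha0)).1 (hPQ _ (inv_localRing hy ha ha0 h2.symm))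
    rw [P.ord_inv] at h4
    omega
  have haev : ∀ p : MvPolynomial (Fin m) ℂ, MvPolynomial.aeval w p ∈ localRing y Q := by
    intro p
    have h1 : Algebra.adjoin ℂ (Set.range w) ≤ LR hy Q := by
      apply Algebra.adjoin_le
      rintro _ ⟨i, rfl⟩
      exact hwc i
    apply h1
    rw [Algebra.adjoin_range_eq_range_aeval]
    exact ⟨p, rfl⟩
  have hwP : ∀ p : MvPolynomial (Fin m) ℂ, p ≠ 0 → MvPolynomial.aeval w p ≠ 0 ∧
      P.ord (MvPolynomial.aeval w p) = 0 := by
    intro p hp
    obtain ⟨h1, h2⟩ := hw p hp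
    refine ⟨h1, ?_⟩
    have h3 := (P.reg_iff h1).1 (hPQ _ (haev p))
    rcases lt_or_eq_of_le h3 with h4 | h4
    · have := hle _ (haev p) h1 h4
      omega
    · exact h4.symm
  obtain ⟨hwr, hwi⟩ := (ri_iff P).1 hwP
  obtain ⟨hwr', hwi'⟩ := (ri_iff Q).1 hw
  have hge : ∀ a ∈ chart y j, a ≠ 0 → 0 < Q.ord a → 0 < P.ord a := by
    intro a ha ha0 hQa
    have h1 := (P.reg_iff ha0).1 (hPc.reg a ha)
    rcases lt_or_eq_of_le h1 with h2 | h2
    · exact h2
    exfalso
    have hra : P.red a ≠ 0 := P.red_ne_zero ha0 h2.symm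
    have halg : IsAlgebraic (Algebra.adjoin ℂ (Set.range fun i => P.red (w i))) (P.red a) := by
      by_contra hcon
      have h3 := (hwi.option_iff_transcendental (P.red a)).2 hcon
      have h4 : AlgebraicIndependent ℂ
          (fun i : Fin (m + 1) => P.red ((finSuccEquiv m i).elim a w)) := by
        have h5 := h3.comp (finSuccEquiv m) (finSuccEquiv m).injective
        have h6 : (fun i : Fin (m + 1) => P.red ((finSuccEquiv m i).elim a w)) =
            (fun o : Option (Fin m) => o.elim (P.red a) fun i => P.red (w i)) ∘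
              (finSuccEquiv m) := by
          funext i
          change P.red ((finSuccEquiv m i).elim a w) =
            (finSuccEquiv m i).elim (P.red a) fun i => P.red (w i)
          rcases finSuccEquiv m i with _ | i
          · rfl
          · rfl
        rw [h6]
        exact h5
      refine no_res P hn ((ri_iff P).2 ⟨fun i => ?_, h4⟩)
      rcases finSuccEquiv m i with _ | i
      · exact hPc.reg a ha
      · exact hwr i
    obtain ⟨q, hq0, hq⟩ := halg.exists_nonzero_coeff_and_aeval_eq_zero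
      (mem_nonZeroDivisors_of_ne_zero hra)
    have hG : ∀ i, ∃ G : MvPolynomial (Fin m) ℂ,
        MvPolynomial.aeval (fun i => P.red (w i)) G = ((q.coeff i :
          Algebra.adjoin ℂ (Set.range fun i => P.red (w i))) : P.RF) := by
      intro i
      have h3 : ∀ z ∈ Algebra.adjoin ℂ (Set.range fun i => P.red (w i)),
          ∃ G : MvPolynomial (Fin m) ℂ, MvPolynomial.aeval (fun i => P.red (w i)) G = z := by
        intro z hz
        rw [Algebra.adjoin_range_eq_range_aeval] at hz
        exact hz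
      exact h3 _ (q.coeff i).2
    choose G hG using hG
    have hG0 : G 0 ≠ 0 := by
      intro h0
      have h3 := hG 0
      rw [h0, map_zero] at h3
      exact hq0 (Subtype.ext h3.symm)
    obtain ⟨h, hh⟩ : ∃ h : K, h = ∑ i ∈ Finset.range (q.natDegree + 1),
        MvPolynomial.aeval w (G i) * a ^ i := ⟨_, rfl⟩
    have haL : a ∈ LR hy Q := chart_localRing hj ha
    have hhc : h ∈ localRing y Q := by
      rw [hh]
      exact (LR hy Q).sum_mem fun i _ =>
        (LR hy Q).mul_mem (haev _) ((LR hy Q).pow_mem haL _)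
    have hpow : ∀ (R : Place ℂ K), R.Reg a → ∀ i : ℕ, R.Reg (a ^ i) := by
      intro R hR i
      induction i with
      | zero =>
        rw [pow_zero]
        exact R.reg_one
      | succ i ih =>
        rw [pow_succ]
        exact R.reg_mul ih hR
    have hPh : P.red h = 0 := by
      rw [hh, (sum_red P _ _ fun i _ => P.reg_mul (red_aeval P hwr (G i)).1
        (hpow P (hPc.reg a ha) i)).2]
      rw [Polynomial.aeval_eq_sum_range] at hq
      rw [← hq]
      refine Finset.sum_congr rfl fun i _ => ?_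
      rw [P.red_mul (red_aeval P hwr (G i)).1 (hpow P (hPc.reg a ha) i),
        (red_aeval P hwr (G i)).2, hG, P.red_pow (hPc.reg a ha), Algebra.smul_def]
      rfl
    have hQh : Q.red h = 0 := by
      rw [Q.red_eq_zero_iff (localRing_reg hhc)]
      rw [P.red_eq_zero_iff (hPQ _ hhc)] at hPh
      by_cases hh0 : h = 0
      · exact Or.inl hh0
      · exact Or.inr (hle h hhc hh0 (hPh.resolve_left hh0))
    have hQa' : Q.red a = 0 := by
      rw [Q.red_eq_zero_iff (hj.reg a ha)]
      exact Or.inr hQa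
    rw [hh, (sum_red Q _ _ fun i _ => Q.reg_mul (red_aeval Q hwr' (G i)).1
        (hpow Q (hj.reg a ha) i)).2, Finset.sum_eq_single 0] at hQh
    · rw [pow_zero, mul_one] at hQh
      exact Q.red_ne_zero (hw _ hG0).1 (hw _ hG0).2 hQh
    · intro i _ hi
      rw [Q.red_mul (red_aeval Q hwr' (G i)).1 (hpow Q (hj.reg a ha) i),
        Q.red_pow (hj.reg a ha), hQa', zero_pow hi, mul_zero]
    · intro h3
      exact absurd (Finset.mem_range.2 (Nat.succ_pos _)) h3
  have hEq : P = Q := hP.eq_of_centre hPc hj (by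
    ext ⟨a, ha⟩
    rw [mem_centre, mem_centre]
    by_cases ha0 : a = 0
    · subst ha0
      exact ⟨fun _ => Or.inl rfl, fun _ => Or.inl rfl⟩
    · constructor
      · rintro (h1 | h1)
        · exact absurd (congrArg Subtype.val h1) ha0
        · exact Or.inr (hle a (chart_localRing hj ha) ha0 h1)
      · rintro (h1 | h1)
        · exact absurd (congrArg Subtype.val h1) ha0
        · exact Or.inr (hge a ha ha0 h1))
  rw [← hEq]
  exact hP

/-- powers of independent residues -/
theorem pow_res (P : Place ℂ K) {m : ℕ} {w : Fin m → K} {d : Fin m → ℕ} (hd : ∀ i, 0 < d i)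
    (hw : ∀ p : MvPolynomial (Fin m) ℂ, p ≠ 0 → MvPolynomial.aeval w p ≠ 0 ∧
      P.ord (MvPolynomial.aeval w p) = 0) :
    ∀ p : MvPolynomial (Fin m) ℂ, p ≠ 0 → MvPolynomial.aeval (fun i => w i ^ d i) p ≠ 0 ∧
      P.ord (MvPolynomial.aeval (fun i => w i ^ d i) p) = 0 := by
  obtain ⟨hr, hi⟩ := (ri_iff P).1 hw
  have hpow : ∀ (f : K), P.Reg f → ∀ i : ℕ, P.Reg (f ^ i) := by
    intro f hf i
    induction i with
    | zero =>
      rw [pow_zero]
      exact P.reg_one
    | succ i ih =>
      rw [pow_succ]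
      exact P.reg_mul ih hf
  refine (ri_iff P).2 ⟨fun i => hpow _ (hr i) _, ?_⟩
  have h1 := hi.polynomial_aeval_of_transcendental (f := fun i => Polynomial.X ^ d i)
    fun i => ((Polynomial.transcendental_X ℂ).pow (hd i))
  have h2 : (fun i => Polynomial.aeval (P.red (w i)) (Polynomial.X ^ d i : Polynomial ℂ)) =
      fun i => P.red (w i ^ d i) := by
    funext i
    rw [map_pow, Polynomial.aeval_X, P.red_pow (hr i)]
  rw [h2] at h1
  exact h1

end Pool.Agent.K7.H5
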