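import Pool.Agent.K7.H47.DM.Stm4

set_option autoImplicit false

namespace Pool.Agent.K7.H5.D4

open Pool.Agent.K7.H47.DM4

theorem blk (h : StP) : StBlk := by
  intro ι _ _ t j cl ht hj σ hσ
  obtain ⟨A, hA⟩ : ∃ A : Matrix ι ι ℚ, A = Matrix.of fun r c =>
      if cl r = cl c then (((t (σ r)).choose (j c) : ℕ) : ℚ) else 0 := ⟨_, rfl⟩
  have hAdet : A.det ≠ 0 := by
    have hb : Matrix.BlockTriangular A cl := by
      intro r c hrc
      rw [hA, Matrix.of_apply, if_neg (ne_of_gt hrc)]
    rw [hb.det]
    refine Finset.prod_ne_zero_iff.2 fun k _ => ?_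
    have h1 := h {a // cl a = k} (fun a => t (σ a)) (fun a => j a)
      (fun a b hab => Subtype.ext (σ.injective (ht hab)))
      (fun a b hab => Subtype.ext (hj _ _ (a.2.trans b.2.symm) hab)) (fun c => hσ c)
    have e : A.toSquareBlock cl k =
        Matrix.of fun r c : {a // cl a = k} => (((t (σ r)).choose (j c) : ℕ) : ℚ) := by
      ext r c
      rw [Matrix.toSquareBlock_def, Matrix.of_apply, Matrix.of_apply, hA, Matrix.of_apply,
        if_pos (r.2.trans c.2.symm)]
    rw [e]
    convert h1
  intro h0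
  apply hAdet
  have e2 : A = (Matrix.of fun r c =>
      if cl (σ.symm r) = cl c then (((t r).choose (j c) : ℕ) : ℚ) else 0).submatrix σ id := by
    ext r c
    rw [hA, Matrix.submatrix_apply, Matrix.of_apply, Matrix.of_apply, Equiv.symm_apply_apply]
    rfl
  rw [e2, Matrix.det_permute]
  have h2 : (Matrix.of fun r c =>
      if cl (σ.symm r) = cl c then (((t r).choose (j c) : ℕ) : ℚ) else 0).det = 0 := by
    convert h0
  rw [h2, mul_zero]

end Pool.Agent.K7.H5.D4
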