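import Pool.Agent.K7.H87.EX.Stm

/-! Project EX, job EXT: the set of elements with a positive power is an invariant order. -/

set_option autoImplicit false

namespace Pool.Agent.K7.H5.EXEXT

open Pool.Agent.K7.H87.EX

theorem pow_mem {G : Type} [Group G] {H : Subgroup G} {P : Set G} (hP : InvCone H P)
    (a : G) (ha : a ∈ P) : ∀ n : ℕ, 0 < n → a ^ n ∈ P := by
  intro n hn
  induction n with
  | zero => exact absurd hn (lt_irrefl _)
  | succ k ih =>
    rcases Nat.eq_zero_or_pos k with h0 | h0
    · subst h0; simpa using ha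
    · rw [pow_succ]; exact hP.mul _ (ih h0) _ ha

theorem t : StExt := by
  intro G _ H _ htf hper P hP hcl
  refine ⟨{g | ∃ n : ℕ, 0 < n ∧ g ^ n ∈ P}, ?_, ?_, ?_, ?_, ?_⟩
  · intro a ha b hb
    exact hcl a b ha hb
  · rintro ⟨n, _, h⟩
    rw [one_pow] at h
    exact hP.one h
  · intro g hg
    obtain ⟨n, hn, h⟩ := isOfFinOrder_iff_pow_eq_one.1 (hper (g : G ⧸ H))
    have hH : g ^ n ∈ H := by
      rw [← QuotientGroup.eq_one_iff]
      simpa using h
    have hne : g ^ n ≠ 1 := by
      intro h1
      exact htf g hg (isOfFinOrder_iff_pow_eq_one.2 ⟨n, hn, h1⟩)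
    rcases hP.tot _ hH hne with h1 | h1
    · exact Or.inl ⟨n, hn, h1⟩
    · refine Or.inr ⟨n, hn, ?_⟩
      rw [inv_pow]; exact h1
  · rintro g a ⟨n, hn, h⟩
    refine ⟨n, hn, ?_⟩
    rw [conj_pow]
    exact hP.conj g _ h
  · intro h hh
    constructor
    · rintro ⟨n, hn, h1⟩
      by_cases h0 : h = 1
      · subst h0
        rw [one_pow] at h1
        exact absurd h1 hP.one
      · rcases hP.tot h hh h0 with h2 | h2
        · exact h2
        · exfalso
          have h3 := pow_mem hP _ h2 n hn
          have h4 := hP.mul _ h1 _ h3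
          rw [inv_pow, mul_inv_cancel] at h4
          exact hP.one h4
    · intro h1
      exact ⟨1, one_pos, by simpa using h1⟩

end Pool.Agent.K7.H5.EXEXT
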