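import Pool.Agent.K7.H5.Model
import Pool.Agent.R887.DefsNef

/-!
Good minimal models of nondegenerate systems.
-/

set_option autoImplicit false
set_option linter.overlappingInstances false
set_option linter.unusedSectionVars false

open FF Pool.Agent.W603.LV Pool.Agent.W619.PQ Pool.Agent.R885 Pool.Agent.W602.GT
open Pool.Agent.Y172 (NormalModel chart Centred localRing IsPrimeDivisor Through OrdGe OrdEq
  gen_mem chart_localRing mem_localRing exists_centred)

namespace Pool.Agent.K7.H5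

/-- **All nondegenerate systems.** -/
theorem fine_or_neg {k K : Type} [Field k] [CharZero k] [IsAlgClosed k] [Field K] [Algebra k K]
    {n : ℕ} (hn : 1 ≤ n) (htr : Algebra.trdeg k K = (n : ℕ)) (N0 : ℕ) :
    ∀ (r q : ℕ) (x : Fin r → K) (f : Fin q → (Fin r → ℤ) →₀ k), r = n + q → (∀ i, x i ≠ 0) →
      IntermediateField.adjoin k (Set.range x) = ⊤ → (∀ l, ev x (f l) = 0) → N.HN x f →
      q ≤ N0 → N.Neg k K n ∨ ∃ (r' q' : ℕ) (x' : Fin r' → K) (f' : Fin q' → (Fin r' → ℤ) →₀ k),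
        r' = n + q' ∧ (∀ i, x' i ≠ 0) ∧ IntermediateField.adjoin k (Set.range x') = ⊤ ∧
        (∀ l, ev x' (f' l) = 0) ∧ N.HN x' f' ∧ (FineInt f').Nonempty := by
  induction N0 with
  | zero =>
    intro r q x f hr hx hgen hf hnd hq
    by_cases hU : ∀ v : Fin r → ℤ, (∀ l, ∀ m ∈ (f l).support, ∀ m' ∈ (f l).support,
        m ⬝ᵥ v = m' ⬝ᵥ v) → v = 0
    · obtain ⟨t, ht, hor⟩ := N.stepV hn hr htr hx hgen hf hnd hU
      rcases hor with ⟨h1, -⟩ | h5 | ⟨-, m, s, hm, hexc⟩
      · right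
        obtain ⟨u, hu⟩ := ht
        exact ⟨r, q, x, f, hr, hx, hgen, hf, hnd, u, fun v hv => by
          have h2 := hu v hv
          rw [h1] at h2
          exact h2⟩
      · exact Or.inl h5
      · exfalso
        have h1 := (Finset.card_le_univ (N.JC f s))
        rw [hexc.card, Fintype.card_fin] at h1
        omega
    · push Not at hU
      obtain ⟨v1, hv1, hv10⟩ := hU
      exact Or.inl (N.neg_of_third hn htr _ r q x f hr hx hgen hf hnd (Or.inr ⟨v1, hv10, hv1⟩)
        le_rfl)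
  | succ N0 ih =>
    intro r q x f hr hx hgen hf hnd hq
    by_cases hU : ∀ v : Fin r → ℤ, (∀ l, ∀ m ∈ (f l).support, ∀ m' ∈ (f l).support,
        m ⬝ᵥ v = m' ⬝ᵥ v) → v = 0
    · obtain ⟨t, ht, hor⟩ := N.stepV hn hr htr hx hgen hf hnd hU
      rcases hor with ⟨h1, -⟩ | h5 | ⟨-, m, s, hm, hexc⟩
      · right
        obtain ⟨u, hu⟩ := ht
        exact ⟨r, q, x, f, hr, hx, hgen, hf, hnd, u, fun v hv => by
          have h2 := hu v hv
          rw [h1] at h2
          exact h2⟩
      · exact Or.inl h5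
      · obtain ⟨r', q', z, g, h1, h2, h3, h4, h5, h6⟩ :=
          hexc.reduce (N.hn_ne0 hnd hf) hgen hnd hr
        exact ih r' q' z g h2 h3 h4 h5 h6 (by omega)
    · push Not at hU
      obtain ⟨v1, hv1, hv10⟩ := hU
      exact Or.inl (N.neg_of_third hn htr _ r q x f hr hx hgen hf hnd (Or.inr ⟨v1, hv10, hv1⟩)
        le_rfl)

end Pool.Agent.K7.H5
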