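import Pool.Agent.W573.RF.D
import Pool.Agent.K7.H84.GG.Stm

/-!
Final assembly of MP_dc96bc_co: the inequality `mu ≤ rank * beta` for non-splitting restrictions
implies that every deletion of a point splits (`crit_of_main`), and with the structure theorem
`DC813.B7.T1` the full answer to Q1 (`full_of_main`).
-/

set_option autoImplicit false

namespace Pool.Agent.K7.H5.GGFIN
open Finset DC813 Pool.Agent.W573.RF

theorem crit_of_main {α : Type} [Fintype α] [DecidableEq α]
    (H : ∀ (r : Finset α → ℕ), IsRk r → ∀ E : Finset α, 1 ≤ r E → (∀ e ∈ E, r {e} = 1) →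
      Round r E → mu r E ≤ (r E : ℤ) * beta r E)
    (n : ℕ) (hn : 1 ≤ n) (r : Finset α → ℕ) (hr : IsRk r)
    (hs : ∀ a b : α, r {a, b} = ({a, b} : Finset α).card)
    (hχ : (∑ X : Finset α, (-1 : Polynomial ℤ) ^ X.card * Polynomial.X ^ (r Finset.univ - r X))
        = ∏ i ∈ Finset.Icc 1 n, (Polynomial.X - Polynomial.C (i : ℤ)))
    (hR : Round r univ) : Crit r := by
  have hrk := RankN.rank_eq n r hr hs hχ
  have hone : ∀ x, r {x} = 1 := by
    intro x
    have := hs x x
    simpa using this
  have hs2 : ∀ d e, d ≠ e → r {d, e} = 2 := by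
    intro d e h
    rw [hs, Finset.card_pair h]
  rcases Nat.lt_or_ge n 2 with hn2 | hn2
  · intro x
    refine ⟨∅, ∅, ?_, ?_, by simp, by simp, ?_⟩
    · intro e _
      rw [hr.empty]
      have : insert e (∅ : Finset α) = {e} := rfl
      rw [this, hone]
      norm_num
    · intro e _
      rw [hr.empty]
      have : insert e (∅ : Finset α) = {e} := rfl
      rw [this, hone]
      norm_num
    · intro y hy
      exfalso
      have h1 := hs y x
      have h2 := hr.mono {y, x} univ (Finset.subset_univ _)
      rw [Finset.card_pair hy] at h1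
      omega
  · intro x
    have hxu : x ∈ (univ : Finset α) := Finset.mem_univ x
    have hU : insert x ((univ : Finset α).erase x) = univ := Finset.insert_erase hxu
    have hrE : r ((univ : Finset α).erase x) = n := by
      rcases hR (univ.erase x) {x} (by
        rw [Finset.union_comm]; exact hU) with h | h
      · rw [h, hrk]
      · rw [hone, hrk] at h
        omega
    by_cases hround : Round r ((univ : Finset α).erase x)
    · exfalso
      have hconr : con r x (univ.erase x) + 1 = n := by
        rw [con_add hr (hone x), hU, hrk]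
      have m1 := H r hr (univ.erase x) (by omega) (fun e _ => hone e) hround
      have hl : ∀ e ∈ (univ : Finset α).erase x, con r x {e} = 1 := by
        intro e he
        have h1 := con_add hr (hone x) {e}
        have h2 : insert x ({e} : Finset α) = {x, e} := rfl
        rw [h2, hs2 x e (Finset.ne_of_mem_erase he).symm] at h1
        omega
      have hrc := round_con hr hxu (hone x) hR
      have m2 := H (con r x) (con_isRk hr (hone x)) (univ.erase x) (by omega) hl hrc
      have b2 := beta_pos (con_isRk hr (hone x)) (by omega) hrc hl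
      have e1 := A1.mu_rec r (con r x) univ x hxu (by rw [hrE, hrk])
        (fun X _ => con_add hr (hone x) X)
      have hne : ((univ : Finset α).erase x).Nonempty := by
        rw [Finset.nonempty_iff_ne_empty]
        intro h
        rw [h, hr.empty] at hrE
        omega
      have e2 := A1.beta_rec r (con r x) univ x hxu hne (by rw [hrE, hrk])
        (fun X _ => con_add hr (hone x) X)
      have e3 := chi_mu_beta n hn r hr x hrk hχ
      have hc : ((con r x (univ.erase x) : ℕ) : ℤ) = n - 1 := by
        have : ((con r x (univ.erase x) + 1 : ℕ) : ℤ) = n := by rw [hconr]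
        push_cast at this
        linarith
      rw [hrE] at m1
      rw [hc] at m2
      rw [e1, e2] at e3
      nlinarith
    · unfold Round at hround
      push Not at hround
      obtain ⟨X, Y, hXY, hX, hY⟩ := hround
      obtain ⟨F₁, a1, a2, a3⟩ := Link.exists_flat r hr X
      obtain ⟨F₂, b1, b2, b3⟩ := Link.exists_flat r hr Y
      have hcov : ∀ y, y ≠ x → y ∈ F₁ ∨ y ∈ F₂ := by
        intro y hy
        have : y ∈ X ∪ Y := by
          rw [hXY]; exact Finset.mem_erase.2 ⟨hy, Finset.mem_univ y⟩
        rcases Finset.mem_union.1 this with h | h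
        · exact Or.inl (a1 h)
        · exact Or.inr (b1 h)
      have hlt1 : r F₁ ≠ r univ := by
        rw [a3, hrk, ← hrE]; exact hX
      have hlt2 : r F₂ ≠ r univ := by
        rw [b3, hrk, ← hrE]; exact hY
      refine ⟨F₁, F₂, a2, b2, ?_, ?_, hcov⟩
      · intro hx
        have : F₁ ∪ F₂ = univ := by
          apply Finset.eq_univ_of_forall
          intro y
          by_cases hy : y = x
          · rw [hy]; exact Finset.mem_union_left _ hx
          · exact Finset.mem_union.2 (hcov y hy)
        rcases hR _ _ this with h | h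
        · exact hlt1 h
        · exact hlt2 h
      · intro hx
        have : F₁ ∪ F₂ = univ := by
          apply Finset.eq_univ_of_forall
          intro y
          by_cases hy : y = x
          · rw [hy]; exact Finset.mem_union_right _ hx
          · exact Finset.mem_union.2 (hcov y hy)
        rcases hR _ _ this with h | h
        · exact hlt1 h
        · exact hlt2 h

/-- the statement of `S11857` from the inequality `mu ≤ rank * beta` for round restrictions -/
theorem full_of_main
    (H : ∀ (α : Type) [DecidableEq α] (r : Finset α → ℕ), IsRk r → ∀ E : Finset α, 1 ≤ r E →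
      (∀ e ∈ E, r {e} = 1) → Round r E → mu r E ≤ (r E : ℤ) * beta r E) :
    ∀ (α : Type) [Fintype α] [DecidableEq α] (M : Matroid α) (n : ℕ) (r : Finset α → ℕ),
      M.E = Set.univ →
      (∀ a b : α, M.Indep ({a, b} : Set α)) →
      (∀ X : Finset α, IsGreatest
          {k : ℕ | ∃ I : Finset α, I ⊆ X ∧ M.Indep (↑I : Set α) ∧ I.card = k} (r X)) →
      (¬ ∃ F₁ F₂ : Finset α,
          (∀ e, e ∉ F₁ → r F₁ < r (insert e F₁)) ∧
          (∀ e, e ∉ F₂ → r F₂ < r (insert e F₂)) ∧
          F₁ ≠ Finset.univ ∧ F₂ ≠ Finset.univ ∧ F₁ ∪ F₂ = Finset.univ) →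
      (∑ X : Finset α, (-1 : Polynomial ℤ) ^ X.card * Polynomial.X ^ (r Finset.univ - r X))
        = ∏ i ∈ Finset.Icc 1 n, (Polynomial.X - Polynomial.C (i : ℤ)) →
      ∃ e : α ≃ {s : Sym2 (Fin (n + 1)) // ¬ s.IsDiag},
        ∀ I : Set α, M.Indep I ↔
          (SimpleGraph.fromEdgeSet (Subtype.val '' (e '' I))).IsAcyclic := by
  intro α _ _ M n r _ hs hr hsplit hχ
  have hR : IsRk r := Link.isRk_of_matroid M r hr
  have hindep := Link.indep_iff M r hr
  have hs' : ∀ a b : α, r {a, b} = ({a, b} : Finset α).card := by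
    intro a b
    have h := hs a b
    rw [show ({a, b} : Set α) = (({a, b} : Finset α) : Set α) by simp] at h
    exact (hindep _).1 h
  rcases Nat.eq_zero_or_pos n with hn | hn
  · subst hn
    have hrk := RankN.rank_eq 0 r hR hs' hχ
    have hα : IsEmpty α := by
      refine ⟨fun a => ?_⟩
      have h1 := hs' a a
      have h2 := hR.mono {a, a} univ (Finset.subset_univ _)
      rw [hrk] at h2
      simp at h1 h2
      omega
    have hβ : IsEmpty {s : Sym2 (Fin (0 + 1)) // ¬ s.IsDiag} := by
      refine ⟨fun s => ?_⟩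
      obtain ⟨s, hs⟩ := s
      apply hs
      induction s with
      | h a b =>
        rw [Sym2.mk_isDiag_iff]
        omega
    refine ⟨Equiv.equivOfIsEmpty _ _, fun I => ?_⟩
    have hI : I = ∅ := Set.eq_empty_of_isEmpty I
    subst hI
    have h1 : M.Indep ∅ := M.empty_indep
    refine ⟨fun _ => ?_, fun _ => h1⟩
    simp only [Set.image_empty, SimpleGraph.fromEdgeSet_empty]
    exact SimpleGraph.isAcyclic_bot
  · have hround : Round r univ := Link.round_of_nonsplit r hR hsplit
    have hcrit := crit_of_main (fun r' hr' E h1 h2 h3 => H α r' hr' E h1 h2 h3) n hn r hR hs' hχ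
      hround
    obtain ⟨e, he⟩ := B7.T1 n hn r hR hs' hcrit hχ
    refine ⟨e, fun I => ?_⟩
    have hfin : I.Finite := Set.toFinite I
    lift I to Finset α using hfin
    rw [hindep, he]

theorem mc_self {α : Type} [DecidableEq α] (r : Finset α → ℕ) (E : Finset α) :
    H84.GG.mc r E E = 1 := by
  unfold H84.GG.mc mu
  rw [Finset.sdiff_self, Finset.powerset_empty]
  have h0 : H84.GG.con r E ∅ = 0 := by
    unfold H84.GG.con
    rw [Finset.empty_union]
    exact Nat.sub_self _
  rw [h0]
  simp [Finset.filter_singleton, h0]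

/-- the inequality for round matroids from the uncrossing inequality with `f = r` -/
theorem round_of (hG : H84.GG.StGG) (hW : H84.GG.StWeis) (hI : H84.GG.StID1) :
    H84.GG.StRound := by
  intro α _ r E hr hl hR h1
  obtain ⟨p, hp⟩ : E.Nonempty := by
    rw [Finset.nonempty_iff_ne_empty]
    intro h
    rw [h, hr.empty] at h1
    omega
  have hS : H84.GG.Sub (fun A => (r A : ℤ)) := by
    intro A B
    have := hr.submod A B
    show (r (A ∪ B) : ℤ) + (r (A ∩ B) : ℤ) ≤ (r A : ℤ) + (r B : ℤ)
    exact_mod_cast this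
  have g := hG α (r E) r E p (fun A => (r A : ℤ)) hr rfl hl hp hS
  unfold H84.GG.GGs at g
  have w := hW α r E p hr hp (hl p hp)
  have i1 := hI α r E p hr hl hp
  have hE : E ∈ (H84.GG.fl r E).filter (fun F => p ∈ F) := by
    unfold H84.GG.fl
    simp only [Finset.mem_filter, Finset.mem_powerset]
    exact ⟨⟨Finset.Subset.refl _, fun e he hne => absurd he hne⟩, hp⟩
  rw [← Finset.add_sum_erase _ _ hE] at g i1
  have hrest : ∑ F ∈ ((H84.GG.fl r E).filter (fun F => p ∈ F)).erase E,
      beta r F * H84.GG.mc r E F * (r (E \ F) : ℤ)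
      = (r E : ℤ) * ∑ F ∈ ((H84.GG.fl r E).filter (fun F => p ∈ F)).erase E,
        beta r F * H84.GG.mc r E F := by
    rw [Finset.mul_sum]
    refine Finset.sum_congr rfl fun F hF => ?_
    rw [Finset.mem_erase, Finset.mem_filter] at hF
    obtain ⟨hne, hFl, -⟩ := hF
    unfold H84.GG.fl at hFl
    rw [Finset.mem_filter, Finset.mem_powerset] at hFl
    obtain ⟨hsub, hflat⟩ := hFl
    obtain ⟨e, heE, heF⟩ : ∃ e ∈ E, e ∉ F := by
      by_contra hcon
      push Not at hcon
      exact hne (Finset.Subset.antisymm hsub hcon)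
    have h2 := hflat e heE heF
    have h3 := hr.mono _ _ (Finset.insert_subset heE hsub)
    have h4 : r (E \ F) = r E := by
      rcases hR F (E \ F) (Finset.union_sdiff_of_subset hsub) with h | h
      · omega
      · exact h
    rw [h4]
    ring
  have hE0 : (r (E \ E) : ℤ) = 0 := by
    rw [Finset.sdiff_self, hr.empty]; rfl
  have hright : ∑ H ∈ H84.GG.hy r E p, mu r H * (r H : ℤ) = ((r E : ℤ) - 1) * mu r E := by
    rw [← w, Finset.mul_sum]
    refine Finset.sum_congr rfl fun H hH => ?_
    unfold H84.GG.hy at hH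
    rw [Finset.mem_filter] at hH
    have h2 : ((r H + 1 : ℕ) : ℤ) = (r E : ℤ) := by rw [hH.2.1]
    push_cast at h2
    have h3 : (r H : ℤ) = (r E : ℤ) - 1 := by linarith
    rw [h3]
    ring
  simp only at g
  rw [hrest, hE0, hright] at g
  rw [mc_self] at i1
  have h5 : ∑ F ∈ ((H84.GG.fl r E).filter (fun F => p ∈ F)).erase E,
        beta r F * H84.GG.mc r E F = mu r E - beta r E := by linarith
  rw [h5] at g
  nlinarith

/-- the full answer, the statement of `S11857`, from the jobs GG, WEIS, ID1 -/
theorem final (hG : H84.GG.StGG) (hW : H84.GG.StWeis) (hI : H84.GG.StID1) :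
    ∀ (α : Type) [Fintype α] [DecidableEq α] (M : Matroid α) (n : ℕ) (r : Finset α → ℕ),
      M.E = Set.univ →
      (∀ a b : α, M.Indep ({a, b} : Set α)) →
      (∀ X : Finset α, IsGreatest
          {k : ℕ | ∃ I : Finset α, I ⊆ X ∧ M.Indep (↑I : Set α) ∧ I.card = k} (r X)) →
      (¬ ∃ F₁ F₂ : Finset α,
          (∀ e, e ∉ F₁ → r F₁ < r (insert e F₁)) ∧
          (∀ e, e ∉ F₂ → r F₂ < r (insert e F₂)) ∧
          F₁ ≠ Finset.univ ∧ F₂ ≠ Finset.univ ∧ F₁ ∪ F₂ = Finset.univ) →
      (∑ X : Finset α, (-1 : Polynomial ℤ) ^ X.card * Polynomial.X ^ (r Finset.univ - r X))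
        = ∏ i ∈ Finset.Icc 1 n, (Polynomial.X - Polynomial.C (i : ℤ)) →
      ∃ e : α ≃ {s : Sym2 (Fin (n + 1)) // ¬ s.IsDiag},
        ∀ I : Set α, M.Indep I ↔
          (SimpleGraph.fromEdgeSet (Subtype.val '' (e '' I))).IsAcyclic :=
  full_of_main fun α _ r hr E h1 h2 h3 =>
    round_of hG hW hI α r E hr (fun x hx => by rw [h2 x hx]; exact Nat.one_pos) h3 h1

end Pool.Agent.K7.H5.GGFIN
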