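import Pool.Agent.R882.TFin
import Pool.Agent.R885.Cv
import Pool.Agent.R885.P9
import Pool.Agent.Y174.B7

/-!
Images of nondegenerate varieties of any Kodaira dimension.
-/

set_option autoImplicit false
set_option linter.overlappingInstances false
set_option linter.unusedSectionVars false

open FF Module Pool.Agent.W602.GT Pool.Agent.W603.LV Pool.Agent.W619.PQ Pool.Agent.W619.TW
  Pool.Agent.R885
open Pool.Agent.R882.LT (IsTwisted TraceNe InFine inFine_comb mono_comb)

namespace Pool.Agent.K7.H5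

section

variable {K : Type} [Field K] [Algebra ℂ K] {r n N1 M : ℕ} {J : Type} [Fintype J] [DecidableEq J]

/-- **The residue forms are twisted**, for systems which are nondegenerate along the variety. -/
theorem exists_twisted {x : Fin r → K} (hx : ∀ i, x i ≠ 0)
    (hgen : IntermediateField.adjoin ℂ (Set.range x) = ⊤) (e : J ⊕ Fin n ≃ Fin r)
    {f : J → (Fin r → ℤ) →₀ ℂ} (hf : ∀ l, ev x (f l) = 0) (hnd : N.HN x f)
    {u : Fin r → ℤ} {w : Fin N1 → Fin r → ℤ} (hM : 0 < M) (hu : InFine f u)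
    (hw : ∀ j, InFine f (u + (M : ℤ) • w j)) :
    ∃ ω : (Fin n → Derivation ℂ K K) → K, IsTwisted n M (fun j => R885.mono x (w j)) ω ∧
      ∀ (Z : Fin n → K), IsTranscendenceBasis ℂ Z → ∀ D0 : Fin n → Derivation ℂ K K,
        (∀ i j, D0 i (Z j) = if i = j then 1 else 0) → ω D0 ≠ 0 := by
  have hf0 := N.hn_ne0 hnd hf
  obtain ⟨C0, h0⟩ := N.exists_C0 hx e hf0 hf hnd.self
  refine ⟨fun D => R885.mono x u * Om e x f C0 D, ⟨?_, ?_⟩, ?_⟩
  · intro B D
    have h1 := om_pluri e x f C0 1 B D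
    change Om e x f C0 (fun i => ∑ j, B i j • D j) ^ 1 = B.det ^ 1 * Om e x f C0 D ^ 1 at h1
    change R885.mono x u * Om e x f C0 (fun i => ∑ j, B i j • D j) =
      B.det ^ 1 * (R885.mono x u * Om e x f C0 D)
    rw [pow_one, pow_one, pow_one] at h1
    rw [h1]
    ring
  · intro a ha P _ D hD
    obtain ⟨u', hu'⟩ : ∃ u', u' = u + ∑ j, (a j : ℤ) • w j := ⟨_, rfl⟩
    have h3 : InFine f u' := by
      rw [hu']
      exact inFine_comb hM hu hw a ha
    change P.Reg ((∏ j, R885.mono x (w j) ^ a j) * (R885.mono x u * Om e x f C0 D))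
    rw [mono_comb hx, ← mul_assoc, mul_comm (R885.mono x _) (R885.mono x u),
      ← R885.mono_add hx, ← hu']
    obtain ⟨h1, h2⟩ := N.om_ge P hx hf0 hf (hnd.places P) h0 hD
    by_cases hO : Om e x f C0 D = 0
    · left
      rw [hO, mul_zero]
    right
    rw [P.ord_mul (mono_ne hx _) hO, ord_mono P hx]
    by_cases hV0 : vec P x = 0
    · have h4 := (h2 hV0).resolve_left hO
      rw [hV0, dotProduct_zero, zero_add]
      exact h4
    · have h4 := h3 _ hV0
      have h5 := h1.resolve_left hO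
      linarith
  · intro Z hZ D0 hD0
    exact mul_ne_zero (mono_ne hx _) (om_ne hx hgen hf h0 hZ hD0)

end

section

variable {K : Type} [Field K] [Algebra ℂ K] {n : ℕ}

theorem kodTr_mono {a b : ℕ} (hab : b ≤ a) (h : Pool.Agent.W619.Y.KodTr ℂ K n a) :
    Pool.Agent.W619.Y.KodTr ℂ K n b := by
  obtain ⟨m, hm, ω, hω, D, hD, hind⟩ := h
  refine ⟨m, hm, fun l => ω (Fin.castLE (Nat.add_le_add_right hab 1) l), fun l => hω _, D,
    fun l => hD _, ?_⟩
  have h1 := hind.comp (Fin.castLE hab) (Fin.castLE_injective hab)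
  exact h1

theorem kodGe_of_tr {d : ℕ} (h : Pool.Agent.W619.Y.KodTr ℂ K n d) :
    Pool.Agent.W602.GT.KodGe ℂ K n (fun _ => False) d := by
  obtain ⟨m, hm, ω, hω, D, hD, hind⟩ := h
  refine ⟨m, hm, ω, fun j => ?_, D, hD 0, hind⟩
  have hreg : ∀ P : Place ℂ K, Divisorial n P → RegAt P (ω j) := by
    intro P hP E hE
    rcases (hω j).2.1 P hP (fun h => h) E (fun i => hE i) with h1 | ⟨s, hs, hs0, h1⟩
    · exact Or.inl h1
    · right
      rw [Nat.cast_zero, zero_mul] at h1
      exact h1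
  exact ⟨(hω j).1, fun P hP E hE => hreg P hP E fun i =>
    Pool.Agent.TH466.QG.derReg_of_log (hE i), fun P hP _ => hreg P hP⟩

/-- The numerical dimension of the nondegenerate varieties is the Kodaira dimension. -/
theorem numLe_of_kod {q r : ℕ} (hn : 1 ≤ n) (hr : r = n + q)
    (htr : Algebra.trdeg ℂ K = (n : ℕ)) {x : Fin r → K} (hx : ∀ i, x i ≠ 0)
    (hgen : IntermediateField.adjoin ℂ (Set.range x) = ⊤) {f : Fin q → (Fin r → ℤ) →₀ ℂ}
    (hf : ∀ l, ev x (f l) = 0) (hnd : N.HN x f) {d : ℕ}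
    (h0 : Pool.Agent.W619.Y.KodTr ℂ K n 0)
    (hk : ¬ Pool.Agent.W602.GT.KodGe ℂ K n (fun _ => False) (d + 1)) :
    NumLe ℂ K n (fun _ => False) d := by
  rcases N.all_sys hn htr q _ q x f hr hx hgen hf hnd le_rfl with ⟨d', hd', h1, h2⟩ | h1
  · rw [Pool.Agent.Y174.pairNum_zero] at h2
    rw [Pool.Agent.Y174.pairKod_zero] at h1
    have h3 : d' ≤ d := by
      by_contra hcon
      exact hk (kodGe_of_tr (kodTr_mono (by omega) h1))
    intro S
    obtain ⟨C, hC⟩ := h2 S
    refine ⟨C, fun m N1 hm h => (hC m N1 hm h).trans (Nat.mul_le_mul_left _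
      (Nat.pow_le_pow_right hm h3))⟩
  · exfalso
    obtain ⟨m, hm, ω, hω, D, hD, -⟩ := h0
    obtain ⟨M0, hM0⟩ := h1 {1}
    have h2 := hM0 (m * (M0 + 1)) (by nlinarith) (fun D => ω 0 D ^ (M0 + 1)) ?_
    · exact pow_ne_zero _ (hD 0) (congrFun h2 D)
    · refine ⟨?_, fun v hv D' hD' => ?_⟩
      · intro A D'
        have h3 := (hω 0).1 A D'
        beta_reduce
        rw [h3, mul_pow, ← pow_mul]
      · beta_reduce
        by_cases hz : ω 0 D' = 0
        · left
          rw [hz, zero_pow (by omega)]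
        right
        refine ⟨1, Finset.mem_singleton_self _, one_ne_zero, ?_⟩
        rcases (hω 0).2.1 v hv (fun h => h) D' hD' with h4 | ⟨s, hs, hs0, h4⟩
        · exact absurd h4 hz
        · rw [Nat.cast_zero, zero_mul] at h4
          rw [v.ord_one, v.ord_pow, Int.cast_zero, mul_zero, mul_zero, sub_zero]
          have h5 : (0 : ℤ) ≤ (M0 + 1 : ℕ) * v.ord (ω 0 D') := mul_nonneg (Int.natCast_nonneg _) h4
          exact_mod_cast h5

end

section

variable {K : Type} [Field K] [Algebra ℂ K] {n N M d : ℕ}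

/-- **Images.** -/
theorem img_dims (htr : Algebra.trdeg ℂ K = (n : ℕ)) (hess : Algebra.EssFiniteType ℂ K)
    {t : Fin N → K} (hd : Algebra.trdeg ℂ (IntermediateField.adjoin ℂ (Set.range t)) = (d : ℕ))
    (hnum : NumLe ℂ K n (fun _ => False) d) {L : Type} [Field L] [Algebra ℂ L] [Algebra L K]
    [IsScalarTower ℂ L K] [FiniteDimensional L K] {ω : (Fin n → Derivation ℂ K K) → K}
    (hω : IsTwisted n M t ω)
    (htn : TraceNe ω ((IntermediateField.adjoin L (Set.range t)).restrictScalars ℂ))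
    (hdeg : 2 * finrank L (IntermediateField.adjoin L (Set.range t)) ≤ M + 1) {N' : ℕ}
    {y : Fin (N' + 1) → L} (hy : Pool.Agent.Y172.NormalModel y)
    (hcan : Pool.Agent.Y191.Canonical y n) :
    Pool.Agent.Y172.kodairaDim y n 0 = (d : WithBot ℕ) ∧
      ∀ A, Pool.Agent.Y172.Effective y A → Pool.Agent.Y172.Integral y A →
        Pool.Agent.Y172.numericalDim y n 0 A = (d : EReal) := by
  have hL : Algebra.trdeg ℂ L = n := Pool.Agent.Y184.NT.trdeg_below (K := K) htr
  exact dims_of hL hy hcan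
    ((Pool.Agent.R882.LT.core_img (L := L) htr hd rfl hω htn).2 hdeg)
    (Pool.Agent.R882.LT.numLe_down htr hnum)

end

end Pool.Agent.K7.H5
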