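import Pool.Agent.K7.H5.Jac

/-!
Independent monomials at the places where the residue form has the minimal order.
-/

set_option autoImplicit false
set_option linter.overlappingInstances false
set_option linter.unusedSectionVars false

open FF Pool.Agent.W603.LV Pool.Agent.W619.PQ Pool.Agent.Y173.QA Pool.Agent.R885

namespace Pool.Agent.K7.H5

section

variable {k K : Type} [Field k] [Field K] [Algebra k K] {m : ℕ}

theorem red_det (P : Place k K) {n : ℕ} {M : Matrix (Fin n) (Fin n) K}
    (hM : ∀ i j, P.Reg (M i j)) :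
    P.Reg M.det ∧ P.red M.det = (Matrix.of fun i j => P.red (M i j)).det := by
  let B : Matrix (Fin n) (Fin n) P.O := fun i j => ⟨M i j, hM i j⟩
  have h : M = P.O.subtype.mapMatrix B := by
    ext i j
    rfl
  have h1 : M.det = ((B.det : P.O) : K) := by
    rw [h, ← RingHom.map_det]
    rfl
  have h2 : P.Reg M.det := by
    rw [h1]
    exact B.det.2
  refine ⟨h2, ?_⟩
  have h3 : P.red M.det = P.resHom B.det := by
    rw [P.red_of_reg h2]
    congr 1
    exact Subtype.ext h1
  rw [h3, RingHom.map_det]
  congr 1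
  ext i j
  exact (P.red_of_reg (hM i j)).symm

/-- the Jacobian criterion, with logarithmic derivatives -/
theorem jac_log [CharZero k] (P : Place k K) {t : K} (ht : P.ord t = 1)
    {E : Fin m → Derivation k K K} (hE : ∀ a, Pres P (E a)) (hEt : ∀ a, E a t = 0)
    {z : Fin m → K} (hz0 : ∀ i, z i ≠ 0) (hz : ∀ i, P.ord (z i) = 0)
    (hdet : (Matrix.of fun a i => E a (z i) / z i).det ≠ 0)
    (hord : P.ord (Matrix.of fun a i => E a (z i) / z i).det ≤ 0) :
    ∀ p : MvPolynomial (Fin m) k, p ≠ 0 → MvPolynomial.aeval z p ≠ 0 ∧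
      P.ord (MvPolynomial.aeval z p) = 0 := by
  have hreg : ∀ a i, P.Reg (E a (z i) / z i) := fun a i => log_flat P ht (hE a) (hEt a) (z i)
  obtain ⟨h1, h2⟩ := red_det P (M := Matrix.of fun a i => E a (z i) / z i) hreg
  have h3 := (P.reg_iff hdet).1 h1
  have h4 := P.red_ne_zero hdet (le_antisymm hord h3)
  rw [h2] at h4
  refine jac P ht hE hEt (fun i => Or.inr (hz i).ge) ?_
  have h5 : (Matrix.of fun a i => P.red (E a (z i))) =
      Matrix.of fun a i => P.red (z i) *
        (Matrix.of fun a i => P.red ((Matrix.of fun a i => E a (z i) / z i) a i)) a i := by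
    ext a i
    change P.red (E a (z i)) = P.red (z i) * P.red (E a (z i) / z i)
    rw [← P.red_mul (Or.inr (hz i).ge) (hreg a i)]
    congr 1
    have := hz0 i
    field_simp
  rw [h5, Matrix.det_mul_row]
  exact mul_ne_zero (Finset.prod_ne_zero_iff.2 fun i _ => P.red_ne_zero (hz0 i) (hz i)) h4

theorem det_frame [CharZero k] {n : ℕ} {η : Fin n → K} {D E : Fin n → Derivation k K K}
    (hDE : ∀ a, D a = ∑ b, D a (η b) • E b) (z : Fin n → K) :
    (Matrix.of fun a i => D a (z i) / z i).det =
      (Matrix.of fun a b => D a (η b)).det * (Matrix.of fun b i => E b (z i) / z i).det := by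
  rw [← Matrix.det_mul]
  congr 1
  ext a i
  rw [Matrix.mul_apply]
  change D a (z i) / z i = ∑ b, D a (η b) * (E b (z i) / z i)
  conv_lhs => rw [hDE a]
  rw [der_sum', Finset.sum_div]
  exact Finset.sum_congr rfl fun b _ => mul_div_assoc _ _ _

end

section

variable {k K : Type} [Field k] [CharZero k] [Field K] [Algebra k K] {r m : ℕ} {J : Type}
  [Fintype J] [DecidableEq J] {x : Fin r → K}

/-- **Independent monomials.** -/
theorem exists_ind (htr : Algebra.trdeg k K = (m + 1 : ℕ))
    (hfin : ∀ y : Fin (m + 1) → K, IsTranscendenceBasis k y →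
      FiniteDimensional (IntermediateField.adjoin k (Set.range y)) K)
    (P : Place k K) (hx : ∀ i, x i ≠ 0) {e : J ⊕ Fin (m + 1) ≃ Fin r}
    {f : J → (Fin r → ℤ) →₀ k} (hf0 : ∀ l, f l ≠ 0)
    (hf : ∀ l, ev x (f l) = 0) (hnd : N.NDP P x f) {y : Fin m → K}
    (hy : ∀ p : MvPolynomial (Fin m) k, p ≠ 0 →
      MvPolynomial.aeval y p ≠ 0 ∧ P.ord (MvPolynomial.aeval y p) = 0)
    {C0 : Fin (m + 1) → Fin r → ℤ} (h0 : dt e (fun l => gr x (f l)) C0 ≠ 0)
    {D : Fin (m + 1) → Derivation k K K} (hD : ∀ a, Pres P (D a)) (hOm : Om e x f C0 D ≠ 0)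
    (h : (vec P x = 0 ∧ P.ord (Om e x f C0 D) = 0) ∨ ((∃ c1 : Fin r → ℤ, c1 ⬝ᵥ vec P x = 1) ∧
      P.ord (Om e x f C0 D) = -1 - ∑ l, mn (vec P x) (f l))) :
    ∃ C : Fin m → Fin r → ℤ, (∀ i, C i ⬝ᵥ vec P x = 0) ∧
      ∀ p : MvPolynomial (Fin m) k, p ≠ 0 → MvPolynomial.aeval (fun i => mono x (C i)) p ≠ 0 ∧
        P.ord (MvPolynomial.aeval (fun i => mono x (C i)) p) = 0 := by
  classical
  choose m0 hm0 hm0' using fun l => exists_mn (hf0 l) (vec P x)
  have hli := N.nd_place P hx hf hnd hm0'
  have hcard : Fintype.card (Fin r) = Fintype.card J + (m + 1) := by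
    rw [← Fintype.card_congr e, Fintype.card_sum, Fintype.card_fin]
  have hyreg : ∀ j, P.Reg (y j) := by
    intro j
    have h3 := (hy (MvPolynomial.X j) (MvPolynomial.X_ne_zero j)).2
    rw [MvPolynomial.aeval_X] at h3
    exact Or.inr h3.ge
  -- the determinant of the logarithmic derivatives
  have hdetD : ∀ C : Fin (m + 1) → Fin r → ℤ, dt e (fun l => gr x (f l)) C ≠ 0 →
      (Matrix.of fun a i => D a (mono x (C i)) / mono x (C i)).det ≠ 0 ∧
      P.ord (Matrix.of fun a i => D a (mono x (C i)) / mono x (C i)).det =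
        P.ord (Om e x f C0 D) + P.ord (dt e (fun l => gr x (f l)) C) := by
    intro C hC
    have h1 : (Matrix.of fun a i => D a (mono x (C i)) / mono x (C i)).det =
        Om e x f C0 D * dt e (fun l => gr x (f l)) C := by
      rw [om_eq hx hf h0 hC, ← cw_lg hx, Matrix.det_transpose]
      unfold Om
      rw [div_mul_cancel₀ _ hC]
    rw [h1]
    exact ⟨mul_ne_zero hOm hC, P.ord_mul hOm hC⟩
  rcases h with ⟨hv, hord⟩ | ⟨⟨c1, hc1⟩, hord⟩
  · obtain ⟨t, ht0, ht⟩ := P.surj
    obtain ⟨hbas, E, hE1, hE2⟩ := frame_of htr hfin P ht hy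
    obtain ⟨C, hC⟩ := complete_zero hli (n := m + 1) hcard
    obtain ⟨h3, h4⟩ := ord_dt_gr P (e := e) hx hm0' hC
    have h4' : P.ord (dt e (fun l => gr x (f l)) C) = 0 := by
      rw [h4, hv, Finset.sum_eq_zero fun l _ => mn_zero (hf0 l)]
    obtain ⟨h5, h6⟩ := hdetD C h3
    rw [hord, h4', add_zero] at h6
    have h7 := det_frame (fun a => der_expand hbas hE1 (D a)) (fun i => mono x (C i))
    have hregη : ∀ b, P.Reg ((Fin.cons t y : Fin (m + 1) → K) b) := by
      intro b
      refine Fin.cases ?_ (fun b => ?_) b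
      · rw [Fin.cons_zero]
        exact Or.inr (by omega)
      · rw [Fin.cons_succ]
        exact hyreg b
    have h8 := (red_det P (M := Matrix.of fun a b => D a ((Fin.cons t y : Fin (m + 1) → K) b))
      fun a b => hD a _ (hregη b)).1
    rw [h7] at h5 h6
    have h8' := (P.reg_iff (left_ne_zero_of_mul h5)).1 h8
    rw [P.ord_mul (left_ne_zero_of_mul h5) (right_ne_zero_of_mul h5)] at h6
    have hzu : ∀ i, P.ord (mono x (C i)) = 0 := fun i => by
      rw [ord_mono P hx, hv, dotProduct_zero]
    have hEt : ∀ a : Fin m, E a.succ t = 0 := by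
      intro a
      have h1 := hE1 a.succ 0
      rwa [Fin.cons_zero, if_neg (Fin.succ_ne_zero a)] at h1
    -- a minor
    have h9 : ∃ j : Fin (m + 1), (Matrix.of fun (a : Fin m) (i : Fin m) =>
        E a.succ (mono x (C (j.succAbove i))) / mono x (C (j.succAbove i))).det ≠ 0 ∧
        P.ord (Matrix.of fun (a : Fin m) (i : Fin m) =>
        E a.succ (mono x (C (j.succAbove i))) / mono x (C (j.succAbove i))).det ≤ 0 := by
      by_contra hcon
      push Not at hcon
      have h10 : Ge P 1 (Matrix.of fun b i => E b (mono x (C i)) / mono x (C i)).det := by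
        rw [Matrix.det_succ_row_zero]
        refine Ge.sum _ _ fun j _ => ?_
        have h11 : Ge P 1 ((Matrix.of fun b i => E b (mono x (C i)) / mono x (C i)).submatrix
            Fin.succ j.succAbove).det := by
          by_cases h12 : ((Matrix.of fun b i => E b (mono x (C i)) / mono x (C i)).submatrix
            Fin.succ j.succAbove).det = 0
          · exact Or.inl h12
          · exact Or.inr (hcon j h12)
        have h12 : Ge P 0 ((Matrix.of fun b i => E b (mono x (C i)) / mono x (C i)) 0 j) :=
          der_unit (hE2 0) (hzu j)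
        have h13 : Ge P 0 ((-1 : K) ^ (j : ℕ)) := by
          rcases neg_one_pow_eq_or K (j : ℕ) with h | h
          · rw [h]
            exact Ge.one
          · rw [h]
            exact Ge.one.neg
        have h14 := (h13.mul h12).mul h11
        simpa using h14
      rcases h10 with h10 | h10
      · exact right_ne_zero_of_mul h5 h10
      · omega
    obtain ⟨j, h10, h11⟩ := h9
    refine ⟨fun i => C (j.succAbove i), fun i => by rw [hv, dotProduct_zero], ?_⟩
    exact jac_log P ht (E := fun a => E a.succ) (fun a => hE2 a.succ) hEt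
      (fun i => mono_ne hx _) (fun i => hzu _) h10 h11
  · have hzord : P.ord (mono x c1) = 1 := by
      rw [ord_mono P hx, hc1]
    obtain ⟨hbas, E, hE1, hE2⟩ := frame_of htr hfin P hzord hy
    have hdir := fun l => gr'_dir P hx (hf l) (s := vec P x) (α := 1) one_pos
      (by rw [one_smul]) hc1 (hm0' l)
    choose tt htt1 htt2 using hdir
    have has : ∀ l, (fun i => P.red (gr' x (f l) (m0 l) i)) ⬝ᵥ
        (fun i => (vec P x i : P.RF)) = 0 := by
      intro l
      have h5 : P.red (∑ i, gr' x (f l) (m0 l) i * (vec P x i : K)) = 0 := by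
        have h6 : Ge P 1 (mono x c1 * tt l) := by
          have h7 : Ge P 1 (mono x c1) := Or.inr (by rw [hzord])
          have h8 : Ge P 0 (tt l) := A0_reg P hx (htt1 l)
          simpa using h7.mul h8
        rw [htt2 l]
        rw [P.red_eq_zero_iff (h6.mono (by omega))]
        rcases h6 with h6 | h6
        · exact Or.inl h6
        · exact Or.inr (by omega)
      rw [red_sum P _ _ fun i _ => P.reg_mul (reg_gr' P hx (f l) (hm0' l) i)
        (reg_int P (vec P x i))] at h5
      rw [← h5]
      unfold dotProduct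
      refine Finset.sum_congr rfl fun i _ => ?_
      rw [P.red_mul (reg_gr' P hx (f l) (hm0' l) i) (reg_int P (vec P x i)), red_int]
    obtain ⟨C, hC0, hCs, hC⟩ := complete_s hli hcard hc1 has
    obtain ⟨h3, h4⟩ := ord_dt_gr P (e := e) hx hm0' hC
    obtain ⟨h5, h6⟩ := hdetD C h3
    rw [hord, h4] at h6
    have h7 := det_frame (fun a => der_expand hbas hE1 (D a)) (fun i => mono x (C i))
    have hregη : ∀ b, P.Reg ((Fin.cons (mono x c1) y : Fin (m + 1) → K) b) := by
      intro b
      refine Fin.cases ?_ (fun b => ?_) b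
      · rw [Fin.cons_zero]
        exact Or.inr (by omega)
      · rw [Fin.cons_succ]
        exact hyreg b
    have h8 := (red_det P
      (M := Matrix.of fun a b => D a ((Fin.cons (mono x c1) y : Fin (m + 1) → K) b))
      fun a b => hD a _ (hregη b)).1
    rw [h7] at h5 h6
    have h8' := (P.reg_iff (left_ne_zero_of_mul h5)).1 h8
    rw [P.ord_mul (left_ne_zero_of_mul h5) (right_ne_zero_of_mul h5)] at h6
    have hEt : ∀ a : Fin m, E a.succ (mono x c1) = 0 := by
      intro a
      have h1 := hE1 a.succ 0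
      rwa [Fin.cons_zero, if_neg (Fin.succ_ne_zero a)] at h1
    have hE0 : E 0 (mono x c1) = 1 := by
      have h1 := hE1 0 0
      rwa [Fin.cons_zero, if_pos rfl] at h1
    have h9 : (Matrix.of fun b i => E b (mono x (C i)) / mono x (C i)).det =
        (mono x c1)⁻¹ * (Matrix.of fun (a : Fin m) (i : Fin m) =>
          E a.succ (mono x (C i.succ)) / mono x (C i.succ)).det := by
      rw [Matrix.det_succ_column_zero, Fin.sum_univ_succ]
      have h10 : ∀ i : Fin m, (Matrix.of fun b i => E b (mono x (C i)) / mono x (C i)) i.succ 0 =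
          0 := by
        intro i
        change E i.succ (mono x (C 0)) / mono x (C 0) = 0
        rw [hC0, hEt, zero_div]
      have h11 : (Matrix.of fun b i => E b (mono x (C i)) / mono x (C i)) 0 0 =
          (mono x c1)⁻¹ := by
        change E 0 (mono x (C 0)) / mono x (C 0) = _
        rw [hC0, hE0, one_div]
      rw [Finset.sum_eq_zero fun i _ => by rw [h10, mul_zero, zero_mul], add_zero, h11]
      rw [Fin.val_zero, pow_zero, one_mul]
      rfl
    rw [h9] at h5 h6
    have h10 := right_ne_zero_of_mul (right_ne_zero_of_mul h5)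
    rw [P.ord_mul (inv_ne_zero (mono_ne hx _)) h10, P.ord_inv, hzord] at h6
    refine ⟨fun i => C i.succ, hCs, ?_⟩
    exact jac_log P hzord (E := fun a => E a.succ) (fun a => hE2 a.succ) hEt
      (fun i => mono_ne hx _) (fun i => by rw [ord_mono P hx, hCs]) h10
      (show P.ord (Matrix.of fun (a : Fin m) (i : Fin m) =>
        E a.succ (mono x (C i.succ)) / mono x (C i.succ)).det ≤ 0 by omega)

end

end Pool.Agent.K7.H5
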