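import Pool.Agent.K7.H5.Crit
import Pool.Agent.R885.NFrm

/-!
The Jacobian criterion for the independence of residues, and independent monomials at the places
where the residue form has the minimal order.
-/

set_option autoImplicit false
set_option linter.overlappingInstances false
set_option linter.unusedSectionVars false

open FF Pool.Agent.W603.LV Pool.Agent.W619.PQ Pool.Agent.Y173.QA Pool.Agent.R885

namespace Pool.Agent.K7.H5

section

variable {k K : Type} [Field k] [Field K] [Algebra k K] {m : ℕ}

theorem tdeg_lt (p : MvPolynomial (Fin m) k) (i : Fin m) (h : MvPolynomial.pderiv i p ≠ 0) :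
    (MvPolynomial.pderiv i p).totalDegree < p.totalDegree := by
  classical
  obtain ⟨e, he, hdeg⟩ : ∃ e ∈ (MvPolynomial.pderiv i p).support,
      (MvPolynomial.pderiv i p).totalDegree = e.sum fun _ e => e := by
    have hne : (MvPolynomial.pderiv i p).support.Nonempty := MvPolynomial.support_nonempty.2 h
    obtain ⟨e, he, h1⟩ := Finset.exists_mem_eq_sup (MvPolynomial.pderiv i p).support hne
      (fun s => s.sum fun _ e => e)
    exact ⟨e, he, h1⟩
  rw [hdeg]
  rw [MvPolynomial.mem_support_iff, MvPolynomial.coeff_pderiv] at he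
  have h1 : e + Finsupp.single i 1 ∈ p.support := by
    rw [MvPolynomial.mem_support_iff]
    exact left_ne_zero_of_mul he
  have h2 := MvPolynomial.le_totalDegree h1
  rw [Finsupp.sum_add_index' (fun _ => rfl) (fun _ _ _ => rfl),
    Finsupp.sum_single_index rfl] at h2
  omega

theorem const_of_pderiv [CharZero k] (p : MvPolynomial (Fin m) k)
    (h : ∀ i, MvPolynomial.pderiv i p = 0) : ∃ c, p = MvPolynomial.C c := by
  classical
  refine ⟨MvPolynomial.coeff 0 p, ?_⟩
  ext e
  rw [MvPolynomial.coeff_C]
  split_ifs with h0
  · rw [← h0]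
  · by_contra hne
    apply h0
    ext i
    rcases Nat.eq_zero_or_pos (e i) with h1 | hpos
    · rw [h1]
      rfl
    exfalso
    have h1 := MvPolynomial.coeff_pderiv (i := i) p (e - Finsupp.single i 1)
    rw [h i, MvPolynomial.coeff_zero] at h1
    have h2 : e - Finsupp.single i 1 + Finsupp.single i 1 = e := by
      ext j
      by_cases hj : j = i
      · subst hj
        simp only [Finsupp.coe_add, Finsupp.coe_tsub, Pi.add_apply, Pi.sub_apply,
          Finsupp.single_eq_same]
        omega
      · simp [Finsupp.single_apply, Ne.symm hj]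
    rw [h2] at h1
    have h3 := (mul_eq_zero.mp h1.symm).resolve_left hne
    have h4 : ((((e - Finsupp.single i 1 : Fin m →₀ ℕ) i : ℕ) + 1 : ℕ) : k) = 0 := by
      push_cast
      exact h3
    rw [Nat.cast_eq_zero] at h4
    omega

theorem der_mvaeval (D : Derivation k K K) (z : Fin m → K) (p : MvPolynomial (Fin m) k) :
    D (MvPolynomial.aeval z p) =
      ∑ i, MvPolynomial.aeval z (MvPolynomial.pderiv i p) * D (z i) := by
  classical
  induction p using MvPolynomial.induction_on with
  | C a =>
    rw [MvPolynomial.algHom_C, Derivation.map_algebraMap]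
    exact (Finset.sum_eq_zero fun i _ => by rw [MvPolynomial.pderiv_C, map_zero, zero_mul]).symm
  | add p q hp hq =>
    rw [map_add, map_add, hp, hq, ← Finset.sum_add_distrib]
    exact Finset.sum_congr rfl fun i _ => by rw [map_add, map_add, add_mul]
  | mul_X p j hp =>
    rw [map_mul, MvPolynomial.aeval_X, Derivation.leibniz, hp, smul_eq_mul, smul_eq_mul]
    have h1 : ∀ i, MvPolynomial.aeval z (MvPolynomial.pderiv i (p * MvPolynomial.X j)) * D (z i) =
        z j * (MvPolynomial.aeval z (MvPolynomial.pderiv i p) * D (z i)) +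
          (if j = i then MvPolynomial.aeval z p * D (z i) else 0) := by
      intro i
      rw [MvPolynomial.pderiv_mul, map_add, map_mul, map_mul, MvPolynomial.aeval_X]
      by_cases hij : j = i
      · subst hij
        rw [MvPolynomial.pderiv_X_self, map_one, if_pos rfl]
        ring
      · rw [MvPolynomial.pderiv_X_of_ne hij, map_zero, if_neg hij]
        ring
    simp only [h1]
    rw [Finset.sum_add_distrib, Finset.sum_ite_eq, if_pos (Finset.mem_univ _), ← Finset.mul_sum]
    ring

/-- **The Jacobian criterion for residues.** -/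
theorem jac [CharZero k] (P : Place k K) {t : K} (ht : P.ord t = 1)
    {E : Fin m → Derivation k K K} (hE : ∀ a, Pres P (E a)) (hEt : ∀ a, E a t = 0)
    {z : Fin m → K} (hz : ∀ i, P.Reg (z i))
    (hdet : (Matrix.of fun a i => P.red (E a (z i))).det ≠ 0) :
    ∀ p : MvPolynomial (Fin m) k, p ≠ 0 → MvPolynomial.aeval z p ≠ 0 ∧
      P.ord (MvPolynomial.aeval z p) = 0 := by
  have hmain : ∀ (d : ℕ) (p : MvPolynomial (Fin m) k), p.totalDegree ≤ d →
      P.red (MvPolynomial.aeval z p) = 0 → p = 0 := by
    intro d
    induction d using Nat.strong_induction_on with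
    | _ d ih =>
    intro p hpd hp
    have hreg := red_aeval P hz
    have h1 : ∀ a, P.red (E a (MvPolynomial.aeval z p)) = 0 := by
      intro a
      rw [P.red_eq_zero_iff (hreg p).1] at hp
      by_cases h0 : MvPolynomial.aeval z p = 0
      · rw [h0, map_zero, P.red_zero]
      · have h2 := hp.resolve_left h0
        have h3 := ord_der_flat P ht (hE a) (hEt a) (MvPolynomial.aeval z p)
        have h4 : Ge P 1 (E a (MvPolynomial.aeval z p)) := h3.mono (by omega)
        rw [P.red_eq_zero_iff (hE a _ (hreg p).1)]
        rcases h4 with h4 | h4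
        · exact Or.inl h4
        · exact Or.inr (by omega)
    have h2 : ∀ a, ∑ i, P.red (E a (z i)) *
        P.red (MvPolynomial.aeval z (MvPolynomial.pderiv i p)) = 0 := by
      intro a
      have h3 := h1 a
      rw [der_mvaeval, (sum_red P _ _ fun i _ => P.reg_mul (hreg _).1 (hE a _ (hz i))).2] at h3
      rw [← h3]
      exact Finset.sum_congr rfl fun i _ => by
        rw [P.red_mul (hreg _).1 (hE a _ (hz i)), mul_comm]
    have h3 : (fun i => P.red (MvPolynomial.aeval z (MvPolynomial.pderiv i p))) = 0 :=
      Matrix.eq_zero_of_mulVec_eq_zero hdet (by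
        funext a
        exact h2 a)
    have h4 : ∀ i, MvPolynomial.pderiv i p = 0 := by
      intro i
      by_contra hcon
      have h5 := tdeg_lt p i hcon
      exact hcon (ih _ (lt_of_lt_of_le h5 hpd) _ le_rfl (congrFun h3 i))
    obtain ⟨c, rfl⟩ := const_of_pderiv p h4
    rw [MvPolynomial.algHom_C] at hp
    have h5 : algebraMap k P.RF c = 0 := by
      rw [P.algebraMap_RF]
      exact hp
    rw [(map_eq_zero _).1 h5, map_zero]
  intro p hp
  have h1 := red_aeval P hz p
  have h2 : P.red (MvPolynomial.aeval z p) ≠ 0 := fun h => hp (hmain _ p le_rfl h)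
  rw [Ne, P.red_eq_zero_iff h1.1] at h2
  push Not at h2
  refine ⟨h2.1, ?_⟩
  have := (P.reg_iff h2.1).1 h1.1
  omega

end

end Pool.Agent.K7.H5
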