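import Pool.Agent.R885.Rel

/-!
Linear programming with arbitrary heights: optimal representations of a vector by the normals of the
facets of a bounded polytope.
-/

set_option autoImplicit false
set_option linter.overlappingInstances false
set_option linter.unusedSectionVars false

open Pool.Agent.TH152.AC Pool.Agent.TH165.ACC Pool.Agent.R885

namespace Pool.Agent.K7.H5

variable {r : ℕ}

/-- **Optimal representation.** -/
theorem exists_optH (S : Finset (Fin r → ℤ)) (h : (Fin r → ℤ) → ℚ) {q0 : Fin r → ℚ}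
    (hq0 : ∀ s ∈ S, h s ≤ dq q0 s)
    (hpos : ∀ q : Fin r → ℚ, (∀ s ∈ S, 0 ≤ dq q s) → q = 0) (v : Fin r → ℤ) :
    ∃ (q : Fin r → ℚ) (α : S → ℚ), (∀ s ∈ S, h s ≤ dq q s) ∧ (∀ s, 0 ≤ α s) ∧
      (∀ k, ∑ s, α s * ((s : Fin r → ℤ) k : ℚ) = v k) ∧ ∀ s, α s ≠ 0 → dq q s = h s := by
  classical
  let U := (Fin r → ℚ) × (S → ℚ) × ℚ
  let π1 : U →ₗ[ℚ] (Fin r → ℚ) := LinearMap.fst ℚ _ _
  let π2 : U →ₗ[ℚ] (S → ℚ) := (LinearMap.fst ℚ _ _).comp (LinearMap.snd ℚ _ _)
  let π3 : U →ₗ[ℚ] ℚ := (LinearMap.snd ℚ _ _).comp (LinearMap.snd ℚ _ _)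
  let pj : S → U →ₗ[ℚ] ℚ := fun s => (LinearMap.proj s : (S → ℚ) →ₗ[ℚ] ℚ).comp π2
  let gk : Fin r → U →ₗ[ℚ] ℚ := fun k =>
    (∑ s : S, ((s : Fin r → ℤ) k : ℚ) • pj s) - (v k : ℚ) • π3
  let l : S ⊕ (S ⊕ ((Fin r × Bool) ⊕ Unit)) → U →ₗ[ℚ] ℚ :=
    Sum.elim (fun s => (h s) • π3 - (dl (s : Fin r → ℤ)).comp π1)
      (Sum.elim (fun s => -pj s)
        (Sum.elim (fun kb => (if kb.2 then (1 : ℚ) else -1) • gk kb.1)
          fun _ => (dl v).comp π1 - ∑ s : S, (h s) • pj s))
  have hgk : ∀ k (q : Fin r → ℚ) (α : S → ℚ) (t : ℚ), gk k (q, α, t) =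
      ∑ s, α s * ((s : Fin r → ℤ) k : ℚ) - t * v k := by
    intro k q α t
    simp only [gk, LinearMap.sub_apply, LinearMap.sum_apply, LinearMap.smul_apply, smul_eq_mul, pj,
      π2, π3, LinearMap.comp_apply, LinearMap.fst_apply, LinearMap.snd_apply, LinearMap.proj_apply]
    rw [mul_comm t]
    congr 1
    exact Finset.sum_congr rfl fun s _ => mul_comm _ _
  have hl1 : ∀ s (q : Fin r → ℚ) (α : S → ℚ) (t : ℚ), l (Sum.inl s) (q, α, t) =
      h s * t - dq q s := by
    intro s q α t
    simp only [l, Sum.elim_inl, LinearMap.sub_apply, LinearMap.smul_apply, smul_eq_mul, π1, π3,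
      LinearMap.comp_apply, LinearMap.fst_apply, LinearMap.snd_apply, dl_apply]
    rfl
  have hl2 : ∀ s (q : Fin r → ℚ) (α : S → ℚ) (t : ℚ), l (Sum.inr (Sum.inl s)) (q, α, t) =
      -(α s) := by
    intro s q α t
    simp only [l, Sum.elim_inl, Sum.elim_inr, LinearMap.neg_apply, pj, π2,
      LinearMap.comp_apply, LinearMap.fst_apply, LinearMap.snd_apply, LinearMap.proj_apply]
    rfl
  have hl3 : ∀ k b (q : Fin r → ℚ) (α : S → ℚ) (t : ℚ),
      l (Sum.inr (Sum.inr (Sum.inl (k, b)))) (q, α, t) =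
      (if b then (1 : ℚ) else -1) * (∑ s, α s * ((s : Fin r → ℤ) k : ℚ) - t * v k) := by
    intro k b q α t
    simp only [l, Sum.elim_inl, Sum.elim_inr, LinearMap.smul_apply, smul_eq_mul, hgk]
  have hl4 : ∀ (q : Fin r → ℚ) (α : S → ℚ) (t : ℚ),
      l (Sum.inr (Sum.inr (Sum.inr ()))) (q, α, t) = dq q v - ∑ s : S, h s * α s := by
    intro q α t
    simp only [l, Sum.elim_inr, LinearMap.sub_apply, LinearMap.sum_apply, LinearMap.smul_apply,
      smul_eq_mul, pj, π1, π2, LinearMap.comp_apply, LinearMap.fst_apply, LinearMap.snd_apply,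
      LinearMap.proj_apply, dl_apply]
    rfl
  by_cases hex : ∃ x : U, (∀ j, l j x ≤ 0) ∧ 0 < π3 x
  · obtain ⟨⟨q, α, t⟩, hx, ht⟩ := hex
    have ht : 0 < t := ht
    have h1 : ∀ s ∈ S, h s * t ≤ dq q s := by
      intro s hs
      have := hx (Sum.inl ⟨s, hs⟩)
      rw [hl1] at this
      linarith
    have h2 : ∀ s, 0 ≤ α s := by
      intro s
      have := hx (Sum.inr (Sum.inl s))
      rw [hl2] at this
      linarith
    have h3 : ∀ k, ∑ s, α s * ((s : Fin r → ℤ) k : ℚ) = t * v k := by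
      intro k
      have e1 := hx (Sum.inr (Sum.inr (Sum.inl (k, true))))
      have e2 := hx (Sum.inr (Sum.inr (Sum.inl (k, false))))
      rw [hl3] at e1 e2
      simp only [if_true, Bool.false_eq_true, if_false] at e1 e2
      linarith
    have h4 : dq q v - ∑ s : S, h s * α s ≤ 0 := by
      have := hx (Sum.inr (Sum.inr (Sum.inr ())))
      rwa [hl4] at this
    refine ⟨t⁻¹ • q, fun s => t⁻¹ * α s, fun s hs => ?_, fun s => mul_nonneg (by positivity) (h2 s),
      fun k => ?_, ?_⟩
    · rw [dq_smul]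
      have h5 := mul_le_mul_of_nonneg_left (h1 s hs) (show 0 ≤ t⁻¹ by positivity)
      have h6 : t⁻¹ * (h s * t) = h s := by field_simp
      rwa [h6] at h5
    · have h5 : ∑ s, t⁻¹ * α s * ((s : Fin r → ℤ) k : ℚ) =
          t⁻¹ * ∑ s, α s * ((s : Fin r → ℤ) k : ℚ) := by
        rw [Finset.mul_sum]
        exact Finset.sum_congr rfl fun s _ => by ring
      rw [h5, h3]
      field_simp
    · have h5 : ∑ s : S, α s * dq q s = t * dq q v := by
        unfold dq
        simp only [Finset.mul_sum]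
        rw [Finset.sum_comm]
        refine Finset.sum_congr rfl fun k _ => ?_
        have h6 := h3 k
        calc ∑ s : S, α s * (q k * ((s : Fin r → ℤ) k : ℚ)) =
            q k * ∑ s : S, α s * ((s : Fin r → ℤ) k : ℚ) := by
              rw [Finset.mul_sum]
              exact Finset.sum_congr rfl fun s _ => by ring
          _ = t * (q k * v k) := by rw [h6]; ring
      have h6 : ∑ s : S, α s * (dq q s - h s * t) ≤ 0 := by
        have h7 : ∑ s : S, α s * (dq q s - h s * t) = t * (dq q v - ∑ s : S, h s * α s) := by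
          simp only [mul_sub]
          rw [Finset.sum_sub_distrib, h5, Finset.mul_sum]
          congr 1
          exact Finset.sum_congr rfl fun s _ => by ring
        rw [h7]
        exact mul_nonpos_of_nonneg_of_nonpos ht.le h4
      have h7 : ∀ s ∈ (Finset.univ : Finset S), 0 ≤ α s * (dq q s - h s * t) := fun s _ =>
        mul_nonneg (h2 s) (by have := h1 s s.2; linarith)
      have h8 := (Finset.sum_eq_zero_iff_of_nonneg h7).1 (le_antisymm h6 (Finset.sum_nonneg h7))
      intro s hs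
      have h9 := h8 s (Finset.mem_univ _)
      have h10 : α s ≠ 0 := by
        intro h
        apply hs
        change t⁻¹ * α s = 0
        rw [h, mul_zero]
      have h11 := (mul_eq_zero.1 h9).resolve_left h10
      rw [dq_smul, show dq q (s : Fin r → ℤ) = h s * t by linarith]
      field_simp
  · exfalso
    push Not at hex
    obtain ⟨w, hw, hf⟩ := farkas_fin l π3 hex
    let a : S → ℚ := fun s => w (Sum.inl s)
    let b : S → ℚ := fun s => w (Sum.inr (Sum.inl s))
    let y : Fin r → ℚ := fun k => w (Sum.inr (Sum.inr (Sum.inl (k, true)))) -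
      w (Sum.inr (Sum.inr (Sum.inl (k, false))))
    let c : ℚ := w (Sum.inr (Sum.inr (Sum.inr ())))
    have hc : 0 ≤ c := hw _
    have hmain : ∀ (q : Fin r → ℚ) (α : S → ℚ) (t : ℚ), t = ∑ s, a s * (h s * t - dq q s) +
        (∑ s, b s * (-(α s)) + (∑ k, y k * (∑ s, α s * ((s : Fin r → ℤ) k : ℚ) - t * v k) +
          c * (dq q v - ∑ s : S, h s * α s))) := by
      intro q α t
      have h1 : t = _ := hf (q, α, t)
      rw [Fintype.sum_sum_type, Fintype.sum_sum_type, Fintype.sum_sum_type,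
        Fintype.sum_prod_type] at h1
      simp only [hl1, hl2, hl3, hl4, Fintype.sum_bool, Finset.univ_unique, Finset.sum_singleton,
        if_true, Bool.false_eq_true, if_false] at h1
      refine h1.trans ?_
      have h2 : ∀ k, w (Sum.inr (Sum.inr (Sum.inl (k, true)))) *
          (1 * (∑ s : S, α s * ((s : Fin r → ℤ) k : ℚ) - t * v k)) +
          w (Sum.inr (Sum.inr (Sum.inl (k, false)))) *
          (-1 * (∑ s : S, α s * ((s : Fin r → ℤ) k : ℚ) - t * v k)) =
          y k * (∑ s : S, α s * ((s : Fin r → ℤ) k : ℚ) - t * v k) := by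
        intro k
        change _ = (w (Sum.inr (Sum.inr (Sum.inl (k, true)))) -
          w (Sum.inr (Sum.inr (Sum.inl (k, false))))) * _
        ring
      simp only [h2]
      rfl
    have e1 : ∀ q : Fin r → ℚ, ∑ s, a s * dq q s = c * dq q v := by
      intro q
      have h1 := hmain q 0 0
      simp only [Pi.zero_apply, neg_zero, mul_zero, Finset.sum_const_zero, zero_mul, sub_zero,
        zero_add, add_zero, mul_neg, zero_sub] at h1
      rw [Finset.sum_neg_distrib] at h1
      linarith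
    have e2 : ∀ s : S, dq y s = b s + c * h s := by
      intro s
      have h1 := hmain 0 (Pi.single s 1) 0
      simp only [dq_zero, add_zero, neg_zero, mul_zero, Finset.sum_const_zero, zero_mul, sub_zero,
        zero_add, mul_neg, zero_sub, sub_self] at h1
      rw [Finset.sum_neg_distrib, Finset.sum_eq_single s (fun s' _ hs' => by
        rw [Pi.single_eq_of_ne hs', mul_zero]) (fun h => absurd (Finset.mem_univ _) h),
        Pi.single_eq_same, mul_one, Finset.sum_eq_single s (fun s' _ hs' => by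
        rw [Pi.single_eq_of_ne hs', mul_zero]) (fun h => absurd (Finset.mem_univ _) h),
        Pi.single_eq_same, mul_one] at h1
      have h2 : ∀ k, ∑ s', (Pi.single s 1 : S → ℚ) s' * ((s' : Fin r → ℤ) k : ℚ) =
          ((s : Fin r → ℤ) k : ℚ) := by
        intro k
        rw [Finset.sum_eq_single s (fun s' _ hs' => by rw [Pi.single_eq_of_ne hs', zero_mul])
          (fun h => absurd (Finset.mem_univ _) h), Pi.single_eq_same, one_mul]
      simp only [h2] at h1
      have h3 : dq y s = ∑ k, y k * ((s : Fin r → ℤ) k : ℚ) := rfl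
      rw [h3]
      linarith
    have e3 : (1 : ℚ) = ∑ s : S, a s * h s - dq y v := by
      have h1 := hmain 0 0 1
      simp only [dq_zero, Pi.zero_apply, neg_zero, mul_zero, Finset.sum_const_zero, zero_mul,
        zero_sub, zero_add, add_zero, mul_neg, one_mul, mul_one, sub_zero, sub_self] at h1
      rw [Finset.sum_neg_distrib] at h1
      have h3 : dq y v = ∑ k, y k * (v k : ℚ) := rfl
      rw [h3]
      linarith
    have ha : ∀ s, 0 ≤ a s := fun s => hw _
    rcases hc.lt_or_eq with hc | hc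
    · have h1 := e1 y
      have h2 : c * ∑ s : S, a s * h s ≤ ∑ s, a s * dq y s := by
        rw [Finset.mul_sum]
        refine Finset.sum_le_sum fun s _ => ?_
        rw [e2]
        have h3 : 0 ≤ b s := hw _
        have h4 := mul_nonneg (ha s) h3
        linarith [mul_comm c (a s * h s), mul_left_comm (a s) c (h s)]
      have h3 : 0 ≤ c * (dq y v - ∑ s : S, a s * h s) := by
        rw [mul_sub, ← h1]
        linarith
      have h4 := nonneg_of_mul_nonneg_right h3 hc
      linarith
    · have h1 : y = 0 := hpos y fun s hs => by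
        rw [e2 ⟨s, hs⟩, ← hc, zero_mul, add_zero]
        exact hw _
      have h2 : ∑ s : S, a s * h s ≤ 0 := by
        have h3 := e1 q0
        rw [← hc, zero_mul] at h3
        rw [← h3]
        exact Finset.sum_le_sum fun s _ => mul_le_mul_of_nonneg_left (hq0 s s.2) (ha s)
      rw [h1, dq_zero] at e3
      linarith

/-- **Independent optimal representation.** -/
theorem exists_repH (S : Finset (Fin r → ℤ)) (h : (Fin r → ℤ) → ℚ) {q0 : Fin r → ℚ}
    (hq0 : ∀ s ∈ S, h s ≤ dq q0 s)
    (hpos : ∀ q : Fin r → ℚ, (∀ s ∈ S, 0 ≤ dq q s) → q = 0) (v : Fin r → ℤ) :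
    ∃ (q : Fin r → ℚ) (j : ℕ) (σ : Fin j → Fin r → ℤ) (α : Fin j → ℚ),
      (∀ s ∈ S, h s ≤ dq q s) ∧ (∀ i, σ i ∈ S ∧ 0 < α i ∧ dq q (σ i) = h (σ i)) ∧
      (∀ k, ∑ i, α i * (σ i k : ℚ) = v k) ∧
      LinearIndependent ℚ fun (i : Fin j) (k : Fin r) => (σ i k : ℚ) := by
  classical
  obtain ⟨q, α, h1, h2, h3, h4⟩ := exists_optH S h hq0 hpos v
  let T := {s : S // α s ≠ 0}
  let e : Fin (Fintype.card T) ≃ T := (Fintype.equivFin T).symm
  obtain ⟨d, a, w, hw, hsum, hli⟩ := carath (fun i => ((e i).1 : Fin r → ℤ)) v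
    (fun i => α (e i).1) (fun i => h2 _) (by
      intro k
      rw [e.sum_comp fun t : T => α t.1 * (((t.1 : S) : Fin r → ℤ) k : ℚ), ← h3 k]
      have h5 : ∑ s : S, α s * ((s : Fin r → ℤ) k : ℚ) =
          ∑ s ∈ Finset.univ.filter fun s : S => α s ≠ 0, α s * ((s : Fin r → ℤ) k : ℚ) := by
        rw [Finset.sum_filter_of_ne]
        intro s _ hs h0
        exact hs (by rw [h0, zero_mul])
      rw [h5]
      exact (Finset.sum_subtype (p := fun s : S => α s ≠ 0) _ (fun s => by
        rw [Finset.mem_filter]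
        exact ⟨fun h => h.2, fun h => ⟨Finset.mem_univ _, h⟩⟩)
        fun s : S => α s * ((s : Fin r → ℤ) k : ℚ)).symm)
  refine ⟨q, d, fun i => ((e (a i)).1 : Fin r → ℤ), w, h1, fun i => ⟨(e (a i)).1.2, hw i,
    h4 _ (e (a i)).2⟩, hsum, hli⟩

end Pool.Agent.K7.H5
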