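import Pool.Agent.Y172.Defs

/-!
Definitions: terminal singularities, semiample canonical divisors.
-/

set_option autoImplicit false

open FF Pool.Agent.W602.GT Pool.Agent.Y172

namespace Pool.Agent.K7.H5

section

variable {K : Type} [Field K] [Algebra ℂ K] {N : ℕ}

/-- The normal projective variety `X` with generic point `y` and dimension `n` has terminal
singularities: for every prime divisor `Q` over `X` there is an `r`-canonical form `η`, `r ≥ 1`,
which generates `r K_X` at the centre of `Q` on `X` (it has order `0` along all prime divisors `P` of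
`X` through this centre), and `Q` is a prime divisor of `X` or `η` has positive order along `Q` (its
discrepancy is positive). -/
def Terminal (y : Fin (N + 1) → K) (n : ℕ) : Prop :=
  ∀ Q : Place ℂ K, Divisorial n Q → ∃ r : ℕ, 0 < r ∧ ∃ η : (Fin n → Derivation ℂ K K) → K,
    IsPluri r η ∧ (∀ P, IsPrimeDivisor y P → Through y P Q → OrdEq P η 0) ∧
      (IsPrimeDivisor y Q ∨ ∃ c : ℚ, 0 < c ∧ OrdGe Q η c)

/-- The canonical divisor of `X` is semiample: for some `m ≥ 1` and all prime divisors `Q` over `X`
there is an `m`-canonical form which is regular along all prime divisors of `X` and generates `m K_X`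
at the centre of `Q`. -/
def CanonicalSemiample (y : Fin (N + 1) → K) (n : ℕ) : Prop :=
  ∃ m : ℕ, 1 ≤ m ∧ ∀ Q : Place ℂ K, Divisorial n Q →
    ∃ ω : (Fin n → Derivation ℂ K K) → K, IsPluri m ω ∧
      (∀ P, IsPrimeDivisor y P → OrdGe P ω 0) ∧
        ∀ P, IsPrimeDivisor y P → Through y P Q → OrdEq P ω 0

end

end Pool.Agent.K7.H5
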