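import Pool.Agent.K7.H5.Fin

/-!
Semiample canonical divisors are nef; the main theorem.
-/

set_option autoImplicit false
set_option linter.overlappingInstances false
set_option linter.unusedSectionVars false

open FF Pool.Agent.W619.PQ Pool.Agent.R885 Pool.Agent.W602.GT
open Pool.Agent.Y172 (NormalModel chart Centred localRing IsPrimeDivisor Through OrdGe OrdEq
  gen_mem chart_localRing mem_localRing exists_centred)
open Pool.Agent.R887 (IsTwistedSection GeneratesAt CanonicalNef)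

namespace Pool.Agent.K7.H5

section

variable {K : Type} [Field K] [Algebra ℂ K] {N : ℕ} {y : Fin (N + 1) → K} {n : ℕ}

/-- semiample divisors are nef -/
theorem nef_of_semiample (hy : NormalModel y) (h : CanonicalSemiample y n) :
    CanonicalNef y n := by
  intro i hi q hq
  obtain ⟨m, hm, h⟩ := h
  refine ⟨m, hm, fun Q hQ => ?_⟩
  obtain ⟨ω, h1, h2, h3⟩ := h Q hQ
  obtain ⟨l, hl⟩ := exists_centred hy Q
  have hli : y l / y i ≠ 0 := div_ne_zero hl.1 hi
  -- the order of the section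
  have hord : ∀ (P : Place ℂ K) (D : Fin n → Derivation ℂ K K), ω D ≠ 0 → ∀ l', y l' ≠ 0 →
      (y l / y i) ^ m * ω D ^ q ≠ 0 ∧ P.ord ((y l / y i) ^ m * ω D ^ q) =
        m * P.ord (y l / y l') - m * P.ord (y i / y l') + q * P.ord (ω D) := by
    intro P D hD l' hl'
    refine ⟨mul_ne_zero (pow_ne_zero _ hli) (pow_ne_zero _ hD), ?_⟩
    rw [P.ord_mul (pow_ne_zero _ hli) (pow_ne_zero _ hD), P.ord_pow, P.ord_pow,
      P.ord_div hl.1 hi, P.ord_div hl.1 hl', P.ord_div hi hl']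
    ring
  have hzero : ∀ D : Fin n → Derivation ℂ K K, ω D = 0 → (y l / y i) ^ m * ω D ^ q = 0 := by
    intro D hD
    rw [hD, zero_pow (by omega), mul_zero]
  have hge : ∀ P, IsPrimeDivisor y P → ∀ D : Fin n → Derivation ℂ K K, (∀ i, DerReg P (D i)) →
      ω D ≠ 0 → 0 ≤ P.ord (ω D) := by
    intro P hP D hD hne
    have h4 := (h2 P hP D hD).resolve_left hne
    exact_mod_cast h4
  refine ⟨fun D => (y l / y i) ^ m * ω D ^ q, ⟨?_, ?_⟩, ?_⟩
  · intro A D
    beta_reduce
    rw [h1 A D, mul_pow, ← pow_mul]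
    ring
  · intro P l' hP hl' D hD
    by_cases hne : ω D = 0
    · exact Or.inl (hzero D hne)
    right
    beta_reduce
    rw [(hord P D hne l' hl'.1).2]
    have h4 := hge P hP D hD hne
    have h5 := (P.reg_iff (div_ne_zero hl.1 hl'.1)).1 (hl'.2 l)
    have h6 : -((m : ℤ) * P.ord (y i / y l')) ≤
        m * P.ord (y l / y l') - m * P.ord (y i / y l') + q * P.ord (ω D) := by
      have h7 : 0 ≤ (m : ℤ) * P.ord (y l / y l') := mul_nonneg (Int.natCast_nonneg _) h5
      have h8 : 0 ≤ (q : ℤ) * P.ord (ω D) := mul_nonneg (Int.natCast_nonneg _) h4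
      linarith
    exact_mod_cast h6
  · intro P l' hP hPQ hl'
    have hPl := hPQ.centred hl
    have h5 : P.ord (y l / y l') = 0 := hl'.unit hPl
    constructor
    · intro D hD
      by_cases hne : ω D = 0
      · exact Or.inl (hzero D hne)
      right
      beta_reduce
      rw [(hord P D hne l' hl'.1).2, h5]
      have h4 := hge P hP D hD hne
      have h6 : -((m : ℤ) * P.ord (y i / y l')) ≤
          m * 0 - m * P.ord (y i / y l') + q * P.ord (ω D) := by
        have h8 : 0 ≤ (q : ℤ) * P.ord (ω D) := mul_nonneg (Int.natCast_nonneg _) h4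
        linarith
      exact_mod_cast h6
    · obtain ⟨-, D, hD, hne, h6⟩ := h3 P hP hPQ
      obtain ⟨h7, h8⟩ := hord P D hne l' hl'.1
      refine ⟨D, hD, h7, ?_⟩
      beta_reduce
      have h6' : P.ord (ω D) = 0 := by exact_mod_cast h6
      rw [h8, h5, h6']
      push_cast
      ring

end

/-- the canonical divisor is pseudo-effective -/
def PseudoEffective (K : Type) [Field K] [Algebra ℂ K] (n : ℕ) : Prop :=
  ∃ S : Finset K, ∀ M : ℕ, ∃ m, M ≤ m ∧ ∃ ω : (Fin n → Derivation ℂ K K) → K, ω ≠ 0 ∧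
    IsPluri m ω ∧ ∀ Q : Place ℂ K, Divisorial n Q → ∀ D : Fin n → Derivation ℂ K K,
      (∀ i, DerReg Q (D i)) → ω D = 0 ∨ ∃ s ∈ S, s ≠ 0 ∧ Q.ord s ≤ Q.ord (ω D)

theorem not_neg {K : Type} [Field K] [Algebra ℂ K] {n : ℕ} (h : PseudoEffective K n) :
    ¬ N.Neg ℂ K n := by
  intro h1
  obtain ⟨S, h⟩ := h
  obtain ⟨M0, hM0⟩ := h1 S
  obtain ⟨m, hm, ω, hω, h2, h3⟩ := h M0
  refine hω (hM0 m hm ω ⟨h2, fun Q hQ D hD => ?_⟩)
  rcases h3 Q hQ D hD with h4 | ⟨s, hs, hs0, h4⟩
  · exact Or.inl h4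
  · right
    refine ⟨s, hs, hs0, ?_⟩
    rw [Nat.cast_one, one_mul, mul_zero, sub_zero]
    exact_mod_cast h4

/-- **Good minimal models of nondegenerate complete intersections.** -/
theorem good_model {n q : ℕ} (hn : 1 ≤ n) {K : Type} [Field K] [Algebra ℂ K]
    (htr : Algebra.trdeg ℂ K = (n : ℕ)) {x : Fin (n + q) → K} (hx : ∀ i, x i ≠ 0)
    (hgen : IntermediateField.adjoin ℂ (Set.range x) = ⊤) {f : Fin q → (Fin (n + q) → ℤ) →₀ ℂ}
    (hf : ∀ l, ev x (f l) = 0) (h : N.Along f x) (hpe : PseudoEffective K n) :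
    ∃ (N : ℕ) (y : Fin (N + 1) → K), NormalModel y ∧ Terminal y n ∧ CanonicalNef y n ∧
      CanonicalSemiample y n := by
  rcases fine_or_neg hn htr q _ q x f rfl hx hgen hf (N.hn_of_along hx h) le_rfl with h1 |
    ⟨r', q', x', f', h1, h2, h3, h4, h5, h6⟩
  · exact absurd h1 (not_neg hpe)
  · obtain ⟨N, y, hy, h7, h8⟩ := exists_model hn h1 htr h2 h3 h4 h5 h6
    exact ⟨N, y, hy, h7, nef_of_semiample hy h8, h8⟩

end Pool.Agent.K7.H5
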