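import Pool.Agent.Y172.Loc3

/-!
The normalisation of a projective variety, in homogeneous coordinates.
-/

set_option autoImplicit false
set_option linter.overlappingInstances false
set_option linter.unusedSectionVars false

open FF Pool.Agent.Y172

namespace Pool.Agent.K7.H5

variable {K : Type} [Field K] [Algebra ℂ K]

/-- scaling of integral elements -/
theorem scale_int {A A' : Subalgebra ℂ K} {w : K} (hw : w ∈ A)
    (h : ∀ a ∈ A', ∃ k : ℕ, a * w ^ k ∈ A) {x : K} (hx : IsIntegral A' x) :
    ∃ k : ℕ, ∀ e, k ≤ e → IsIntegral A (x * w ^ e) := by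
  obtain ⟨p, hp, hpx⟩ := hx
  obtain ⟨P, hP⟩ : ∃ P : Polynomial K, P = p.map (algebraMap A' K) := ⟨_, rfl⟩
  have hPm : P.Monic := by
    rw [hP]
    exact hp.map _
  have hPx : P.eval x = 0 := by
    rw [hP, Polynomial.eval_map]
    exact hpx
  have hc : ∀ i, ∃ k : ℕ, P.coeff i * w ^ k ∈ A := fun i => h _ (by
    rw [hP, Polynomial.coeff_map]
    exact (p.coeff i).2)
  choose k hk using hc
  refine ⟨∑ i ∈ Finset.range (P.natDegree + 1), k i, fun e he => ?_⟩
  have hle : ∀ i, i ≤ P.natDegree → k i ≤ e := fun i hi =>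
    (Finset.single_le_sum (f := k) (fun _ _ => Nat.zero_le _)
      (Finset.mem_range.2 (by omega))).trans he
  have hQ : P.scaleRoots (w ^ e) ∈ Polynomial.lifts (algebraMap A K) := by
    rw [Polynomial.lifts_iff_coeff_lifts]
    intro i
    have : (P.scaleRoots (w ^ e)).coeff i ∈ A := by
      rw [Polynomial.coeff_scaleRoots]
      rcases lt_trichotomy i P.natDegree with hi | hi | hi
      · have h1 : P.coeff i * (w ^ e) ^ (P.natDegree - i) =
            P.coeff i * w ^ (k i) * w ^ (e * (P.natDegree - i) - k i) := by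
          rw [← pow_mul, mul_assoc, ← pow_add]
          congr 2
          have h2 : k i ≤ e * (P.natDegree - i) := by
            have := hle i hi.le
            have h3 : 1 ≤ P.natDegree - i := by omega
            nlinarith
          omega
        rw [h1]
        exact A.mul_mem (hk i) (A.pow_mem hw _)
      · rw [hi, Nat.sub_self, pow_zero, mul_one, hPm.coeff_natDegree]
        exact A.one_mem
      · rw [Polynomial.coeff_eq_zero_of_natDegree_lt hi, zero_mul]
        exact A.zero_mem
    exact ⟨⟨_, this⟩, rfl⟩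
  obtain ⟨q, hq, -, hqm⟩ := Polynomial.lifts_and_natDegree_eq_and_monic hQ
    ((Polynomial.monic_scaleRoots_iff _).2 hPm)
  refine ⟨q, hqm, ?_⟩
  rw [← Polynomial.eval_map, hq, mul_comm, Polynomial.scaleRoots_eval_mul, hPx, mul_zero]

/-- The integral closure of an affine domain is finitely generated. -/
theorem exists_gens (A : Subalgebra ℂ K) (hA : Algebra.FiniteType ℂ A)
    (hfr : IsFractionRing A K) :
    ∃ G : Finset K, (∀ g ∈ G, IsIntegral A g) ∧
      ∀ x : K, IsIntegral A x → x ∈ Algebra.adjoin ℂ ((A : Set K) ∪ (G : Set K)) := by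
  classical
  obtain ⟨s, g, hg, hgint⟩ := exists_integral_inj_algHom_of_fg ℂ A
  let _ : Algebra (MvPolynomial (Fin s) ℂ) A := g.toRingHom.toAlgebra
  have : IsScalarTower ℂ (MvPolynomial (Fin s) ℂ) A := IsScalarTower.of_algebraMap_eq fun c =>
    (g.commutes c).symm
  have hint : Algebra.IsIntegral (MvPolynomial (Fin s) ℂ) A := ⟨hgint⟩
  let _ : Algebra (MvPolynomial (Fin s) ℂ) K := ((algebraMap A K).comp g.toRingHom).toAlgebra
  have : IsScalarTower (MvPolynomial (Fin s) ℂ) A K := IsScalarTower.of_algebraMap_eq fun _ => rfl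
  have hinj : Function.Injective (algebraMap (MvPolynomial (Fin s) ℂ) K) := fun a b h =>
    hg (Subtype.ext h)
  have : FaithfulSMul (MvPolynomial (Fin s) ℂ) K :=
    (faithfulSMul_iff_algebraMap_injective _ _).2 hinj
  let F := FractionRing (MvPolynomial (Fin s) ℂ)
  let _ : Algebra F K := FractionRing.liftAlgebra (MvPolynomial (Fin s) ℂ) K
  have : IsScalarTower (MvPolynomial (Fin s) ℂ) F K :=
    FractionRing.isScalarTower_liftAlgebra (MvPolynomial (Fin s) ℂ) K
  have hAF : ∀ a : A, IsIntegral F (a : K) := fun a => by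
    have h1 : IsIntegral (MvPolynomial (Fin s) ℂ) (a : K) :=
      (hint.isIntegral a).map (IsScalarTower.toAlgHom (MvPolynomial (Fin s) ℂ) A K)
    exact h1.tower_top
  obtain ⟨T, hT⟩ := hA.out
  have hfd : FiniteDimensional F K := by
    have h1 : Set.Finite ((fun a : A => (a : K)) '' (T : Set A)) := T.finite_toSet.image _
    have : Finite ((fun a : A => (a : K)) '' (T : Set A)) := h1
    have h2 := IntermediateField.finiteDimensional_adjoin (K := F)
      (S := (fun a : A => (a : K)) '' (T : Set A)) (by
        rintro _ ⟨a, -, rfl⟩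
        exact hAF a)
    have h3 : IntermediateField.adjoin F ((fun a : A => (a : K)) '' (T : Set A)) = ⊤ := by
      rw [eq_top_iff]
      have h4 : ∀ a : A, (a : K) ∈
          IntermediateField.adjoin F ((fun a : A => (a : K)) '' (T : Set A)) := by
        intro a
        have h5 : a ∈ Algebra.adjoin ℂ (T : Set A) := by
          rw [hT]
          trivial
        induction h5 using Algebra.adjoin_induction with
        | mem x hx => exact IntermediateField.subset_adjoin _ _ ⟨x, hx, rfl⟩
        | algebraMap r =>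
          have h6 : ((algebraMap ℂ A r : A) : K) =
              algebraMap F K (algebraMap (MvPolynomial (Fin s) ℂ) F (MvPolynomial.C r)) := by
            rw [← IsScalarTower.algebraMap_apply (MvPolynomial (Fin s) ℂ) F K]
            change _ = ((g (MvPolynomial.C r) : A) : K)
            exact congrArg Subtype.val (g.commutes r).symm
          rw [h6]
          exact IntermediateField.algebraMap_mem _ _
        | add x z _ _ hx hz => exact add_mem hx hz
        | mul x z _ _ hx hz => exact mul_mem hx hz
      intro z _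
      obtain ⟨c, d, hd, rfl⟩ := IsFractionRing.div_surjective A z
      exact div_mem (h4 c) (h4 d)
    rw [h3] at h2
    exact Module.Finite.equiv (IntermediateField.topEquiv (F := F) (E := K)).toLinearEquiv
  have hchar : CharZero F := charZero_of_injective_algebraMap
    (FaithfulSMul.algebraMap_injective ℂ F)
  have hfin := IsIntegralClosure.finite (MvPolynomial (Fin s) ℂ) F K
    (integralClosure (MvPolynomial (Fin s) ℂ) K)
  obtain ⟨T', hT'⟩ := hfin
  refine ⟨T'.image (Subtype.val), fun t ht => ?_, fun x hx => ?_⟩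
  · obtain ⟨t, -, rfl⟩ := Finset.mem_image.1 ht
    exact (t.2 : IsIntegral (MvPolynomial (Fin s) ℂ) (t : K)).tower_top
  · have h1 : IsIntegral (MvPolynomial (Fin s) ℂ) x := isIntegral_trans (A := A) x hx
    have h2 : (⟨x, h1⟩ : integralClosure (MvPolynomial (Fin s) ℂ) K) ∈
        Submodule.span (MvPolynomial (Fin s) ℂ) (T' : Set (integralClosure (MvPolynomial (Fin s) ℂ) K)) := by
      rw [hT']
      trivial
    have h3 : ∀ z ∈ Submodule.span (MvPolynomial (Fin s) ℂ)
        (T' : Set (integralClosure (MvPolynomial (Fin s) ℂ) K)), (z : K) ∈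
        Algebra.adjoin ℂ ((A : Set K) ∪ ((T'.image (Subtype.val) : Finset K) : Set K)) := by
      intro z hz
      induction hz using Submodule.span_induction with
      | mem x hx =>
        apply Algebra.subset_adjoin
        right
        exact Finset.mem_coe.2 (Finset.mem_image.2 ⟨x, hx, rfl⟩)
      | zero => exact Subalgebra.zero_mem _
      | add x z _ _ hx hz => exact Subalgebra.add_mem _ hx hz
      | smul a x _ hx =>
        have h4 : ((a • x : integralClosure (MvPolynomial (Fin s) ℂ) K) : K) =
            ((g a : A) : K) * x := Algebra.smul_def a (x : K)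
        rw [h4]
        exact Subalgebra.mul_mem _ (Algebra.subset_adjoin (Or.inl (g a).2)) hx
    exact h3 _ h2

/-- valuation rings are integrally closed -/
theorem mem_val_of_int {V : ValuationSubring K} {A : Subalgebra ℂ K} (hA : ∀ a ∈ A, a ∈ V) {f : K}
    (hf : IsIntegral A f) : f ∈ V := by
  let _ : Algebra A V := (Subring.inclusion (S := A.toSubring) (T := V.toSubring) hA).toAlgebra
  have : IsScalarTower A V K := IsScalarTower.of_algebraMap_eq fun _ => rfl
  have h1 : IsIntegral V f := hf.tower_top
  obtain ⟨z, hz⟩ := IsIntegrallyClosed.isIntegral_iff.1 h1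
  rw [← hz]
  exact z.2

/-- **The normalisation of the projective variety with generic point `u`.** -/
theorem exists_normal {M : ℕ} {u : Fin (M + 1) → K} (hu : ∀ b, u b ≠ 0)
    (hfield : IntermediateField.adjoin ℂ (Set.range fun b => u b / u 0) = ⊤) :
    ∃ (N : ℕ) (y : Fin (N + 1) → K), NormalModel y ∧
      ∀ b, ∃ j, y j ≠ 0 ∧ ∀ f, f ∈ chart y j ↔ IsIntegral (chart u b) f := by
  classical
  have hfld : ∀ b, IntermediateField.adjoin ℂ (Set.range fun i => u i / u b) = ⊤ := by
    intro b
    rw [eq_top_iff, ← hfield, IntermediateField.adjoin_le_iff]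
    rintro _ ⟨i, rfl⟩
    have h1 : u i / u 0 = (u i / u b) / (u 0 / u b) := by
      have := hu b
      have := hu 0
      field_simp
    beta_reduce
    rw [h1]
    exact div_mem (IntermediateField.subset_adjoin _ _ ⟨i, rfl⟩)
      (IntermediateField.subset_adjoin _ _ ⟨0, rfl⟩)
  have hfr : ∀ b, IsFractionRing (chart u b) K := by
    intro b
    refine IsFractionRing.of_field _ K fun z => ?_
    have hz : z ∈ IntermediateField.adjoin ℂ (Set.range fun i => u i / u b) := by
      rw [hfld b]
      trivial
    rw [IntermediateField.mem_adjoin_iff_div] at hz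
    obtain ⟨a, ha, b, hb, rfl⟩ := hz
    exact ⟨⟨a, ha⟩, ⟨b, hb⟩, rfl⟩
  choose G hG1 hG2 using fun b => exists_gens (chart u b) inferInstance (hfr b)
  have hk : ∀ x : Fin (M + 1) × (Σ c : Fin (M + 1), {g // g ∈ G c}), ∃ k : ℕ, ∀ e, k ≤ e →
      IsIntegral (chart u x.1) ((x.2.2 : K) * (u x.2.1 / u x.1) ^ e) := by
    rintro ⟨b, c, g, hg⟩
    exact scale_int (gen_mem u b c) (fun a ha => chart_change (hu b) (hu c) ha) (hG1 c g hg)
  choose k hk using hk
  obtain ⟨e', he'⟩ : ∃ e' : ℕ, e' = ∑ x, k x := ⟨_, rfl⟩
  have hint : ∀ b c, ∀ g ∈ G c, IsIntegral (chart u b) (g * (u c / u b) ^ (e' + 1)) := by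
    intro b c g hg
    refine hk (b, ⟨c, g, hg⟩) _ ?_
    have := Finset.single_le_sum (f := k) (fun _ _ => Nat.zero_le _)
      (Finset.mem_univ (b, (⟨c, g, hg⟩ : Σ c : Fin (M + 1), {g // g ∈ G c})))
    omega
  -- the coordinates
  let I := (Fin (e' + 1) → Fin (M + 1)) ⊕ (Σ c : Fin (M + 1), {g // g ∈ G c})
  obtain ⟨Y, hY⟩ : ∃ Y : I → K, Y = Sum.elim (fun τ => ∏ k, u (τ k))
    (fun x => u x.1 ^ (e' + 1) * (x.2 : K)) := ⟨_, rfl⟩
  have hY1 : ∀ τ, Y (Sum.inl τ) = ∏ k, u (τ k) := fun τ => by rw [hY]; rfl
  have hY2 : ∀ c g hg, Y (Sum.inr ⟨c, g, hg⟩) = u c ^ (e' + 1) * g := fun c g hg => by rw [hY]; rfl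
  obtain ⟨N, hN⟩ : ∃ N, Fintype.card I = N + 1 := by
    have : 0 < Fintype.card I := Fintype.card_pos_iff.2 ⟨Sum.inl fun _ => 0⟩
    exact ⟨Fintype.card I - 1, by omega⟩
  let ε : I ≃ Fin (N + 1) := Fintype.equivFinOfCardEq hN
  obtain ⟨y, hy⟩ : ∃ y : Fin (N + 1) → K, y = Y ∘ ε.symm := ⟨_, rfl⟩
  have hyε : ∀ i, y (ε i) = Y i := fun i => by
    rw [hy]
    change Y (ε.symm (ε i)) = Y i
    rw [Equiv.symm_apply_apply]
  obtain ⟨jj, hjj⟩ : ∃ jj : Fin (M + 1) → Fin (N + 1), jj = fun b => ε (Sum.inl fun _ => b) :=
    ⟨_, rfl⟩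
  have hyj : ∀ b, y (jj b) = u b ^ (e' + 1) := fun b => by
    rw [hjj, hyε, hY1, Finset.prod_const, Finset.card_univ, Fintype.card_fin]
  have hyj0 : ∀ b, y (jj b) ≠ 0 := fun b => by
    rw [hyj]
    exact pow_ne_zero _ (hu b)
  have hchart : ∀ b f, f ∈ chart y (jj b) ↔ IsIntegral (chart u b) f := by
    intro b f
    constructor
    · intro hf
      have h1 : chart y (jj b) ≤ (integralClosure (chart u b) K).restrictScalars ℂ := by
        apply Algebra.adjoin_le
        rintro _ ⟨i, rfl⟩
        obtain ⟨i, rfl⟩ := ε.surjective i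
        change IsIntegral (chart u b) (y (ε i) / y (jj b))
        rw [hyε, hyj]
        rcases i with τ | ⟨c, g, hg⟩
        · rw [hY1]
          have h2 : (∏ k, u (τ k)) / u b ^ (e' + 1) = ∏ k, (u (τ k) / u b) := by
            rw [Finset.prod_div_distrib, Finset.prod_const, Finset.card_univ, Fintype.card_fin]
          rw [h2]
          have h3 : ∏ k, (u (τ k) / u b) ∈ chart u b :=
            Subalgebra.prod_mem _ fun k _ => gen_mem u b (τ k)
          exact isIntegral_algebraMap (R := chart u b) (A := K) (x := ⟨_, h3⟩)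
        · rw [hY2]
          have h2 : u c ^ (e' + 1) * g / u b ^ (e' + 1) = g * (u c / u b) ^ (e' + 1) := by
            rw [div_pow]
            ring
          rw [h2]
          exact hint b c g hg
      exact h1 hf
    · intro hf
      have h1 : Algebra.adjoin ℂ ((chart u b : Set K) ∪ (G b : Set K)) ≤ chart y (jj b) := by
        apply Algebra.adjoin_le
        rintro a (ha | ha)
        · have h2 : chart u b ≤ chart y (jj b) := by
            apply Algebra.adjoin_le
            rintro _ ⟨i, rfl⟩
            have h3 : u i / u b = y (ε (Sum.inl (Fin.cons i fun _ => b))) / y (jj b) := by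
              rw [hyε, hyj, hY1, Fin.prod_univ_succ, Fin.cons_zero]
              simp only [Fin.cons_succ]
              rw [Finset.prod_const, Finset.card_univ, Fintype.card_fin, pow_succ]
              have := hu b
              field_simp
            beta_reduce
            rw [h3]
            exact gen_mem y (jj b) _
          exact h2 ha
        · have h3 : a = y (ε (Sum.inr ⟨b, a, ha⟩)) / y (jj b) := by
            rw [hyε, hyj, hY2]
            have := hu b
            field_simp
          rw [h3]
          exact gen_mem y (jj b) _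
      exact h1 (hG2 b f hf)
  have hfieldy : ∀ j, y j ≠ 0 → IntermediateField.adjoin ℂ (Set.range fun i => y i / y j) = ⊤ := by
    intro j hj
    rw [eq_top_iff, ← hfield, IntermediateField.adjoin_le_iff]
    rintro _ ⟨i, rfl⟩
    have h1 : u i / u 0 ∈ chart y (jj 0) := (hchart 0 _).2
      (isIntegral_algebraMap (R := chart u 0) (A := K) (x := ⟨_, gen_mem u 0 i⟩))
    have h2 : chart y (jj 0) ≤
        (IntermediateField.adjoin ℂ (Set.range fun i => y i / y j)).toSubalgebra := by
      apply Algebra.adjoin_le
      rintro _ ⟨l, rfl⟩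
      have h3 : y l / y (jj 0) = (y l / y j) / (y (jj 0) / y j) := by
        have := hyj0 0
        field_simp
      beta_reduce
      rw [h3]
      change _ ∈ IntermediateField.adjoin ℂ (Set.range fun i => y i / y j)
      exact div_mem (IntermediateField.subset_adjoin _ _ ⟨l, rfl⟩)
        (IntermediateField.subset_adjoin _ _ ⟨jj 0, rfl⟩)
    exact h2 h1
  refine ⟨N, y, ⟨⟨jj 0, hyj0 0⟩, hfieldy, fun j hj => ?_⟩, fun b => ⟨jj b, hyj0 b, hchart b⟩⟩
  have hfrj : IsFractionRing (chart y j) K := by
    refine IsFractionRing.of_field _ K fun z => ?_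
    have hz : z ∈ IntermediateField.adjoin ℂ (Set.range fun i => y i / y j) := by
      rw [hfieldy j hj]
      trivial
    rw [IntermediateField.mem_adjoin_iff_div] at hz
    obtain ⟨a, ha, b, hb, rfl⟩ := hz
    exact ⟨⟨a, ha⟩, ⟨b, hb⟩, rfl⟩
  rw [isIntegrallyClosed_iff K]
  intro x hx
  -- the denominators
  have hden : ∀ b, ∃ l : ℕ, x * (y (jj b) / y j) ^ l ∈ chart y j := by
    intro b
    obtain ⟨k, hk⟩ := scale_int (A := chart y (jj b)) (A' := chart y j) (gen_mem y (jj b) j)
      (fun a ha => chart_change (hyj0 b) hj ha) hx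
    have h1 := hk k le_rfl
    have h2 : x * (y j / y (jj b)) ^ k ∈ chart y (jj b) := by
      rw [hchart]
      have h3 : Algebra.IsIntegral (chart u b) ((integralClosure (chart u b) K)) := inferInstance
      obtain ⟨p, hp, hpx⟩ := h1
      have h4 : IsIntegral (integralClosure (chart u b) K) (x * (y j / y (jj b)) ^ k) := by
        have h5 : ∀ a : chart y (jj b), IsIntegral (chart u b) (a : K) := fun a =>
          (hchart b _).1 a.2
        let φ : chart y (jj b) →+* integralClosure (chart u b) K :=
          { toFun := fun a => ⟨a, h5 a⟩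
            map_one' := rfl
            map_mul' := fun _ _ => rfl
            map_zero' := rfl
            map_add' := fun _ _ => rfl }
        refine ⟨p.map φ, hp.map φ, ?_⟩
        rw [Polynomial.eval₂_map]
        exact hpx
      exact isIntegral_trans (A := integralClosure (chart u b) K) _ h4
    obtain ⟨l, hl⟩ := chart_change hj (hyj0 b) h2
    refine ⟨l, ?_⟩
    have h3 := (chart y j).mul_mem hl ((chart y j).pow_mem (gen_mem y j (jj b)) k)
    have h4 : x * (y j / y (jj b)) ^ k * (y (jj b) / y j) ^ l * (y (jj b) / y j) ^ k =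
        x * (y (jj b) / y j) ^ l := by
      have h5 : (y j / y (jj b)) ^ k * (y (jj b) / y j) ^ k = 1 := by
        rw [← mul_pow]
        have := hyj0 b
        have h6 : y j / y (jj b) * (y (jj b) / y j) = 1 := by field_simp
        rw [h6, one_pow]
      calc x * (y j / y (jj b)) ^ k * (y (jj b) / y j) ^ l * (y (jj b) / y j) ^ k =
          x * (y (jj b) / y j) ^ l * ((y j / y (jj b)) ^ k * (y (jj b) / y j) ^ k) := by ring
        _ = _ := by rw [h5, mul_one]
    rwa [h4] at h3
  let J : Ideal (chart y j).toSubring :=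
    { carrier := {r | x * (r : K) ∈ chart y j}
      add_mem' := by
        intro a b ha hb
        change x * ((a : K) + b) ∈ chart y j
        rw [mul_add]
        exact (chart y j).add_mem ha hb
      zero_mem' := by
        change x * (0 : K) ∈ chart y j
        rw [mul_zero]
        exact (chart y j).zero_mem
      smul_mem' := by
        intro c a ha
        change x * ((c : K) * a) ∈ chart y j
        rw [mul_left_comm]
        exact (chart y j).mul_mem c.2 ha }
  have hJ : J = ⊤ := by
    by_contra hcon
    obtain ⟨V, hV1, hV2⟩ := Ideal.image_subset_nonunits_valuationSubring J hcon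
    obtain ⟨b, -, hb⟩ := Finset.exists_max_image (Finset.univ : Finset (Fin (M + 1)))
      (fun b => V.valuation (u b)) ⟨0, Finset.mem_univ _⟩
    have h1 : ∀ a ∈ chart u b, a ∈ V := by
      intro a ha
      induction ha using Algebra.adjoin_induction with
      | mem a ha =>
        obtain ⟨i, rfl⟩ := ha
        beta_reduce
        rw [← V.valuation_le_one_iff, map_div₀]
        exact div_le_one_of_le₀ (hb i (Finset.mem_univ _)) zero_le
      | algebraMap r => exact hV1 ((chart y j).algebraMap_mem r)
      | add a b _ _ ha hb => exact add_mem ha hb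
      | mul a b _ _ ha hb => exact mul_mem ha hb
    have h2 : y j / y (jj b) ∈ V := mem_val_of_int h1 ((hchart b _).1 (gen_mem y (jj b) j))
    obtain ⟨l, hl⟩ := hden b
    have h3 : (y (jj b) / y j) ^ l ∈ V.nonunits := hV2
      ⟨⟨(y (jj b) / y j) ^ l, (chart y j).pow_mem (gen_mem y j (jj b)) l⟩, hl, rfl⟩
    rw [ValuationSubring.mem_nonunits_iff] at h3
    have h4 := (V.valuation_le_one_iff _).2 (pow_mem h2 l)
    have h5 : V.valuation ((y (jj b) / y j) ^ l) * V.valuation ((y j / y (jj b)) ^ l) = 1 := by
      rw [← map_mul, ← mul_pow]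
      have := hyj0 b
      have h6 : y (jj b) / y j * (y j / y (jj b)) = 1 := by field_simp
      rw [h6, one_pow, map_one]
    have h6 : V.valuation ((y (jj b) / y j) ^ l) * V.valuation ((y j / y (jj b)) ^ l) < 1 :=
      mul_lt_one_of_lt_of_le h3 h4
    rw [h5] at h6
    exact lt_irrefl _ h6
  have h1 : (1 : (chart y j).toSubring) ∈ J := by
    rw [hJ]
    trivial
  have h2 : x * (1 : K) ∈ chart y j := h1
  rw [mul_one] at h2
  exact ⟨⟨x, h2⟩, rfl⟩

end Pool.Agent.K7.H5
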