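import Pool.Agent.K7.H5.LpH

/-!
The Fine interior as a polytope: all its tight vectors, and heights for which each of them is the
normal of a facet.
-/

set_option autoImplicit false
set_option linter.overlappingInstances false
set_option linter.unusedSectionVars false

open Pool.Agent.TH152.AC Pool.Agent.TH165.ACC Pool.Agent.R885

namespace Pool.Agent.K7.H5

section

variable {r : ℕ}

theorem exists_eps {α : Type} (T : Finset α) (g D : α → ℚ) (hg : ∀ a ∈ T, 0 < g a) :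
    ∃ ε : ℚ, 0 < ε ∧ ∀ t : ℚ, 0 ≤ t → t ≤ ε → ∀ a ∈ T, t * D a < g a := by
  classical
  induction T using Finset.induction_on with
  | empty => exact ⟨1, one_pos, fun t _ _ a ha => absurd ha (Finset.notMem_empty a)⟩
  | insert a T ha ih =>
    obtain ⟨ε, hε, h⟩ := ih fun b hb => hg b (Finset.mem_insert_of_mem hb)
    have hga := hg a (Finset.mem_insert_self a T)
    have hd : 0 < |D a| + 1 := by positivity
    refine ⟨min ε (g a / (2 * (|D a| + 1))), lt_min hε (by positivity), fun t ht0 ht b hb => ?_⟩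
    rcases Finset.mem_insert.1 hb with rfl | hb
    · have h1 : t ≤ g b / (2 * (|D b| + 1)) := ht.trans (min_le_right _ _)
      rw [le_div_iff₀ (by positivity)] at h1
      have h2 : t * D b ≤ t * |D b| := mul_le_mul_of_nonneg_left (le_abs_self _) ht0
      have h3 : 0 ≤ t * |D b| := by positivity
      nlinarith
    · exact h t ht0 (ht.trans (min_le_left _ _)) b hb

theorem dq_addq (q q' : Fin r → ℚ) (s : Fin r → ℤ) : dq (q + q') s = dq q s + dq q' s := by
  unfold dq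
  rw [← Finset.sum_add_distrib]
  exact Finset.sum_congr rfl fun i _ => by rw [Pi.add_apply]; ring

theorem dq_subq (q q' : Fin r → ℚ) (s : Fin r → ℤ) : dq (q - q') s = dq q s - dq q' s := by
  unfold dq
  rw [← Finset.sum_sub_distrib]
  exact Finset.sum_congr rfl fun i _ => by rw [Pi.sub_apply]; ring

theorem dq_single (q : Fin r → ℚ) (i : Fin r) (z : ℤ) : dq q (Pi.single i z) = q i * z := by
  unfold dq
  rw [Finset.sum_eq_single i]
  · rw [Pi.single_eq_same]
  · intro j _ hj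
    rw [Pi.single_eq_of_ne hj, Int.cast_zero, mul_zero]
  · intro h
    exact absurd (Finset.mem_univ _) h

theorem dq_negv (q : Fin r → ℚ) (s : Fin r → ℤ) : dq q (-s) = -dq q s := by
  unfold dq
  rw [← Finset.sum_neg_distrib]
  exact Finset.sum_congr rfl fun i _ => by rw [Pi.neg_apply]; push_cast; ring

theorem dq_sum_v {j : ℕ} (q : Fin r → ℚ) (σ : Fin j → Fin r → ℤ) :
    dq q (∑ i, σ i) = ∑ i, dq q (σ i) := by
  unfold dq
  rw [Finset.sum_comm]
  refine Finset.sum_congr rfl fun i _ => ?_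
  rw [Finset.sum_apply, Int.cast_sum, Finset.mul_sum]

end

section

variable {r : ℕ} {J k : Type} [Fintype J] [Field k] {f : J → (Fin r → ℤ) →₀ k}

/-- the bound for the Fine interior -/
noncomputable def mm (f : J → (Fin r → ℤ) →₀ k) (v : Fin r → ℤ) : ℚ := 1 + ∑ l, (mn v (f l) : ℚ)

theorem mem_fine' {y : Fin r → ℚ} : y ∈ FineInt f ↔ ∀ v : Fin r → ℤ, v ≠ 0 → mm f v ≤ dq y v :=
  Iff.rfl

theorem const_zero (hf0 : ∀ l, f l ≠ 0) {u : Fin r → ℚ} (hu : u ∈ FineInt f) (v : Fin r → ℤ)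
    (hv : ∀ l, ∀ m ∈ (f l).support, ∀ m' ∈ (f l).support, m ⬝ᵥ v = m' ⬝ᵥ v) : v = 0 := by
  by_contra hne
  have h1 := mem_fine'.1 hu v hne
  have h2 := mem_fine'.1 hu (-v) (neg_ne_zero.2 hne)
  have h3 : ∀ l, mn (-v) (f l) = -mn v (f l) := by
    intro l
    obtain ⟨m, hm, h⟩ := exists_mn (hf0 l) v
    obtain ⟨m', hm', h'⟩ := exists_mn (hf0 l) (-v)
    rw [← h, ← h', dotProduct_neg, hv l m hm m' hm']
  rw [dq_negv] at h2
  unfold mm at h1 h2
  simp only [h3] at h2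
  push_cast at h2
  rw [Finset.sum_neg_distrib] at h2
  linarith

theorem mn_gsmul {g0 : (Fin r → ℤ) →₀ k} (hf : g0 ≠ 0) {g : ℤ} (hg : 0 < g) (s : Fin r → ℤ) :
    mn (g • s) g0 = g * mn s g0 := by
  apply le_antisymm
  · obtain ⟨m, hm, h⟩ := exists_mn hf s
    rw [← h]
    have h1 := mn_le (v := g • s) hm
    rwa [dotProduct_smul, smul_eq_mul] at h1
  · refine le_mn hf fun m hm => ?_
    rw [dotProduct_smul, smul_eq_mul]
    exact mul_le_mul_of_nonneg_left (mn_le hm) hg.le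

theorem dq_zsmul (q : Fin r → ℚ) (g : ℤ) (s : Fin r → ℤ) : dq q (g • s) = g * dq q s := by
  unfold dq
  rw [Finset.mul_sum]
  exact Finset.sum_congr rfl fun i _ => by rw [Pi.smul_apply, smul_eq_mul]; push_cast; ring

/-- tight vectors are not multiples -/
theorem tight_prim (hf0 : ∀ l, f l ≠ 0) {u : Fin r → ℚ} (hu : u ∈ FineInt f) {s s' : Fin r → ℤ}
    (hs0 : s ≠ 0) (hs : dq u s = mm f s) {g : ℤ} (hg : 0 < g) (h : s = g • s') : g = 1 := by
  have hs' : s' ≠ 0 := by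
    rintro rfl
    exact hs0 (by rw [h, smul_zero])
  have h1 := mem_fine'.1 hu s' hs'
  have h2 : mm f s = 1 + g * ∑ l, (mn s' (f l) : ℚ) := by
    unfold mm
    rw [h, Finset.mul_sum]
    congr 1
    refine Finset.sum_congr rfl fun l _ => ?_
    rw [mn_gsmul (hf0 l) hg]
    push_cast
    rfl
  rw [h2, h, dq_zsmul] at hs
  unfold mm at h1
  have hg' : (0 : ℚ) < g := by exact_mod_cast hg
  have h3 : (g : ℚ) * (1 + ∑ l, (mn s' (f l) : ℚ)) ≤ g * dq u s' :=
    mul_le_mul_of_nonneg_left h1 hg'.le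
  have h4 : (g : ℚ) ≤ 1 := by linarith
  have h5 : g ≤ 1 := by exact_mod_cast h4
  omega

theorem tight_dot_one (hf0 : ∀ l, f l ≠ 0) {u : Fin r → ℚ} (hu : u ∈ FineInt f) {s : Fin r → ℤ}
    (hs0 : s ≠ 0) (hs : dq u s = mm f s) : ∃ c1 : Fin r → ℤ, c1 ⬝ᵥ s = 1 := by
  refine exists_dot_one fun g s' hs' => ?_
  rcases lt_trichotomy g 0 with hg | hg | hg
  · have h4 := tight_prim hf0 hu hs0 hs (g := -g) (s' := -s') (by omega) (by rw [hs']; simp)
    exact ⟨-1, by omega⟩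
  · exfalso
    rw [hg, zero_smul] at hs'
    exact hs0 hs'
  · rw [tight_prim hf0 hu hs0 hs hg hs']

/-- all tight vectors of the Fine interior: a finite set -/
theorem exists_S (hf0 : ∀ l, f l ≠ 0) {V0 : Finset (Fin r → ℤ)} (hV0 : ∀ v ∈ V0, v ≠ 0)
    (hred : ∀ u : Fin r → ℚ, (∀ v ∈ V0, mm f v ≤ dq u v) → u ∈ FineInt f)
    (hne : (FineInt f).Nonempty) :
    ∃ S : Finset (Fin r → ℤ), ∀ s, s ∈ S ↔ s ≠ 0 ∧ ∃ u ∈ FineInt f, dq u s = mm f s := by
  classical
  obtain ⟨y0, hy0⟩ := hne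
  have hU : ∀ T : Finset (Fin r → ℤ), ∃ u ∈ FineInt f,
      (∃ u' ∈ FineInt f, ∀ v ∈ T, dq u' v = mm f v) → ∀ v ∈ T, dq u v = mm f v := by
    intro T
    by_cases h : ∃ u' ∈ FineInt f, ∀ v ∈ T, dq u' v = mm f v
    · obtain ⟨u', h1, h2⟩ := h
      exact ⟨u', h1, fun _ => h2⟩
    · exact ⟨y0, hy0, fun h' => absurd h' h⟩
  choose U hU1 hU2 using hU
  have hfin : ∀ T, {s : Fin r → ℤ | s ≠ 0 ∧ dq (U T) s = 1 + ∑ l, (mn s (f l) : ℚ)}.Finite :=
    fun T => tight_finite hf0 (hU1 T)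
  refine ⟨V0.powerset.biUnion fun T => (hfin T).toFinset, fun s => ?_⟩
  rw [Finset.mem_biUnion]
  constructor
  · rintro ⟨T, -, hs⟩
    rw [Set.Finite.mem_toFinset] at hs
    exact ⟨hs.1, U T, hU1 T, hs.2⟩
  · rintro ⟨hs0, u, hu, hs⟩
    obtain ⟨T, hT⟩ : ∃ T, T = V0.filter fun v => dq u v = mm f v := ⟨_, rfl⟩
    have hTt : ∀ v ∈ T, dq (U T) v = mm f v := hU2 T ⟨u, hu, fun v hv => by
      rw [hT, Finset.mem_filter] at hv
      exact hv.2⟩
    refine ⟨T, by rw [hT, Finset.mem_powerset]; exact Finset.filter_subset _ _, ?_⟩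
    rw [Set.Finite.mem_toFinset]
    refine ⟨hs0, ?_⟩
    obtain ⟨ε, hε, hε'⟩ := exists_eps (V0 \ T) (fun v => dq u v - mm f v)
      (fun v => dq (U T) v - dq u v) (by
        intro v hv
        rw [Finset.mem_sdiff] at hv
        have h1 := mem_fine'.1 hu v (hV0 v hv.1)
        have h2 : dq u v ≠ mm f v := fun h => hv.2 (by
          rw [hT, Finset.mem_filter]
          exact ⟨hv.1, h⟩)
        have h3 := lt_of_le_of_ne h1 (Ne.symm h2)
        linarith)
    have hu'' : (u + ε • (u - U T)) ∈ FineInt f := by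
      refine hred _ fun v hv => ?_
      rw [dq_addq, dq_smul, dq_subq]
      by_cases hvT : v ∈ T
      · have h1 := hTt v hvT
        have h2 : dq u v = mm f v := by
          rw [hT, Finset.mem_filter] at hvT
          exact hvT.2
        rw [h1, h2]
        simp
      · have h1 := hε' ε hε.le le_rfl v (Finset.mem_sdiff.2 ⟨hv, hvT⟩)
        beta_reduce at h1
        linarith
    have h1 := mem_fine'.1 hu'' s hs0
    rw [dq_addq, dq_smul, dq_subq, hs] at h1
    have h2 := mem_fine'.1 (hU1 T) s hs0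
    change dq (U T) s = mm f s
    have h3 : 0 ≤ ε * (mm f s - dq (U T) s) := by linarith
    have h4 := nonneg_of_mul_nonneg_right h3 hε
    linarith

/-- the Fine interior is defined by its tight vectors -/
theorem fine_of_S (hV : ∃ V0 : Finset (Fin r → ℤ), (∀ v ∈ V0, v ≠ 0) ∧
      ∀ u : Fin r → ℚ, (∀ v ∈ V0, mm f v ≤ dq u v) → u ∈ FineInt f)
    (hne : (FineInt f).Nonempty) {S : Finset (Fin r → ℤ)}
    (hS : ∀ s, s ∈ S ↔ s ≠ 0 ∧ ∃ u ∈ FineInt f, dq u s = mm f s) {u : Fin r → ℚ}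
    (hu : ∀ s ∈ S, mm f s ≤ dq u s) : u ∈ FineInt f := by
  classical
  obtain ⟨V0, hV0, hred⟩ := hV
  obtain ⟨y0, hy0⟩ := hne
  by_contra hcon
  have hviol : (V0.filter fun v => dq u v < mm f v).Nonempty := by
    by_contra h1
    rw [Finset.not_nonempty_iff_eq_empty, Finset.filter_eq_empty_iff] at h1
    exact hcon (hred u fun v hv => not_lt.1 (h1 hv))
  obtain ⟨v1, hv1, hmin⟩ := Finset.exists_min_image _
    (fun v => (dq y0 v - mm f v) / (dq y0 v - dq u v)) hviol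
  rw [Finset.mem_filter] at hv1
  have hden : ∀ v ∈ V0, dq u v < mm f v → 0 < dq y0 v - dq u v := by
    intro v hv h1
    have h2 := mem_fine'.1 hy0 v (hV0 v hv)
    linarith
  have hd1 := hden v1 hv1.1 hv1.2
  obtain ⟨t, ht⟩ : ∃ t, t = (dq y0 v1 - mm f v1) / (dq y0 v1 - dq u v1) := ⟨_, rfl⟩
  have hy1 := mem_fine'.1 hy0 v1 (hV0 v1 hv1.1)
  have ht0 : 0 ≤ t := by
    rw [ht]
    exact div_nonneg (by linarith) hd1.le
  have ht1 : t ≤ 1 := by
    rw [ht, div_le_one hd1]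
    linarith [hv1.2]
  have hdq : ∀ v, dq (y0 + t • (u - y0)) v = dq y0 v - t * (dq y0 v - dq u v) := by
    intro v
    rw [dq_addq, dq_smul, dq_subq]
    ring
  have hmem : (y0 + t • (u - y0)) ∈ FineInt f := by
    refine hred _ fun v hv => ?_
    rw [hdq]
    by_cases h1 : dq u v < mm f v
    · have h2 := hmin v (Finset.mem_filter.2 ⟨hv, h1⟩)
      beta_reduce at h2
      rw [← ht, le_div_iff₀ (hden v hv h1)] at h2
      linarith
    · push Not at h1
      have h2 := mem_fine'.1 hy0 v (hV0 v hv)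
      nlinarith
  have htight : dq (y0 + t • (u - y0)) v1 = mm f v1 := by
    rw [hdq, ht, div_mul_cancel₀ _ hd1.ne']
    ring
  have hv1S : v1 ∈ S := (hS v1).2 ⟨hV0 v1 hv1.1, _, hmem, htight⟩
  have := hu v1 hv1S
  linarith [hv1.2]

/-- the Fine interior is bounded -/
theorem S_pos (hfine : ∀ u : Fin r → ℚ, ∀ y ∈ FineInt f, (∃ S : Finset (Fin r → ℤ),
      (∀ s, s ∈ S ↔ s ≠ 0 ∧ ∃ u ∈ FineInt f, dq u s = mm f s) ∧ ∀ s ∈ S, mm f s ≤ dq u s) →
      u ∈ FineInt f)
    (hne : (FineInt f).Nonempty) {S : Finset (Fin r → ℤ)}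
    (hS : ∀ s, s ∈ S ↔ s ≠ 0 ∧ ∃ u ∈ FineInt f, dq u s = mm f s) {q : Fin r → ℚ}
    (hq : ∀ s ∈ S, 0 ≤ dq q s) : q = 0 := by
  classical
  obtain ⟨y0, hy0⟩ := hne
  have hmem : ∀ t : ℚ, 0 ≤ t → (y0 + t • q) ∈ FineInt f := by
    intro t ht
    refine hfine _ y0 hy0 ⟨S, hS, fun s hs => ?_⟩
    rw [dq_addq, dq_smul]
    have h1 := mem_fine'.1 hy0 s ((hS s).1 hs).1
    have h2 := mul_nonneg ht (hq s hs)
    linarith
  funext i
  by_contra hne
  have hs : ∀ z : ℤ, z ≠ 0 → (Pi.single i z : Fin r → ℤ) ≠ 0 := by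
    intro z hz h
    have h1 := congrFun h i
    rw [Pi.single_eq_same] at h1
    exact hz h1
  have hb : ∀ z : ℤ, z ≠ 0 → ∀ t : ℚ, 0 ≤ t →
      mm f (Pi.single i z) ≤ y0 i * z + t * (q i * z) := by
    intro z hz t ht
    have h1 := mem_fine'.1 (hmem t ht) (Pi.single i z) (hs z hz)
    rw [dq_addq, dq_smul, dq_single, dq_single] at h1
    exact h1
  have hqi : q i ≠ 0 := hne
  -- a direction in which the polytope would be unbounded
  obtain ⟨z, hz, hzq⟩ : ∃ z : ℤ, z ≠ 0 ∧ q i * z < 0 := by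
    rcases lt_or_gt_of_ne hqi with h | h
    · exact ⟨1, one_ne_zero, by push_cast; linarith⟩
    · exact ⟨-1, by norm_num, by push_cast; linarith⟩
  obtain ⟨a, ha⟩ : ∃ a, a = -(q i * z) := ⟨_, rfl⟩
  have ha0 : 0 < a := by rw [ha]; linarith
  have h1 := hb z hz ((|y0 i * z - mm f (Pi.single i z)| + 1) / a) (by positivity)
  have h2 : (|y0 i * z - mm f (Pi.single i z)| + 1) / a * (q i * z) =
      -(|y0 i * z - mm f (Pi.single i z)| + 1) := by
    rw [show q i * (z : ℚ) = -a by rw [ha, neg_neg]]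
    field_simp
  rw [h2] at h1
  have h3 := le_abs_self (y0 i * z - mm f (Pi.single i z))
  linarith

end

end Pool.Agent.K7.H5
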