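import Pool.Agent.K7.H5.Rho

/-!
The polytope of a projective toric variety whose rays are the tight vectors of the Fine interior and
whose fan refines the normal fan of the Fine interior.
-/

set_option autoImplicit false
set_option linter.overlappingInstances false
set_option linter.unusedSectionVars false

open Pool.Agent.TH152.AC Pool.Agent.TH165.ACC Pool.Agent.R885

namespace Pool.Agent.K7.H5

/-- The data: `V / c` is a set of points of the Fine interior, `S` is the set of all its tight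
vectors, `B` is a set of lattice points of a polytope with facets `b ⬝ s ≥ β s`, `s ∈ S`, whose fan
refines the fan of the Fine interior. -/
structure PD {r : ℕ} {J k : Type} [Fintype J] [Field k] (f : J → (Fin r → ℤ) →₀ k) (c : ℤ)
    (V S B : Finset (Fin r → ℤ)) (β : (Fin r → ℤ) → ℤ) : Prop where
  hc : 0 < c
  fine : ∀ u ∈ V, ∀ v, v ≠ 0 → c * (1 + ∑ l, mn v (f l)) ≤ u ⬝ᵥ v
  tight : ∀ s, s ∈ S ↔ s ≠ 0 ∧ ∃ u ∈ V, u ⬝ᵥ s = c * (1 + ∑ l, mn s (f l))
  dot1 : ∀ s ∈ S, ∃ c1 : Fin r → ℤ, c1 ⬝ᵥ s = 1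
  lower : ∀ b ∈ B, ∀ s ∈ S, β s ≤ b ⬝ᵥ s
  near : ∀ b ∈ B, ∃ u ∈ V, ∀ s ∈ S, b ⬝ᵥ s = β s → u ⬝ᵥ s = c * (1 + ∑ l, mn s (f l))
  rep : ∀ v : Fin r → ℤ, ∃ (j : ℕ) (σ : Fin j → Fin r → ℤ) (α : Fin j → ℚ), ∃ u ∈ V,
    (∀ i, σ i ∈ S ∧ 0 < α i ∧ u ⬝ᵥ σ i = c * (1 + ∑ l, mn (σ i) (f l))) ∧
    (∀ k, ∑ i, α i * (σ i k : ℚ) = v k) ∧
    (LinearIndependent ℚ fun (i : Fin j) (k : Fin r) => (σ i k : ℚ)) ∧
    (u ⬝ᵥ (∑ i, σ i) = c * (1 + ∑ l, mn (∑ i, σ i) (f l)) → j ≤ 1) ∧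
    ∀ b ∈ B, (∀ b' ∈ B, b ⬝ᵥ v ≤ b' ⬝ᵥ v) → ∀ i, b ⬝ᵥ σ i = β (σ i)
  facet : ∀ s ∈ S, ∃ b0 ∈ B, ∃ M : ℤ, 0 < M ∧ b0 ⬝ᵥ s = β s ∧
    ∀ i, b0 + M • ((s ⬝ᵥ s) • (Pi.single i 1 : Fin r → ℤ) - s i • s) ∈ B
  gen : ∃ b0 ∈ B, ∀ i, b0 + (Pi.single i 1 : Fin r → ℤ) ∈ B

variable {r : ℕ} {J k : Type} [Fintype J] [Field k] {f : J → (Fin r → ℤ) →₀ k}

/-- For large `N`, the faces of the polytope with the heights `N m - ρ` are feasible. -/
theorem exists_R {S : Finset (Fin r → ℤ)} (ρ : (Fin r → ℤ) → ℚ)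
    (hF : ∀ u : Fin r → ℚ, (∀ s ∈ S, mm f s ≤ dq u s) → u ∈ FineInt f)
    {T : Finset (Fin r → ℤ)} (hTS : T ⊆ S)
    (hT : ¬ ∃ u ∈ FineInt f, ∀ s ∈ T, dq u s = mm f s) :
    ∃ R : ℚ, ∀ (N : ℚ) (q : Fin r → ℚ), (∀ s ∈ S, N * mm f s - ρ s ≤ dq q s) →
      (∀ s ∈ T, dq q s = N * mm f s - ρ s) → N ≤ R := by
  classical
  let U := (Fin r → ℚ) × ℚ
  let l : S ⊕ T → U →ₗ[ℚ] ℚ := Sum.elim
    (fun s => (mm f s) • (LinearMap.snd ℚ _ _) - (dl (s : Fin r → ℤ)).comp (LinearMap.fst ℚ _ _))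
    (fun s => (dl (s : Fin r → ℤ)).comp (LinearMap.fst ℚ _ _) - (mm f s) • (LinearMap.snd ℚ _ _))
  have hl1 : ∀ (s : S) (u : Fin r → ℚ) (t : ℚ), l (Sum.inl s) (u, t) = mm f s * t - dq u s := by
    intro s u t
    simp only [l, Sum.elim_inl, LinearMap.sub_apply, LinearMap.smul_apply, smul_eq_mul,
      LinearMap.comp_apply, dl_apply]
    rfl
  have hl2 : ∀ (s : T) (u : Fin r → ℚ) (t : ℚ), l (Sum.inr s) (u, t) = dq u s - mm f s * t := by
    intro s u t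
    simp only [l, Sum.elim_inr, LinearMap.sub_apply, LinearMap.smul_apply, smul_eq_mul,
      LinearMap.comp_apply, dl_apply]
    rfl
  obtain ⟨w, hw, hw'⟩ := farkas_fin l (LinearMap.snd ℚ _ _) (by
    rintro ⟨u, t⟩ hx
    change t ≤ 0
    by_contra hcon
    push Not at hcon
    apply hT
    refine ⟨t⁻¹ • u, hF _ fun s hs => ?_, fun s hs => ?_⟩
    · have h1 := hx (Sum.inl ⟨s, hs⟩)
      rw [hl1] at h1
      rw [dq_smul]
      have h2 := mul_le_mul_of_nonneg_left (show mm f s * t ≤ dq u s by linarith)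
        (show 0 ≤ t⁻¹ by positivity)
      have h3 : t⁻¹ * (mm f s * t) = mm f s := by field_simp
      rwa [h3] at h2
    · have h1 := hx (Sum.inl ⟨s, hTS hs⟩)
      have h2 := hx (Sum.inr ⟨s, hs⟩)
      rw [hl1] at h1
      rw [hl2] at h2
      beta_reduce at h1 h2
      rw [dq_smul, show dq u s = mm f s * t by linarith]
      field_simp)
  have hmain : ∀ (u : Fin r → ℚ) (t : ℚ), t = ∑ s : S, w (Sum.inl s) * (mm f s * t - dq u s) +
      ∑ s : T, w (Sum.inr s) * (dq u s - mm f s * t) := by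
    intro u t
    have h1 : t = _ := hw' (u, t)
    rw [Fintype.sum_sum_type] at h1
    simp only [hl1, hl2] at h1
    exact h1
  refine ⟨∑ s : S, w (Sum.inl s) * ρ s - ∑ s : T, w (Sum.inr s) * ρ s, fun N q hq hqT => ?_⟩
  have h1 := hmain q N
  have h2 : ∑ s : S, w (Sum.inl s) * (mm f s * N - dq q s) ≤ ∑ s : S, w (Sum.inl s) * ρ s := by
    refine Finset.sum_le_sum fun s _ => mul_le_mul_of_nonneg_left ?_ (hw _)
    have := hq s s.2
    linarith
  have h3 : ∑ s : T, w (Sum.inr s) * (dq q s - mm f s * N) = -∑ s : T, w (Sum.inr s) * ρ s := by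
    rw [← Finset.sum_neg_distrib]
    refine Finset.sum_congr rfl fun s _ => ?_
    rw [hqT s s.2]
    ring
  linarith

theorem denom_fam {ι : Type} [Fintype ι] (p : ι → Fin r → ℚ) (e0 : ℚ) :
    ∃ D : ℤ, 0 < D ∧ (∀ i, ∃ z : Fin r → ℤ, ∀ k, (z k : ℚ) = D * p i k) ∧ ∃ z : ℤ, (z : ℚ) = D * e0 := by
  obtain ⟨D, hD, h⟩ := exists_denom (ι := (ι × Fin r) ⊕ Unit)
    (Sum.elim (fun x => p x.1 x.2) fun _ => e0)
  refine ⟨D, hD, fun i => ?_, ?_⟩
  · choose z hz using fun k => h (Sum.inl (i, k))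
    exact ⟨z, fun k => (hz k).symm⟩
  · obtain ⟨z, hz⟩ := h (Sum.inr ())
    exact ⟨z, hz.symm⟩

theorem dot_of_dq {z v : Fin r → ℤ} {p : Fin r → ℚ} {D : ℚ} (h : ∀ k, (z k : ℚ) = D * p k) :
    ((z ⬝ᵥ v : ℤ) : ℚ) = D * dq p v := by
  unfold dotProduct dq
  push_cast
  rw [Finset.mul_sum]
  refine Finset.sum_congr rfl fun i _ => ?_
  rw [h i]
  ring

/-- **The polytope.** -/
theorem exists_PD (hf0 : ∀ l, f l ≠ 0) (hV : ∃ V0 : Finset (Fin r → ℤ), (∀ v ∈ V0, v ≠ 0) ∧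
      ∀ u : Fin r → ℚ, (∀ v ∈ V0, mm f v ≤ dq u v) → u ∈ FineInt f)
    (hne : (FineInt f).Nonempty) :
    ∃ (c : ℤ) (V S B : Finset (Fin r → ℤ)) (β : (Fin r → ℤ) → ℤ), PD f c V S B β := by
  classical
  obtain ⟨S, hS⟩ : ∃ S : Finset (Fin r → ℤ), ∀ s, s ∈ S ↔ s ≠ 0 ∧ ∃ u ∈ FineInt f,
      dq u s = mm f s := by
    obtain ⟨V0, hV0, hred⟩ := hV
    exact exists_S hf0 hV0 hred hne
  have hF : ∀ u : Fin r → ℚ, (∀ s ∈ S, mm f s ≤ dq u s) → u ∈ FineInt f := fun u hu =>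
    fine_of_S hV hne hS hu
  have hpos : ∀ q : Fin r → ℚ, (∀ s ∈ S, 0 ≤ dq q s) → q = 0 := fun q hq =>
    S_pos (fun u y hy h => by
      obtain ⟨S', hS', h'⟩ := h
      exact fine_of_S hV hne hS' h') hne hS hq
  have h1 : ∀ s ∈ S, ∃ c1 : Fin r → ℤ, c1 ⬝ᵥ s = 1 := by
    intro s hs
    obtain ⟨hs0, u, hu, h⟩ := (hS s).1 hs
    exact tight_dot_one hf0 hu hs0 h
  have hp : ∀ s ∈ S, ∀ s' ∈ S, ∀ g : ℤ, 0 < g → s' = g • s → g = 1 := by
    intro s _ s' hs' g hg h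
    obtain ⟨hs0, u, hu, h'⟩ := (hS s').1 hs'
    exact tight_prim hf0 hu hs0 h' hg h
  obtain ⟨ρ, hρ0, hρ⟩ := exists_rho S h1 hp
  obtain ⟨y0, hy0⟩ := hne
  -- the parameter
  have hR : ∀ T : Finset (Fin r → ℤ), ∃ R : ℚ, T ⊆ S →
      (¬ ∃ u ∈ FineInt f, ∀ s ∈ T, dq u s = mm f s) → ∀ (N : ℚ) (q : Fin r → ℚ),
      (∀ s ∈ S, N * mm f s - ρ s ≤ dq q s) → (∀ s ∈ T, dq q s = N * mm f s - ρ s) → N ≤ R := by
    intro T
    by_cases h : T ⊆ S ∧ ¬ ∃ u ∈ FineInt f, ∀ s ∈ T, dq u s = mm f s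
    · obtain ⟨R, hR⟩ := exists_R ρ hF h.1 h.2
      exact ⟨R, fun _ _ => hR⟩
    · exact ⟨0, fun h2 h3 => absurd ⟨h2, h3⟩ h⟩
  choose R hR using hR
  obtain ⟨N, hNd⟩ : ∃ N : ℚ, N = 1 + ∑ T ∈ S.powerset, |R T| := ⟨_, rfl⟩
  have hN0 : 0 ≤ N := by
    rw [hNd]
    have := Finset.sum_nonneg (s := S.powerset) (f := fun T => |R T|) fun T _ => abs_nonneg _
    linarith
  have hNR : ∀ T, T ⊆ S → R T < N := by
    intro T hT
    have h2 := Finset.single_le_sum (s := S.powerset) (f := fun T => |R T|)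
      (fun T _ => abs_nonneg _) (Finset.mem_powerset.2 hT)
    have h3 := le_abs_self (R T)
    rw [hNd]
    linarith
  obtain ⟨hh, hhd⟩ : ∃ hh : (Fin r → ℤ) → ℚ, hh = fun s => N * mm f s - ρ s := ⟨_, rfl⟩
  have hfeas : ∀ T, T ⊆ S → ∀ q : Fin r → ℚ, (∀ s ∈ S, hh s ≤ dq q s) →
      (∀ s ∈ T, dq q s = hh s) → ∃ u ∈ FineInt f, ∀ s ∈ T, dq u s = mm f s := by
    intro T hT q hq hqT
    by_contra hcon
    have h2 := hR T hT hcon N q (fun s hs => by
      have := hq s hs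
      rwa [hhd] at this) (fun s hs => by
      have := hqT s hs
      rwa [hhd] at this)
    have h3 := hNR T hT
    linarith
  have hy0S : ∀ s ∈ S, mm f s ≤ dq y0 s := fun s hs => mem_fine'.1 hy0 s ((hS s).1 hs).1
  have hq0 : ∀ s ∈ S, hh s < dq (N • y0) s := by
    intro s hs
    rw [hhd, dq_smul]
    have h2 := mul_le_mul_of_nonneg_left (hy0S s hs) hN0
    have h3 := hρ0 s hs
    beta_reduce
    linarith
  -- the points of the Fine interior
  have hU : ∀ T : Finset (Fin r → ℤ), ∃ u ∈ FineInt f,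
      (∃ u' ∈ FineInt f, ∀ v ∈ T, dq u' v = mm f v) → ∀ v ∈ T, dq u v = mm f v := by
    intro T
    by_cases h : ∃ u' ∈ FineInt f, ∀ v ∈ T, dq u' v = mm f v
    · obtain ⟨u', h2, h3⟩ := h
      exact ⟨u', h2, fun _ => h3⟩
    · exact ⟨y0, hy0, fun h' => absurd h' h⟩
  choose U hU1 hU2 using hU
  obtain ⟨c, hc, hcU, -⟩ := denom_fam (fun T : {T // T ∈ S.powerset} => U T.1) 0
  choose zU hzU using hcU
  have hcq : (0 : ℚ) < c := by exact_mod_cast hc
  have hzUd : ∀ T v, ((zU T ⬝ᵥ v : ℤ) : ℚ) = c * dq (U T.1) v := fun T v => dot_of_dq (hzU T)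
  have hcm : ∀ v, ((c * (1 + ∑ l, mn v (f l)) : ℤ) : ℚ) = c * mm f v := by
    intro v
    unfold mm
    push_cast
    rfl
  have htight : ∀ T v, zU T ⬝ᵥ v = c * (1 + ∑ l, mn v (f l)) ↔ dq (U T.1) v = mm f v := by
    intro T v
    rw [← Int.cast_inj (α := ℚ), hzUd, hcm]
    exact mul_right_inj' hcq.ne'
  -- the points of the polytope
  have hQ : ∀ T : Finset (Fin r → ℤ), ∃ q : Fin r → ℚ, (∀ s ∈ S, hh s ≤ dq q s) ∧
      ((∃ q' : Fin r → ℚ, (∀ s ∈ S, hh s ≤ dq q' s) ∧ ∀ s ∈ T, dq q' s = hh s) →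
        ∀ s ∈ T, dq q s = hh s) := by
    intro T
    by_cases h : ∃ q' : Fin r → ℚ, (∀ s ∈ S, hh s ≤ dq q' s) ∧ ∀ s ∈ T, dq q' s = hh s
    · obtain ⟨q', h2, h3⟩ := h
      exact ⟨q', h2, fun _ => h3⟩
    · exact ⟨N • y0, fun s hs => (hq0 s hs).le, fun h' => absurd h' h⟩
  choose Q hQ1 hQ2 using hQ
  have hqs : ∀ s : Fin r → ℤ, ∃ q : Fin r → ℚ, s ∈ S → dq q s = hh s ∧
      ∀ s' ∈ S, s' ≠ s → hh s' < dq q s' := by
    intro s
    by_cases hs : s ∈ S
    · obtain ⟨q, h2, h3⟩ := hρ s hs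
      obtain ⟨hs0, u, hu, h4⟩ := (hS s).1 hs
      refine ⟨N • u + q, fun _ => ⟨?_, fun s' hs' hne => ?_⟩⟩
      · rw [dq_addq, dq_smul, h4, h2, hhd]
        ring
      · rw [dq_addq, dq_smul, hhd]
        have h5 := h3 s' hs' hne
        have h6 := mul_le_mul_of_nonneg_left (mem_fine'.1 hu s' ((hS s').1 hs').1) hN0
        beta_reduce
        linarith
    · exact ⟨0, fun h => absurd h hs⟩
  choose qs hqs using hqs
  obtain ⟨w, hwd⟩ : ∃ w : (Fin r → ℤ) → Fin r → Fin r → ℤ,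
      w = fun s i => (s ⬝ᵥ s) • (Pi.single i 1 : Fin r → ℤ) - s i • s := ⟨_, rfl⟩
  have hws : ∀ s i, w s i ⬝ᵥ s = 0 := by
    intro s i
    rw [hwd]
    beta_reduce
    rw [sub_dotProduct, smul_dotProduct, smul_dotProduct, single_one_dotProduct, smul_eq_mul,
      smul_eq_mul]
    ring
  obtain ⟨ε1, hε1, hε1'⟩ := exists_eps ((S ×ˢ S).filter (fun x => x.2 ≠ x.1) ×ˢ
      (Finset.univ : Finset (Fin r)))
    (fun x => dq (qs x.1.1) x.1.2 - hh x.1.2) (fun x => -((w x.1.1 x.2 ⬝ᵥ x.1.2 : ℤ) : ℚ)) (by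
      rintro ⟨⟨s, s'⟩, i⟩ hx
      rw [Finset.mem_product, Finset.mem_filter, Finset.mem_product] at hx
      have := (hqs s hx.1.1.1).2 s' hx.1.1.2 hx.1.2
      change 0 < dq (qs s) s' - hh s'
      linarith)
  obtain ⟨ε2, hε2, hε2'⟩ := exists_eps (S ×ˢ (Finset.univ : Finset (Fin r)))
    (fun x => dq (N • y0) x.1 - hh x.1) (fun x => -((x.1 x.2 : ℤ) : ℚ)) (by
      rintro ⟨s, i⟩ hx
      rw [Finset.mem_product] at hx
      have := hq0 s hx.1
      change 0 < dq (N • y0) s - hh s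
      linarith)
  obtain ⟨D0, hD0, hD0p, M0, hM0⟩ := denom_fam
    (Sum.elim (fun T : {T // T ∈ S.powerset} => Q T.1)
      (Sum.elim (fun s : S => qs s) fun _ : Unit => N • y0)) ε1
  obtain ⟨E, hE⟩ := exists_nat_ge (1 / ε2 + 1)
  have hE1 : (1 : ℚ) ≤ E := by
    have : 0 < 1 / ε2 := by positivity
    linarith
  have hE2 : 1 / ε2 ≤ E := by linarith
  obtain ⟨D, hDd⟩ : ∃ D : ℤ, D = D0 * E := ⟨_, rfl⟩
  have hE0 : (0 : ℤ) < E := by
    have : (0 : ℚ) < E := by linarith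
    exact_mod_cast this
  have hD : 0 < D := by
    rw [hDd]
    exact mul_pos hD0 hE0
  have hDq : (0 : ℚ) < D := by exact_mod_cast hD
  have hDc : (D : ℚ) = D0 * E := by
    rw [hDd]
    push_cast
    rfl
  have hz : ∀ a, ∃ z : Fin r → ℤ, ∀ k, (z k : ℚ) = D *
      (Sum.elim (fun T : {T // T ∈ S.powerset} => Q T.1)
      (Sum.elim (fun s : S => qs s) fun _ : Unit => N • y0)) a k := by
    intro a
    obtain ⟨z, hz⟩ := hD0p a
    refine ⟨(E : ℤ) • z, fun k => ?_⟩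
    rw [Pi.smul_apply, smul_eq_mul]
    push_cast
    rw [hz, hDc]
    ring
  choose zz hzz using hz
  obtain ⟨M, hM⟩ : ∃ M : ℤ, M = M0 * E := ⟨_, rfl⟩
  have hMq : (M : ℚ) = D * ε1 := by
    rw [hM, hDc]
    push_cast
    rw [hM0]
    ring
  have hMpos : 0 < M := by
    have : (0 : ℚ) < M := by
      rw [hMq]
      positivity
    exact_mod_cast this
  -- the set
  obtain ⟨BQ, hBQ⟩ : ∃ BQ : Finset (Fin r → ℤ), BQ = Finset.univ.image
    (fun T : {T // T ∈ S.powerset} => zz (Sum.inl T)) := ⟨_, rfl⟩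
  obtain ⟨BS, hBS⟩ : ∃ BS : Finset (Fin r → ℤ), BS = Finset.univ.image
    (fun s : S => zz (Sum.inr (Sum.inl s))) := ⟨_, rfl⟩
  obtain ⟨BW, hBW⟩ : ∃ BW : Finset (Fin r → ℤ), BW = Finset.univ.image
    (fun x : S × Fin r => zz (Sum.inr (Sum.inl x.1)) + M • w x.1 x.2) := ⟨_, rfl⟩
  obtain ⟨b1, hb1⟩ : ∃ b1 : Fin r → ℤ, b1 = zz (Sum.inr (Sum.inr ())) := ⟨_, rfl⟩
  obtain ⟨BE, hBE⟩ : ∃ BE : Finset (Fin r → ℤ), BE = Finset.univ.image
    (fun i : Fin r => b1 + (Pi.single i 1 : Fin r → ℤ)) := ⟨_, rfl⟩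
  let B : Finset (Fin r → ℤ) := BQ ∪ (BS ∪ (BW ∪ ({b1} ∪ BE)))
  have hB : ∀ b ∈ B, ∃ p : Fin r → ℚ, (∀ s ∈ S, hh s ≤ dq p s) ∧
      ∀ v : Fin r → ℤ, ((b ⬝ᵥ v : ℤ) : ℚ) = D * dq p v := by
    intro b hb
    simp only [B, Finset.mem_union, Finset.mem_singleton, hBQ, hBS, hBW, hBE, Finset.mem_image,
      Finset.mem_univ, true_and] at hb
    rcases hb with ⟨T, rfl⟩ | ⟨s, rfl⟩ | ⟨⟨s, i⟩, rfl⟩ | rfl | ⟨i, rfl⟩
    · exact ⟨Q T.1, hQ1 T.1, fun v => dot_of_dq (hzz _)⟩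
    · refine ⟨qs s, fun s' hs' => ?_, fun v => dot_of_dq (hzz _)⟩
      by_cases h : s' = s
      · rw [h]
        exact (hqs s s.2).1.ge
      · exact ((hqs s s.2).2 s' hs' h).le
    · refine ⟨qs s + ε1 • fun k => (w s i k : ℚ), fun s' hs' => ?_, fun v => ?_⟩
      · rw [dq_addq, dq_smul, dq_int]
        by_cases h : s' = s
        · rw [h, hws]
          rw [(hqs s s.2).1]
          simp
        · have h2 := hε1' ε1 hε1.le le_rfl ((s, s'), i) (by
            rw [Finset.mem_product, Finset.mem_filter, Finset.mem_product]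
            exact ⟨⟨⟨s.2, hs'⟩, h⟩, Finset.mem_univ _⟩)
          beta_reduce at h2
          linarith
      · rw [add_dotProduct, smul_dotProduct, smul_eq_mul]
        push_cast
        rw [dot_of_dq (hzz _), dq_addq, dq_smul, dq_int, hMq]
        change (D : ℚ) * dq (qs s) v + _ = _
        ring
    · rw [hb1]
      exact ⟨N • y0, fun s hs => (hq0 s hs).le, fun v => dot_of_dq (hzz _)⟩
    · refine ⟨N • y0 + (1 / (D : ℚ)) • fun k => ((Pi.single i 1 : Fin r → ℤ) k : ℚ),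
        fun s' hs' => ?_, fun v => ?_⟩
      · rw [dq_addq, dq_smul (1 / (D : ℚ)), dq_int, single_one_dotProduct]
        have h2 := hε2' (1 / D) (by positivity) (by
          rw [div_le_iff₀ hDq]
          rw [div_le_iff₀ hε2] at hE2
          have h3 : (1 : ℚ) ≤ D0 := by exact_mod_cast hD0
          have h4 : (E : ℚ) ≤ D := by
            rw [hDc]
            nlinarith
          nlinarith) (s', i) (by
            rw [Finset.mem_product]
            exact ⟨hs', Finset.mem_univ _⟩)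
        beta_reduce at h2
        linarith
      · rw [add_dotProduct, hb1]
        push_cast
        rw [dot_of_dq (hzz _), dq_addq, dq_smul (1 / (D : ℚ)), dq_int]
        change (D : ℚ) * dq (N • y0) v + _ = _
        field_simp
  -- the heights
  have hβ : ∀ s ∈ S, ((⌊D * hh s⌋ : ℤ) : ℚ) = D * hh s := by
    intro s hs
    have h2 : ((zz (Sum.inr (Sum.inl ⟨s, hs⟩)) ⬝ᵥ s : ℤ) : ℚ) = D * hh s := by
      rw [dot_of_dq (hzz _)]
      change (D : ℚ) * dq (qs s) s = _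
      rw [(hqs s hs).1]
    rw [← h2, Int.floor_intCast]
  have hmemV : ∀ T, zU T ∈ (Finset.univ.image zU : Finset (Fin r → ℤ)) := fun T =>
    Finset.mem_image.2 ⟨T, Finset.mem_univ _, rfl⟩
  refine ⟨c, Finset.univ.image zU, S, B, fun s => ⌊D * hh s⌋, ?_⟩
  constructor
  · exact hc
  · intro u hu v hv
    obtain ⟨T, -, rfl⟩ := Finset.mem_image.1 hu
    have h2 : ((c * (1 + ∑ l, mn v (f l)) : ℤ) : ℚ) ≤ ((zU T ⬝ᵥ v : ℤ) : ℚ) := by
      rw [hzUd, hcm]
      exact mul_le_mul_of_nonneg_left (mem_fine'.1 (hU1 T.1) v hv) hcq.le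
    exact_mod_cast h2
  · intro s
    rw [hS]
    refine and_congr_right fun hs0 => ?_
    constructor
    · rintro ⟨u, hu, h2⟩
      have hsS : s ∈ S := (hS s).2 ⟨hs0, u, hu, h2⟩
      refine ⟨zU ⟨{s}, Finset.mem_powerset.2 (Finset.singleton_subset_iff.2 hsS)⟩, hmemV _, ?_⟩
      rw [htight]
      exact hU2 {s} ⟨u, hu, fun v hv => by rw [Finset.mem_singleton.1 hv]; exact h2⟩ s
        (Finset.mem_singleton_self s)
    · rintro ⟨u, hu, h2⟩
      obtain ⟨T, -, rfl⟩ := Finset.mem_image.1 hu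
      exact ⟨U T.1, hU1 T.1, (htight T s).1 h2⟩
  · exact h1
  · intro b hb s hs
    obtain ⟨p, hp1, hp2⟩ := hB b hb
    have h2 : ((⌊D * hh s⌋ : ℤ) : ℚ) ≤ ((b ⬝ᵥ s : ℤ) : ℚ) := by
      rw [hβ s hs, hp2]
      exact mul_le_mul_of_nonneg_left (hp1 s hs) hDq.le
    exact_mod_cast h2
  · intro b hb
    obtain ⟨p, hp1, hp2⟩ := hB b hb
    obtain ⟨T, hT⟩ : ∃ T, T = S.filter fun s => b ⬝ᵥ s = ⌊D * hh s⌋ := ⟨_, rfl⟩
    have hTS : T ⊆ S := by
      rw [hT]
      exact Finset.filter_subset _ _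
    have hpT : ∀ s ∈ T, dq p s = hh s := by
      intro s hs
      rw [hT, Finset.mem_filter] at hs
      have h2 : ((b ⬝ᵥ s : ℤ) : ℚ) = D * hh s := by
        rw [hs.2, hβ s hs.1]
      rw [hp2] at h2
      exact mul_left_cancel₀ hDq.ne' h2
    have h2 := hU2 T (hfeas T hTS p hp1 hpT)
    refine ⟨zU ⟨T, Finset.mem_powerset.2 hTS⟩, hmemV _, fun s hs hbs => ?_⟩
    rw [htight]
    exact h2 s (by rw [hT, Finset.mem_filter]; exact ⟨hs, hbs⟩)
  · intro v
    obtain ⟨q, j, σ, α, h2, h3, h4, h5⟩ := exists_repH S hh (fun s hs => (hq0 s hs).le) hpos v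
    let T : Finset (Fin r → ℤ) := Finset.univ.image σ
    have hσT : ∀ i, σ i ∈ T := fun i => Finset.mem_image.2 ⟨i, Finset.mem_univ _, rfl⟩
    have hTS : T ⊆ S := by
      intro s hs
      obtain ⟨i, -, rfl⟩ := Finset.mem_image.1 hs
      exact (h3 i).1
    have hqT : ∀ s ∈ T, dq q s = hh s := by
      intro s hs
      obtain ⟨i, -, rfl⟩ := Finset.mem_image.1 hs
      exact (h3 i).2.2
    have hUT := hU2 T (hfeas T hTS q h2 hqT)
    refine ⟨j, σ, α, zU ⟨T, Finset.mem_powerset.2 hTS⟩, hmemV _, fun i => ⟨(h3 i).1, (h3 i).2.1, ?_⟩,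
      h4, h5, fun hsum => ?_, fun b hb hmin => ?_⟩
    · rw [htight]
      exact hUT _ (hσT i)
    · rw [htight] at hsum
      beta_reduce at hsum
      by_contra hj
      push Not at hj
      have hs0 : (∑ i, σ i) ≠ 0 := by
        intro h0
        have h6 := Fintype.linearIndependent_iff.1 h5 (fun _ => 1) (by
          funext k
          have h7 := congrFun h0 k
          rw [Finset.sum_apply] at h7
          rw [Finset.sum_apply]
          simp only [one_smul, Pi.zero_apply] at h7 ⊢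
          exact_mod_cast h7) ⟨0, by omega⟩
        norm_num at h6
      have hsS : (∑ i, σ i) ∈ S := (hS _).2 ⟨hs0, U T, hU1 T, hsum⟩
      have hmm : mm f (∑ i, σ i) = ∑ i, mm f (σ i) := by
        rw [← hsum, dq_sum_v]
        exact Finset.sum_congr rfl fun i _ => hUT _ (hσT i)
      have h6 : hh (∑ i, σ i) ≤ ∑ i, hh (σ i) := by
        refine (h2 _ hsS).trans ?_
        rw [dq_sum_v]
        exact (Finset.sum_congr rfl fun i _ => (h3 i).2.2).le
      have h7 : ∑ i, ρ (σ i) ≤ ρ (∑ i, σ i) := by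
        have h8 : ∑ i, hh (σ i) = N * ∑ i, mm f (σ i) - ∑ i, ρ (σ i) := by
          rw [hhd, Finset.mul_sum, ← Finset.sum_sub_distrib]
        have h9 : hh (∑ i, σ i) = N * mm f (∑ i, σ i) - ρ (∑ i, σ i) := by rw [hhd]
        rw [h8, h9, hmm] at h6
        linarith
      obtain ⟨q', h8, h9⟩ := hρ _ hsS
      have hneq : ∀ i, σ i ≠ ∑ i, σ i := by
        intro i hi
        have h10 : ∃ i', i' ≠ i := by
          by_contra hcon
          push Not at hcon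
          have h11 := hcon ⟨0, by omega⟩
          have h12 := hcon ⟨1, by omega⟩
          rw [← h12] at h11
          have := congrArg Fin.val h11
          simp at this
        obtain ⟨i', hi'⟩ := h10
        have h11 := Fintype.linearIndependent_iff.1 h5 (fun a => if a = i then 0 else 1) (by
          funext k
          rw [Finset.sum_apply, Pi.zero_apply]
          have h12 := congrFun hi k
          rw [Finset.sum_apply, ← Finset.add_sum_erase _ _ (Finset.mem_univ i)] at h12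
          have h13 : ∑ a ∈ Finset.univ.erase i, σ a k = 0 := by linarith
          rw [← Finset.add_sum_erase _ _ (Finset.mem_univ i)]
          beta_reduce
          rw [if_pos rfl, zero_smul, Pi.zero_apply, zero_add]
          have h14 : ∑ a ∈ Finset.univ.erase i, ((if a = i then (0 : ℚ) else 1) •
              fun k : Fin r => (σ a k : ℚ)) k = ((∑ a ∈ Finset.univ.erase i, σ a k : ℤ) : ℚ) := by
            push_cast
            refine Finset.sum_congr rfl fun a ha => ?_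
            rw [if_neg (Finset.ne_of_mem_erase ha), one_smul]
          rw [h14, h13, Int.cast_zero]) i'
        rw [if_neg hi'] at h11
        exact one_ne_zero h11
      have h10 : ∑ i, -ρ (σ i) < ∑ i, dq q' (σ i) :=
        Finset.sum_lt_sum_of_nonempty ⟨⟨0, by omega⟩, Finset.mem_univ _⟩
          fun i _ => h9 _ (h3 i).1 (hneq i)
      rw [← dq_sum_v, h8, Finset.sum_neg_distrib] at h10
      linarith
    · obtain ⟨p, hp1, hp2⟩ := hB b hb
      have hQT : ∀ i, dq (Q T) (σ i) = hh (σ i) := fun i => hQ2 T ⟨q, h2, hqT⟩ _ (hσT i)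
      have hbT : zz (Sum.inl ⟨T, Finset.mem_powerset.2 hTS⟩) ∈ B := by
        simp only [B, Finset.mem_union]
        left
        rw [hBQ]
        exact Finset.mem_image.2 ⟨_, Finset.mem_univ _, rfl⟩
      have h6 := hmin _ hbT
      have h6' : ((b ⬝ᵥ v : ℤ) : ℚ) ≤
          ((zz (Sum.inl ⟨T, Finset.mem_powerset.2 hTS⟩) ⬝ᵥ v : ℤ) : ℚ) := by exact_mod_cast h6
      rw [hp2, dot_of_dq (hzz _)] at h6'
      have h7 : dq p v ≤ dq (Q T) v := le_of_mul_le_mul_left h6' hDq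
      rw [dq_sum p σ α h4, dq_sum (Q T) σ α h4] at h7
      simp only [hQT] at h7
      have h8 : ∑ i, α i * (dq p (σ i) - hh (σ i)) ≤ 0 := by
        have h9 : ∑ i, α i * (dq p (σ i) - hh (σ i)) = ∑ i, α i * dq p (σ i) -
            ∑ i, α i * hh (σ i) := by
          rw [← Finset.sum_sub_distrib]
          exact Finset.sum_congr rfl fun i _ => by ring
        rw [h9]
        linarith
      have h9 : ∀ i ∈ (Finset.univ : Finset (Fin j)), 0 ≤ α i * (dq p (σ i) - hh (σ i)) :=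
        fun i _ => mul_nonneg (h3 i).2.1.le (by have := hp1 _ (h3 i).1; linarith)
      have h10 := (Finset.sum_eq_zero_iff_of_nonneg h9).1 (le_antisymm h8 (Finset.sum_nonneg h9))
      intro i
      have h11 := (mul_eq_zero.1 (h10 i (Finset.mem_univ _))).resolve_left (h3 i).2.1.ne'
      have h12 : ((b ⬝ᵥ σ i : ℤ) : ℚ) = ((⌊D * hh (σ i)⌋ : ℤ) : ℚ) := by
        rw [hp2, hβ _ (h3 i).1, show dq p (σ i) = hh (σ i) by linarith]
      exact_mod_cast h12
  · intro s hs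
    refine ⟨zz (Sum.inr (Sum.inl ⟨s, hs⟩)), ?_, M, hMpos, ?_, fun i => ?_⟩
    · simp only [B, Finset.mem_union]
      right
      left
      rw [hBS]
      exact Finset.mem_image.2 ⟨_, Finset.mem_univ _, rfl⟩
    · have h2 : ((zz (Sum.inr (Sum.inl ⟨s, hs⟩)) ⬝ᵥ s : ℤ) : ℚ) = ((⌊D * hh s⌋ : ℤ) : ℚ) := by
        rw [dot_of_dq (hzz _), hβ s hs]
        change (D : ℚ) * dq (qs s) s = _
        rw [(hqs s hs).1]
      exact_mod_cast h2
    · simp only [B, Finset.mem_union]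
      right
      right
      left
      rw [hBW]
      refine Finset.mem_image.2 ⟨(⟨s, hs⟩, i), Finset.mem_univ _, ?_⟩
      rw [hwd]
  · refine ⟨b1, ?_, fun i => ?_⟩
    · simp only [B, Finset.mem_union, Finset.mem_singleton]
      tauto
    · simp only [B, Finset.mem_union, Finset.mem_singleton]
      right
      right
      right
      right
      rw [hBE]
      exact Finset.mem_image.2 ⟨i, Finset.mem_univ _, rfl⟩

end Pool.Agent.K7.H5
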