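import Pool.Agent.K7.H5.Norm

/-!
Independence of residues at the prime divisors.
-/

set_option autoImplicit false
set_option linter.overlappingInstances false
set_option linter.unusedSectionVars false

open FF Pool.Agent.Y172 Pool.Agent.W602.GT

namespace Pool.Agent.K7.H5

section

variable {k K : Type} [Field k] [Field K] [Algebra k K]

theorem red_aeval (P : Place k K) {ι : Type} {w : ι → K} (hw : ∀ i, P.Reg (w i))
    (p : MvPolynomial ι k) :
    P.Reg (MvPolynomial.aeval w p) ∧
      P.red (MvPolynomial.aeval w p) = MvPolynomial.aeval (fun i => P.red (w i)) p := by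
  induction p using MvPolynomial.induction_on with
  | C a =>
    rw [MvPolynomial.algHom_C, MvPolynomial.algHom_C]
    exact ⟨P.reg_const a, (P.algebraMap_RF a).symm⟩
  | add p q hp hq =>
    rw [map_add, map_add, P.red_add hp.1 hq.1, hp.2, hq.2]
    exact ⟨P.reg_add hp.1 hq.1, rfl⟩
  | mul_X p i hp =>
    rw [map_mul, map_mul, MvPolynomial.aeval_X, MvPolynomial.aeval_X, P.red_mul hp.1 (hw i), hp.2]
    exact ⟨P.reg_mul hp.1 (hw i), rfl⟩

/-- independence of the residues -/
theorem ri_iff (P : Place k K) {ι : Type} {w : ι → K} :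
    (∀ p : MvPolynomial ι k, p ≠ 0 → MvPolynomial.aeval w p ≠ 0 ∧
      P.ord (MvPolynomial.aeval w p) = 0) ↔
    (∀ i, P.Reg (w i)) ∧ AlgebraicIndependent k (fun i => P.red (w i)) := by
  constructor
  · intro h
    have hr : ∀ i, P.Reg (w i) := by
      intro i
      have h1 := h (MvPolynomial.X i) (MvPolynomial.X_ne_zero i)
      rw [MvPolynomial.aeval_X] at h1
      exact Or.inr h1.2.ge
    refine ⟨hr, ?_⟩
    rw [algebraicIndependent_iff]
    intro p hp
    by_contra hp0
    have h1 := h p hp0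
    exact P.red_ne_zero h1.1 h1.2 ((red_aeval P hr p).2.trans hp)
  · rintro ⟨hr, hi⟩ p hp
    have h1 := red_aeval P hr p
    have h2 : P.red (MvPolynomial.aeval w p) ≠ 0 := by
      rw [h1.2]
      intro h3
      exact hp ((algebraicIndependent_iff.1 hi) p h3)
    rw [Ne, P.red_eq_zero_iff h1.1] at h2
    push Not at h2
    refine ⟨h2.1, ?_⟩
    have := (P.reg_iff h2.1).1 h1.1
    omega

end

variable {K : Type} [Field K] [Algebra ℂ K]

/-- the residues of integral elements are algebraic over the residues of the generators -/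
theorem red_alg {P : Place ℂ K} {ι : Type} {W : ι → K} (hW : ∀ i, P.Reg (W i)) {a : K}
    (ha : IsIntegral (Algebra.adjoin ℂ (Set.range W)) a) :
    P.Reg a ∧ IsAlgebraic (Algebra.adjoin ℂ (Set.range fun i => P.red (W i))) (P.red a) := by
  have hA : ∀ f ∈ Algebra.adjoin ℂ (Set.range W), P.Reg f ∧
      P.red f ∈ Algebra.adjoin ℂ (Set.range fun i => P.red (W i)) := by
    intro f hf
    rw [Algebra.adjoin_range_eq_range_aeval] at hf
    obtain ⟨p, rfl⟩ := hf
    have h1 := red_aeval P hW p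
    refine ⟨h1.1, ?_⟩
    change P.red (MvPolynomial.aeval W p) ∈ _
    rw [h1.2, Algebra.adjoin_range_eq_range_aeval]
    exact ⟨p, rfl⟩
  have ha' : a ∈ P.O := mem_val_of_int (V := P.O) (fun f hf => (hA f hf).1) ha
  refine ⟨ha', ?_⟩
  obtain ⟨p, hp, hpa⟩ := ha
  let ρ : Algebra.adjoin ℂ (Set.range W) →+*
      Algebra.adjoin ℂ (Set.range fun i => P.red (W i)) :=
    { toFun := fun f => ⟨P.red f, (hA f f.2).2⟩
      map_one' := Subtype.ext P.red_one
      map_mul' := fun f g => Subtype.ext (P.red_mul (hA f f.2).1 (hA g g.2).1)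
      map_zero' := Subtype.ext P.red_zero
      map_add' := fun f g => Subtype.ext (P.red_add (hA f f.2).1 (hA g g.2).1) }
  let i0 : Algebra.adjoin ℂ (Set.range W) →+* P.O :=
    { toFun := fun f => ⟨f, (hA f f.2).1⟩
      map_one' := rfl
      map_mul' := fun _ _ => rfl
      map_zero' := rfl
      map_add' := fun _ _ => rfl }
  have hi0 : Polynomial.eval₂ i0 (⟨a, ha'⟩ : P.O) p = 0 := by
    apply Subtype.ext
    have h1 := Polynomial.hom_eval₂ p i0 P.O.subtype (⟨a, ha'⟩ : P.O)
    change _ = Polynomial.eval₂ (algebraMap (Algebra.adjoin ℂ (Set.range W)) K) a p at h1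
    rw [hpa] at h1
    exact h1
  have h2 : (algebraMap (Algebra.adjoin ℂ (Set.range fun i => P.red (W i))) P.RF).comp ρ =
      P.resHom.comp i0 := by
    ext f
    change P.red (f : K) = P.resHom ⟨f, _⟩
    exact P.red_of_reg _
  have h3 : Polynomial.eval₂ (algebraMap (Algebra.adjoin ℂ (Set.range fun i => P.red (W i))) P.RF)
      (P.red a) (p.map ρ) = 0 := by
    rw [Polynomial.eval₂_map, h2, P.red_of_reg ha', ← Polynomial.hom_eval₂, hi0, map_zero]
  exact ⟨p.map ρ, (hp.map ρ).ne_zero, h3⟩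

/-- **Independent residues among generators.** -/
theorem exists_res (P : Place ℂ K) {n : ℕ} (hdiv : Divisorial n P) {ι : Type} {W : ι → K}
    (hW : ∀ i, P.Reg (W i))
    (hloc : ∀ f, P.Reg f → ∃ a b, IsIntegral (Algebra.adjoin ℂ (Set.range W)) a ∧
      IsIntegral (Algebra.adjoin ℂ (Set.range W)) b ∧ b ≠ 0 ∧ P.ord b = 0 ∧ f * b = a) :
    ∃ s : Fin (n - 1) → ι, ∀ p : MvPolynomial (Fin (n - 1)) ℂ, p ≠ 0 →
      MvPolynomial.aeval (W ∘ s) p ≠ 0 ∧ P.ord (MvPolynomial.aeval (W ∘ s) p) = 0 := by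
  obtain ⟨w, hw⟩ := hdiv
  obtain ⟨hwr, hwi⟩ := (ri_iff P).1 hw
  have halg : Algebra.IsAlgebraic (Algebra.adjoin ℂ (Set.range fun i => P.red (W i))) P.RF := by
    refine ⟨fun z => ?_⟩
    obtain ⟨f, hf, rfl⟩ := P.red_surjective z
    obtain ⟨a, b, ha, hb, hb0, hbo, hab⟩ := hloc f hf
    have h1 := red_alg hW ha
    have h2 := red_alg hW hb
    have h3 : P.red f = P.red a * (P.red b)⁻¹ := by
      have h4 : P.red f * P.red b = P.red a := by rw [← P.red_mul hf h2.1, hab]
      rw [← h4, mul_assoc, mul_inv_cancel₀ (P.red_ne_zero hb0 hbo), mul_one]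
    rw [h3]
    exact h1.2.mul h2.2.inv
  obtain ⟨t, ht, htb⟩ := exists_isTranscendenceBasis_subset (R := ℂ) (A := P.RF)
    (Set.range fun i => P.red (W i))
  have h1 : ((n - 1 : ℕ) : Cardinal) ≤ Cardinal.mk t := by
    have h2 := hwi.lift_cardinalMk_le_trdeg
    rw [htb.cardinalMk_eq_trdeg]
    simpa using h2
  have h2 : Nonempty (Fin (n - 1) ↪ t) := by
    rw [← Cardinal.lift_mk_le']
    simpa using h1
  obtain ⟨g⟩ := h2
  have hd : AlgebraicIndependent ℂ (fun i : Fin (n - 1) => ((g i : t) : P.RF)) :=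
    htb.1.comp g g.injective
  choose s hs using fun i : Fin (n - 1) => ht (g i).2
  refine ⟨s, (ri_iff P).2 ⟨fun i => hW _, ?_⟩⟩
  have h3 : (fun i : Fin (n - 1) => P.red ((W ∘ s) i)) = fun i => ((g i : t) : P.RF) :=
    funext hs
  rw [h3]
  exact hd

end Pool.Agent.K7.H5
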