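import Pool.Agent.K7.H5.Pol

/-!
Heights for which each of finitely many vectors is the normal of a facet.
-/

set_option autoImplicit false
set_option linter.overlappingInstances false
set_option linter.unusedSectionVars false

open Pool.Agent.TH152.AC Pool.Agent.TH165.ACC Pool.Agent.R885 Filter

namespace Pool.Agent.K7.H5

variable {r : ℕ}

theorem dot_pos {s : Fin r → ℤ} (hs : s ≠ 0) : 0 < s ⬝ᵥ s := by
  have h1 : 0 ≤ s ⬝ᵥ s := Finset.sum_nonneg fun i _ => mul_self_nonneg _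
  have h2 : s ⬝ᵥ s ≠ 0 := fun h => hs (dotProduct_self_eq_zero.1 h)
  omega

theorem cs_strict {s s' c1 : Fin r → ℤ} (hc1 : c1 ⬝ᵥ s = 1)
    (hp : ∀ g : ℤ, 0 < g → s' = g • s → g = 1) (hne : s' ≠ s) (hpos : 0 < s ⬝ᵥ s') :
    (s ⬝ᵥ s') ^ 2 < (s ⬝ᵥ s) * (s' ⬝ᵥ s') := by
  by_contra hcon
  push Not at hcon
  have hs : s ≠ 0 := by
    rintro rfl
    rw [dotProduct_zero] at hc1
    exact zero_ne_one hc1
  have hss := dot_pos hs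
  obtain ⟨w, hw⟩ : ∃ w : Fin r → ℤ, w = (s ⬝ᵥ s) • s' - (s ⬝ᵥ s') • s := ⟨_, rfl⟩
  have h1 : w ⬝ᵥ w = (s ⬝ᵥ s) * ((s ⬝ᵥ s) * (s' ⬝ᵥ s') - (s ⬝ᵥ s') ^ 2) := by
    rw [hw]
    simp only [sub_dotProduct, dotProduct_sub, smul_dotProduct, dotProduct_smul, smul_eq_mul]
    rw [dotProduct_comm s' s]
    ring
  have h2 : w = 0 := by
    by_contra hw0
    have h3 := dot_pos hw0
    rw [h1] at h3
    nlinarith
  rw [hw, sub_eq_zero] at h2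
  have h3 : s' = (c1 ⬝ᵥ s') • s := by
    have h4 : (s ⬝ᵥ s) * (c1 ⬝ᵥ s') = s ⬝ᵥ s' := by
      have h5 := congrArg (fun z => c1 ⬝ᵥ z) h2
      simp only [dotProduct_smul, smul_eq_mul, hc1, mul_one] at h5
      exact h5
    funext i
    have h5 := congrFun h2 i
    simp only [Pi.smul_apply, smul_eq_mul] at h5 ⊢
    rw [← h4] at h5
    have h6 : (s ⬝ᵥ s) * s' i = (s ⬝ᵥ s) * ((c1 ⬝ᵥ s') * s i) := by
      rw [h5]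
      ring
    exact mul_left_cancel₀ hss.ne' h6
  have h4 : 0 < c1 ⬝ᵥ s' := by
    have h5 : s ⬝ᵥ s' = (c1 ⬝ᵥ s') * (s ⬝ᵥ s) := by
      conv_lhs => rw [h3]
      rw [dotProduct_smul, smul_eq_mul]
    rw [h5] at hpos
    exact pos_of_mul_pos_left hpos hss.le
  have h5 := hp _ h4 h3
  rw [h5, one_smul] at h3
  exact hne h3

theorem exists_rho (S : Finset (Fin r → ℤ)) (h1 : ∀ s ∈ S, ∃ c1 : Fin r → ℤ, c1 ⬝ᵥ s = 1)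
    (hp : ∀ s ∈ S, ∀ s' ∈ S, ∀ g : ℤ, 0 < g → s' = g • s → g = 1) :
    ∃ ρ : (Fin r → ℤ) → ℚ, (∀ s ∈ S, 0 < ρ s) ∧
      ∀ s ∈ S, ∃ q : Fin r → ℚ, dq q s = -ρ s ∧ ∀ s' ∈ S, s' ≠ s → -ρ s' < dq q s' := by
  classical
  have hss : ∀ s ∈ S, 0 < s ⬝ᵥ s := by
    intro s hs
    refine dot_pos ?_
    rintro rfl
    obtain ⟨c1, hc1⟩ := h1 _ hs
    rw [dotProduct_zero] at hc1
    exact zero_ne_one hc1
  obtain ⟨a, ha⟩ : ∃ a : (Fin r → ℤ) → ℝ, a = fun s => Real.sqrt ((s ⬝ᵥ s : ℤ) : ℝ) := ⟨_, rfl⟩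
  have ha0 : ∀ s, 0 ≤ a s := fun s => by rw [ha]; exact Real.sqrt_nonneg _
  have ha2 : ∀ s ∈ S, a s ^ 2 = ((s ⬝ᵥ s : ℤ) : ℝ) := fun s hs => by
    rw [ha]
    exact Real.sq_sqrt (by exact_mod_cast (hss s hs).le)
  have hapos : ∀ s ∈ S, 0 < a s := fun s hs => by
    rw [ha]
    exact Real.sqrt_pos.2 (by exact_mod_cast hss s hs)
  have hlim : ∀ s, Tendsto (fun M : ℝ => (⌊a s * M⌋₊ : ℝ) / M) atTop (nhds (a s)) := fun s =>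
    tendsto_nat_floor_mul_div_atTop (ha0 s)
  have hkey : ∀ s ∈ S, ∀ s' ∈ S, s' ≠ s →
      a s * ((s ⬝ᵥ s' : ℤ) : ℝ) < a s' * ((s ⬝ᵥ s : ℤ) : ℝ) := by
    intro s hs s' hs' hne
    rcases le_or_gt (s ⬝ᵥ s') 0 with h | h
    · have h2 : a s * ((s ⬝ᵥ s' : ℤ) : ℝ) ≤ 0 :=
        mul_nonpos_of_nonneg_of_nonpos (ha0 s) (by exact_mod_cast h)
      have h3 : 0 < a s' * ((s ⬝ᵥ s : ℤ) : ℝ) :=
        mul_pos (hapos s' hs') (by exact_mod_cast hss s hs)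
      linarith
    · obtain ⟨c1, hc1⟩ := h1 s hs
      have h2 := cs_strict hc1 (hp s hs s' hs') hne h
      have h3 : ((s ⬝ᵥ s' : ℤ) : ℝ) ^ 2 < (a s * a s') ^ 2 := by
        rw [mul_pow, ha2 s hs, ha2 s' hs']
        exact_mod_cast h2
      have h4 : ((s ⬝ᵥ s' : ℤ) : ℝ) < a s * a s' := by
        refine lt_of_pow_lt_pow_left₀ 2 (mul_nonneg (ha0 s) (ha0 s')) h3
      rw [← ha2 s hs]
      nlinarith [hapos s hs]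
  have hev : ∀ᶠ M : ℝ in atTop, 0 < M ∧ (∀ s ∈ S, 0 < (⌊a s * M⌋₊ : ℝ) / M) ∧
      ∀ s ∈ S, ∀ s' ∈ S, s' ≠ s → (⌊a s * M⌋₊ : ℝ) / M * ((s ⬝ᵥ s' : ℤ) : ℝ) <
        (⌊a s' * M⌋₊ : ℝ) / M * ((s ⬝ᵥ s : ℤ) : ℝ) := by
    refine (eventually_gt_atTop 0).and (Filter.Eventually.and ?_ ?_)
    · rw [Filter.eventually_all_finset]
      intro s hs
      exact (hlim s).eventually (lt_mem_nhds (hapos s hs))
    · rw [Filter.eventually_all_finset]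
      intro s hs
      rw [Filter.eventually_all_finset]
      intro s' hs'
      by_cases hne : s' = s
      · exact Filter.Eventually.of_forall fun M h => absurd hne h
      · have h2 := ((hlim s).mul_const ((s ⬝ᵥ s' : ℤ) : ℝ)).eventually_lt
          ((hlim s').mul_const ((s ⬝ᵥ s : ℤ) : ℝ)) (hkey s hs s' hs' hne)
        exact h2.mono fun M h _ => h
  obtain ⟨M, hM, hM1, hM2⟩ := hev.exists
  have hρ : ∀ s ∈ S, (0 : ℚ) < ((⌊a s * M⌋₊ : ℕ) : ℚ) := by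
    intro s hs
    have h2 := hM1 s hs
    have h3 : (0 : ℝ) < (⌊a s * M⌋₊ : ℝ) := by
      have h4 := mul_pos h2 hM
      rwa [div_mul_cancel₀ _ hM.ne'] at h4
    exact_mod_cast h3
  refine ⟨fun s => ((⌊a s * M⌋₊ : ℕ) : ℚ), hρ, fun s hs => ?_⟩
  obtain ⟨R, hR⟩ : ∃ R : ℚ, R = ((⌊a s * M⌋₊ : ℕ) : ℚ) := ⟨_, rfl⟩
  have hssq : (0 : ℚ) < ((s ⬝ᵥ s : ℤ) : ℚ) := by exact_mod_cast hss s hs
  have hdq : ∀ v : Fin r → ℤ, dq ((-(R / ((s ⬝ᵥ s : ℤ) : ℚ))) • fun i => (s i : ℚ)) v =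
      -(R / ((s ⬝ᵥ s : ℤ) : ℚ)) * ((s ⬝ᵥ v : ℤ) : ℚ) := by
    intro v
    rw [dq_smul, dq_int]
  refine ⟨(-(R / ((s ⬝ᵥ s : ℤ) : ℚ))) • fun i => (s i : ℚ), ?_, fun s' hs' hne => ?_⟩
  · rw [hdq]
    beta_reduce
    rw [← hR]
    field_simp
  · rw [hdq]
    beta_reduce
    have h2 := hM2 s hs s' hs' hne
    have h3 : (⌊a s * M⌋₊ : ℝ) * ((s ⬝ᵥ s' : ℤ) : ℝ) < (⌊a s' * M⌋₊ : ℝ) * ((s ⬝ᵥ s : ℤ) : ℝ) := by
      rw [div_mul_eq_mul_div, div_mul_eq_mul_div, div_lt_div_iff_of_pos_right hM] at h2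
      exact h2
    have h4 : (((⌊a s * M⌋₊ : ℕ) : ℤ) * (s ⬝ᵥ s')) < (((⌊a s' * M⌋₊ : ℕ) : ℤ) * (s ⬝ᵥ s)) := by
      exact_mod_cast h3
    have h5 : R * ((s ⬝ᵥ s' : ℤ) : ℚ) < ((⌊a s' * M⌋₊ : ℕ) : ℚ) * ((s ⬝ᵥ s : ℤ) : ℚ) := by
      rw [hR]
      exact_mod_cast h4
    have h6 : R / ((s ⬝ᵥ s : ℤ) : ℚ) * ((s ⬝ᵥ s' : ℤ) : ℚ) < ((⌊a s' * M⌋₊ : ℕ) : ℚ) := by
      rw [div_mul_eq_mul_div, div_lt_iff₀ hssq]
      exact h5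
    linarith

end Pool.Agent.K7.H5
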