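import Pool.Agent.K7.H5.Nef
import Pool.Agent.Y191.CanA

/-!
Models of complete intersections in tori which are degenerate at places with a small centre, where
the order of the residue form is large enough.
-/

set_option autoImplicit false
set_option linter.overlappingInstances false
set_option linter.unusedSectionVars false

open FF Pool.Agent.W603.LV Pool.Agent.W619.PQ Pool.Agent.Y173.QA Pool.Agent.R885
  Pool.Agent.W602.GT
open Pool.Agent.Y172 (NormalModel chart Centred localRing IsPrimeDivisor Through OrdGe OrdEq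
  gen_mem chart_localRing mem_localRing exists_centred)
open Pool.Agent.Y191 (Canonical)

namespace Pool.Agent.K7.H5

section

variable {K : Type} [Field K] [Algebra ℂ K] {r : ℕ}

/-- the centre is small: no `m` monomials have independent residues -/
def Small (m : ℕ) (P : Place ℂ K) (x : Fin r → K) : Prop :=
  ∀ s : Fin m → Fin r → ℤ, ¬ ((∀ i, P.Reg (mono x (s i))) ∧
    AlgebraicIndependent ℂ fun i => P.red (mono x (s i)))

open scoped Classical in
/-- the order of the residue form at the lc places -/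
noncomputable def bound {J : Type} [Fintype J] (P : Place ℂ K) (x : Fin r → K)
    (f : J → (Fin r → ℤ) →₀ ℂ) : ℤ :=
  if vec P x = 0 then 0 else -1 - ∑ l, mn (vec P x) (f l)

theorem bound_zero {J : Type} [Fintype J] {P : Place ℂ K} {x : Fin r → K}
    {f : J → (Fin r → ℤ) →₀ ℂ} (h : vec P x = 0) : bound P x f = 0 := by
  unfold bound
  rw [if_pos h]

theorem bound_ne {J : Type} [Fintype J] {P : Place ℂ K} {x : Fin r → K}
    {f : J → (Fin r → ℤ) →₀ ℂ} (h : vec P x ≠ 0) :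
    bound P x f = -1 - ∑ l, mn (vec P x) (f l) := by
  unfold bound
  rw [if_neg h]

end

section

variable {K : Type} [Field K] [Algebra ℂ K] {r n : ℕ} {J : Type} [Fintype J] [DecidableEq J]
  {x : Fin r → K}

/-- the sections, where the order of the residue form is given -/
theorem form_bound (P : Place ℂ K) {e : J ⊕ Fin n ≃ Fin r} (hx : ∀ i, x i ≠ 0)
    {f : J → (Fin r → ℤ) →₀ ℂ} {C0 : Fin n → Fin r → ℤ} {a : ℤ}
    (h : OrdGe P (Om e x f C0) ((bound P x f + a : ℤ) : ℚ))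
    {u : Fin r → ℤ} {c : ℤ} (hc : 0 < c)
    (hu : ∀ v, v ≠ 0 → c * (1 + ∑ l, mn v (f l)) ≤ u ⬝ᵥ v) :
    OrdGe P (fun D => mono x u * Om e x f C0 D ^ c.toNat) ((c * a : ℤ) : ℚ) := by
  intro D hD
  by_cases hOm : mono x u * Om e x f C0 D ^ c.toNat = 0
  · exact Or.inl hOm
  right
  have h1 := form_ne hc hOm
  obtain ⟨-, h2⟩ := ord_form P (u := u) hx hc h1
  have h3 : bound P x f + a ≤ P.ord (Om e x f C0 D) := by
    have h4 := (h D hD).resolve_left h1
    exact_mod_cast h4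
  have h5 : c * a ≤ P.ord (mono x u * Om e x f C0 D ^ c.toNat) := by
    rw [h2]
    by_cases hv : vec P x = 0
    · rw [bound_zero hv] at h3
      rw [hv, dotProduct_zero, add_zero]
      nlinarith
    · rw [bound_ne hv] at h3
      have h7 := hu _ hv
      nlinarith
  beta_reduce
  exact_mod_cast h5

end

section

variable {K : Type} [Field K] [Algebra ℂ K]

/-- **The model.** -/
theorem exists_model_sing {n q r : ℕ} (hn : 1 ≤ n) (hr : r = n + q)
    (htr : Algebra.trdeg ℂ K = (n : ℕ)) {x : Fin r → K} (hx : ∀ i, x i ≠ 0)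
    (hgen : IntermediateField.adjoin ℂ (Set.range x) = ⊤) {f : Fin q → (Fin r → ℤ) →₀ ℂ}
    (hf : ∀ l, ev x (f l) = 0) {e : Fin q ⊕ Fin n ≃ Fin r} {C0 : Fin n → Fin r → ℤ}
    (h0 : dt e (fun l => gr x (f l)) C0 ≠ 0) (hne : (FineInt f).Nonempty)
    (hlc : ∀ P : Place ℂ K, Divisorial n P → N.NDP P x f ∨
      (Small (n - 1) P x ∧ OrdGe P (Om e x f C0) ((bound P x f : ℤ) : ℚ))) :
    ∃ (N : ℕ) (y : Fin (N + 1) → K), NormalModel y ∧ Canonical y n ∧ CanonicalSemiample y n ∧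
      ((∀ P : Place ℂ K, Divisorial n P → Pool.Agent.R885.N.NDP P x f ∨
        OrdGe P (Om e x f C0) ((bound P x f + 1 : ℤ) : ℚ)) → Terminal y n) := by
  classical
  obtain ⟨m, rfl⟩ : ∃ m, n = m + 1 := ⟨n - 1, by omega⟩
  have hf0 : ∀ l, f l ≠ 0 := by
    intro l hl
    apply h0
    unfold dt
    refine Matrix.det_eq_zero_of_row_eq_zero (Sum.inl l) fun j => ?_
    rw [Matrix.of_apply]
    change gr x (f l) (e j) = 0
    rw [hl]
    exact Finsupp.sum_zero_index
  have hfin : ∀ y : Fin (m + 1) → K, IsTranscendenceBasis ℂ y →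
      FiniteDimensional (IntermediateField.adjoin ℂ (Set.range y)) K :=
    fun y hy => hfin_of_gen hgen hy
  obtain ⟨c, V, S, B, β, pd⟩ : ∃ (c : ℤ) (V S B : Finset (Fin r → ℤ)) (β : (Fin r → ℤ) → ℤ),
      PD f c V S B β := by
    obtain ⟨u0, hu0⟩ := hne
    obtain ⟨V0, h1, h2⟩ := N.fin_red hf0 (const_zero hf0 hu0)
    exact exists_PD hf0 ⟨V0, h1, fun u hu => mem_fine'.2 (h2 u 1 zero_le_one hu)⟩ ⟨u0, hu0⟩
  have hc := pd.hc
  -- the coordinates
  obtain ⟨b0, hb0, hb0e⟩ := pd.gen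
  obtain ⟨M, hM⟩ : ∃ M, B.card = M + 1 := ⟨B.card - 1, by
    have := Finset.card_pos.2 ⟨b0, hb0⟩
    omega⟩
  let ε : B ≃ Fin (M + 1) := B.equivFinOfCardEq hM
  obtain ⟨U, hU⟩ : ∃ U : Fin (M + 1) → K, U = fun i => mono x ((ε.symm i : B) : Fin r → ℤ) :=
    ⟨_, rfl⟩
  have hUB : ∀ b (hb : b ∈ B), U (ε ⟨b, hb⟩) = mono x b := by
    intro b hb
    rw [hU]
    beta_reduce
    rw [Equiv.symm_apply_apply]
  have hU0 : ∀ i, U i ≠ 0 := by
    intro i
    rw [hU]
    exact mono_ne hx _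
  have hrat : ∀ b (hb : b ∈ B) b' (hb' : b' ∈ B),
      U (ε ⟨b', hb'⟩) / U (ε ⟨b, hb⟩) = mono x (b' - b) := by
    intro b hb b' hb'
    rw [hUB, hUB, mono_sub hx]
  have hfield : IntermediateField.adjoin ℂ (Set.range fun i => U i / U 0) = ⊤ := by
    rw [eq_top_iff, ← hgen, IntermediateField.adjoin_le_iff]
    rintro _ ⟨i, rfl⟩
    have h1 : x i = (U (ε ⟨_, hb0e i⟩) / U 0) / (U (ε ⟨b0, hb0⟩) / U 0) := by
      rw [div_div_div_cancel_right₀ (hU0 0), hrat, add_sub_cancel_left, mono_single]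
    rw [h1]
    exact div_mem (IntermediateField.subset_adjoin _ _ ⟨_, rfl⟩)
      (IntermediateField.subset_adjoin _ _ ⟨_, rfl⟩)
  obtain ⟨N', y, hy, hch⟩ := exists_normal hU0 hfield
  choose j hj0 hj using hch
  -- the charts
  have hmc : ∀ b (hb : b ∈ B) b' (_ : b' ∈ B), mono x (b' - b) ∈ chart y (j (ε ⟨b, hb⟩)) := by
    intro b hb b' hb'
    rw [hj, ← hrat b hb b' hb']
    exact isIntegral_algebraMap (R := chart U (ε ⟨b, hb⟩)) (A := K)
      (x := ⟨_, gen_mem U (ε ⟨b, hb⟩) (ε ⟨b', hb'⟩)⟩)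
  have hreg0 : ∀ (Q : Place ℂ K) b (hb : b ∈ B), (∀ b' ∈ B, b ⬝ᵥ vec Q x ≤ b' ⬝ᵥ vec Q x) →
      ∀ a ∈ chart U (ε ⟨b, hb⟩), Q.Reg a := by
    intro Q b hb hmin a ha
    have h1 : chart U (ε ⟨b, hb⟩) ≤ ({ Q.O.toSubring with
        algebraMap_mem' := fun c => Q.reg_const c } : Subalgebra ℂ K) := by
      apply Algebra.adjoin_le
      rintro _ ⟨i, rfl⟩
      obtain ⟨⟨b', hb'⟩, rfl⟩ := ε.surjective i
      change Q.Reg (U (ε ⟨b', hb'⟩) / U (ε ⟨b, hb⟩))
      rw [hrat]
      right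
      rw [ord_mono Q hx, sub_dotProduct]
      exact sub_nonneg.2 (hmin b' hb')
    exact h1 ha
  have hcen : ∀ (Q : Place ℂ K) b (hb : b ∈ B), (∀ b' ∈ B, b ⬝ᵥ vec Q x ≤ b' ⬝ᵥ vec Q x) →
      Centred y (j (ε ⟨b, hb⟩)) Q := by
    intro Q b hb hmin
    refine ⟨hj0 _, fun i => ?_⟩
    exact mem_val_of_int (V := Q.O) (hreg0 Q b hb hmin) ((hj _ _).1 (gen_mem y _ i))
  have hminex : ∀ Q : Place ℂ K, ∃ b ∈ B, ∀ b' ∈ B, b ⬝ᵥ vec Q x ≤ b' ⬝ᵥ vec Q x := fun Q =>
    Finset.exists_min_image B (fun b => b ⬝ᵥ vec Q x) ⟨b0, hb0⟩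
  have hthr : ∀ (P Q : Place ℂ K), Through y P Q → ∀ b ∈ B,
      (∀ b' ∈ B, b ⬝ᵥ vec Q x ≤ b' ⬝ᵥ vec Q x) → ∀ b' ∈ B, b ⬝ᵥ vec P x ≤ b' ⬝ᵥ vec P x := by
    intro P Q hPQ b hb hmin b' hb'
    have h1 := hPQ _ (chart_localRing (hcen Q b hb hmin) (hmc b hb b' hb'))
    have h2 := (P.reg_iff (mono_ne hx _)).1 h1
    rw [ord_mono P hx, sub_dotProduct] at h2
    omega
  -- the prime divisors
  have hprime : ∀ P, IsPrimeDivisor y P → ∀ b ∈ B,
      (∀ b' ∈ B, b ⬝ᵥ vec P x ≤ b' ⬝ᵥ vec P x) → ∃ s : Fin m → Fin r → ℤ, (∀ i, s i ∈ B) ∧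
        ∀ p : MvPolynomial (Fin m) ℂ, p ≠ 0 →
          MvPolynomial.aeval (fun i => mono x (s i - b)) p ≠ 0 ∧
            P.ord (MvPolynomial.aeval (fun i => mono x (s i - b)) p) = 0 := by
    intro P hP b hb hmin
    have hPc := hcen P b hb hmin
    obtain ⟨s, hs⟩ := exists_res P (hP.divisorial hy htr)
      (W := fun i => U i / U (ε ⟨b, hb⟩)) (fun i => hreg0 P b hb hmin _ (gen_mem U _ i))
      (fun g hg => by
        obtain ⟨a, ha, b', hb', h1, h2, h3⟩ := (mem_localRing hPc).1 (hP g hg)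
        exact ⟨a, b', (hj _ _).1 ha, (hj _ _).1 hb', h1, h2, h3⟩)
    have h1 : ((fun i => U i / U (ε ⟨b, hb⟩)) ∘ s) =
        fun i => mono x (((ε.symm (s i) : B) : Fin r → ℤ) - b) := by
      funext i
      rw [← hrat b hb _ (ε.symm (s i)).2]
      change U (s i) / _ = U (ε (ε.symm (s i))) / _
      rw [Equiv.apply_symm_apply]
    rw [h1] at hs
    exact ⟨fun i => ((ε.symm (s i) : B) : Fin r → ℤ), fun i => (ε.symm (s i)).2, hs⟩
  -- the sections
  have hpl : ∀ u : Fin r → ℤ,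
      IsPluri (k := ℂ) (K := K) c.toNat (fun D : Fin (m + 1) → Derivation ℂ K K =>
        mono x u * Om e x f C0 D ^ c.toNat) := by
    intro u A D
    have h1 := om_pluri e x f C0 c.toNat A D
    beta_reduce at h1 ⊢
    rw [h1]
    ring
  have hge : ∀ u ∈ V, ∀ P : Place ℂ K, Divisorial (m + 1) P →
      OrdGe P (fun D : Fin (m + 1) → Derivation ℂ K K =>
      mono x u * Om e x f C0 D ^ c.toNat) 0 := by
    intro u hu P hP
    rcases hlc P hP with h1 | ⟨-, h1⟩
    · exact form_ge P hx hf0 hf h1 h0 hc (pd.fine u hu)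
    · have h2 := form_bound (a := 0) P hx (by rw [add_zero]; exact h1) hc (pd.fine u hu)
      rw [mul_zero, Int.cast_zero] at h2
      exact h2
  have hndp : ∀ P, IsPrimeDivisor y P → N.NDP P x f := by
    intro P hP
    rcases hlc P (hP.divisorial hy htr) with h1 | ⟨h1, -⟩
    · exact h1
    · exfalso
      obtain ⟨b, hb, hmin⟩ := hminex P
      obtain ⟨s, hsB, hs⟩ := hprime P hP b hb hmin
      exact h1 (fun i => s i - b) ((ri_iff P).1 hs)
  have hfacet : ∀ b ∈ B, ∀ t ∈ S, (∀ b' ∈ B, b ⬝ᵥ t ≤ b' ⬝ᵥ t) → b ⬝ᵥ t = β t := by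
    intro b hb t ht hmin
    obtain ⟨b1, hb1, -, -, h1, -⟩ := pd.facet t ht
    exact le_antisymm (h1 ▸ hmin b1 hb1) (pd.lower b hb t ht)
  have heq : ∀ P, IsPrimeDivisor y P → ∀ b ∈ B, (∀ b' ∈ B, b ⬝ᵥ vec P x ≤ b' ⬝ᵥ vec P x) →
      ∀ u ∈ V, (∀ s ∈ S, b ⬝ᵥ s = β s → u ⬝ᵥ s = c * (1 + ∑ l, mn s (f l))) →
        OrdEq P (fun D : Fin (m + 1) → Derivation ℂ K K =>
          mono x u * Om e x f C0 D ^ c.toNat) 0 := by
    intro P hP b hb hmin u hu hub
    refine ⟨hge u hu P (hP.divisorial hy htr), ?_⟩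
    obtain ⟨s, hsB, hs⟩ := hprime P hP b hb hmin
    have h1 := vec_cases htr hfin P hx hf0 hf (hndp P hP) hr pd hb hmin hsB hs
    have h2 : vec P x = 0 ∨ ∃ (s c1 : Fin r → ℤ) (α : ℤ), 0 < α ∧ vec P x = α • s ∧ c1 ⬝ᵥ s = 1 ∧
        u ⬝ᵥ s = c * (1 + ∑ l, mn s (f l)) := by
      rcases h1 with h1 | ⟨t, ht, α, hα, h1⟩
      · exact Or.inl h1
      · right
        obtain ⟨c1, hc1⟩ := pd.dot1 t ht
        refine ⟨t, c1, α, hα, h1, hc1, hub t ht (hfacet b hb t ht fun b' hb' => ?_)⟩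
        have h2 := hmin b' hb'
        rw [h1, dotProduct_smul, dotProduct_smul, smul_eq_mul, smul_eq_mul] at h2
        exact le_of_mul_le_mul_left h2 hα
    obtain ⟨D, hD1, hD2, hD3⟩ := N.frame_at htr hfin P hx hgen hf0 hf (hndp P hP) hs
      (fun i => A0_le P x (mono_mem P x (by
        rw [sub_dotProduct]
        exact sub_nonneg.2 (hmin _ (hsB i))))) h0 h2
    obtain ⟨h3, h4⟩ := ord_form P (u := u) hx hc hD2
    refine ⟨D, hD1, h3, ?_⟩
    beta_reduce
    rw [h4, hD3, Int.cast_zero]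
  refine ⟨N', y, hy, fun Q hQ => ?_, ⟨c.toNat, by omega, fun Q hQ => ?_⟩, fun htm Q hQ => ?_⟩
  · -- canonical
    obtain ⟨b, hb, hmin⟩ := hminex Q
    obtain ⟨u, hu, hub⟩ := pd.near b hb
    exact ⟨c.toNat, by omega, _, hpl u, fun P hP hPQ =>
      heq P hP b hb (hthr P Q hPQ b hb hmin) u hu hub, hge u hu Q hQ⟩
  · -- semiample
    obtain ⟨b, hb, hmin⟩ := hminex Q
    obtain ⟨u, hu, hub⟩ := pd.near b hb
    exact ⟨_, hpl u, fun P hP => hge u hu P (hP.divisorial hy htr), fun P hP hPQ =>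
      heq P hP b hb (hthr P Q hPQ b hb hmin) u hu hub⟩
  · -- terminal
    obtain ⟨b, hb, hmin⟩ := hminex Q
    obtain ⟨u, hu, hub⟩ := pd.near b hb
    refine ⟨c.toNat, by omega, _, hpl u, fun P hP hPQ =>
      heq P hP b hb (hthr P Q hPQ b hb hmin) u hu hub, ?_⟩
    rcases htm Q hQ with hndQ | hst
    swap
    · right
      refine ⟨c, by exact_mod_cast hc, ?_⟩
      have h2 := form_bound (a := 1) Q hx hst hc (pd.fine u hu)
      rw [mul_one] at h2
      exact h2
    by_contra hcon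
    rw [not_or] at hcon
    obtain ⟨hnp, hcon⟩ := hcon
    apply hcon
    refine ⟨1, one_pos, fun D hD => ?_⟩
    by_contra hD1
    rw [not_or] at hD1
    obtain ⟨hD0, hD1⟩ := hD1
    beta_reduce at hD0 hD1
    have hOm := form_ne hc hD0
    obtain ⟨-, h2⟩ := ord_form Q (u := u) hx hc hOm
    obtain ⟨h3, h4⟩ := N.om_ge Q hx hf0 hf hndQ h0 hD
    have h5 : Q.ord (mono x u * Om e x f C0 D ^ c.toNat) < 1 := by
      rw [not_le] at hD1
      exact_mod_cast hD1
    rw [h2] at h5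
    obtain ⟨w, hw⟩ := hQ
    -- independent monomials in the local ring
    have hfinal : ∀ (C : Fin m → Fin r → ℤ) (d : Fin m → ℕ), (∀ i, 0 < d i) →
        (∀ p : MvPolynomial (Fin m) ℂ, p ≠ 0 → MvPolynomial.aeval (fun i => mono x (C i)) p ≠ 0 ∧
          Q.ord (MvPolynomial.aeval (fun i => mono x (C i)) p) = 0) →
        (∀ i, mono x (C i) ^ d i ∈ localRing y Q) → False := by
      intro C d hd hC hCd
      exact hnp (prime_of_res hy htr hCd (pow_res Q hd hC))
    by_cases hv : vec Q x = 0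
    · have h6 := (h4 hv).resolve_left hOm
      have h7 : Q.ord (Om e x f C0 D) = 0 := by
        rw [hv, dotProduct_zero, add_zero] at h5
        nlinarith
      obtain ⟨C, -, hC⟩ := exists_ind htr hfin Q hx hf0 hf hndQ hw h0 hD hOm
        (Or.inl ⟨hv, h7⟩)
      refine hfinal C (fun _ => 1) (fun _ => one_pos) hC fun i => ?_
      rw [pow_one]
      have hmin0 : ∀ b' ∈ B, b0 ⬝ᵥ vec Q x ≤ b' ⬝ᵥ vec Q x := fun b' _ => by
        rw [hv, dotProduct_zero, dotProduct_zero]
      have h8 : ∀ i, x i ∈ localRing y Q := by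
        intro i
        have h9 := hmc b0 hb0 _ (hb0e i)
        rw [add_sub_cancel_left, mono_single] at h9
        exact chart_localRing (hcen Q b0 hb0 hmin0) h9
      have h9 : ∀ i, Q.ord (x i) = 0 := fun i => congrFun hv i
      have h10 : ∀ (i : Fin r) (z : ℤ), x i ^ z ∈ LR hy Q := by
        intro i z
        rcases Int.le_total 0 z with hz | hz
        · obtain ⟨a, rfl⟩ := Int.eq_ofNat_of_zero_le hz
          rw [zpow_natCast]
          exact (LR hy Q).pow_mem (h8 i) _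
        · obtain ⟨a, ha⟩ := Int.eq_ofNat_of_zero_le (neg_nonneg.2 hz)
          have h11 : x i ^ z = (x i)⁻¹ ^ a := by
            rw [inv_pow, ← zpow_natCast, ← ha, zpow_neg, inv_inv]
          rw [h11]
          exact (LR hy Q).pow_mem (inv_localRing hy (h8 i) (hx i) (h9 i)) _
      exact (LR hy Q).prod_mem fun k _ => h10 k _
    · have h6 := h3.resolve_left hOm
      have h7 := pd.fine u hu _ hv
      have h8 : u ⬝ᵥ vec Q x = c * (1 + ∑ l, mn (vec Q x) (f l)) := by
        nlinarith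
      have h9 : Q.ord (Om e x f C0 D) = -1 - ∑ l, mn (vec Q x) (f l) := by
        rw [h8] at h5
        nlinarith
      have hvS : vec Q x ∈ S := (pd.tight _).2 ⟨hv, u, hu, h8⟩
      obtain ⟨C, hC0, hC⟩ := exists_ind htr hfin Q hx hf0 hf hndQ hw h0 hD hOm
        (Or.inr ⟨pd.dot1 _ hvS, h9⟩)
      obtain ⟨b1, hb1, M1, hM1, hb1β, hb1e⟩ := pd.facet _ hvS
      obtain ⟨v, hvd⟩ : ∃ v, v = vec Q x := ⟨_, rfl⟩
      rw [← hvd] at hv hvS hC0 hb1β hb1e
      have hmin1 : ∀ b' ∈ B, b1 ⬝ᵥ vec Q x ≤ b' ⬝ᵥ vec Q x := fun b' hb' => by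
        rw [← hvd, hb1β]
        exact pd.lower b' hb' _ hvS
      have hvv : 0 < v ⬝ᵥ v := dot_pos hv
      obtain ⟨W, hW⟩ : ∃ W : Fin r → Fin r → ℤ, W = fun i =>
        M1 • ((v ⬝ᵥ v) • (Pi.single i 1 : Fin r → ℤ) - v i • v) := ⟨_, rfl⟩
      have h10 : ∀ i, mono x (W i) ∈ localRing y Q := by
        intro i
        have h11 := hmc b1 hb1 _ (hb1e i)
        rw [add_sub_cancel_left] at h11
        rw [hW]
        exact chart_localRing (hcen Q b1 hb1 hmin1) h11
      have h11 : ∀ i, Q.ord (mono x (W i)) = 0 := by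
        intro i
        rw [ord_mono Q hx, ← hvd, hW]
        beta_reduce
        rw [smul_dotProduct, sub_dotProduct, smul_dotProduct, smul_dotProduct,
          single_one_dotProduct, smul_eq_mul, smul_eq_mul, smul_eq_mul]
        ring
      have h12 : ∀ (i : Fin r) (z : ℤ), mono x (W i) ^ z ∈ LR hy Q := by
        intro i z
        rcases Int.le_total 0 z with hz | hz
        · obtain ⟨a, rfl⟩ := Int.eq_ofNat_of_zero_le hz
          rw [zpow_natCast]
          exact (LR hy Q).pow_mem (h10 i) _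
        · obtain ⟨a, ha⟩ := Int.eq_ofNat_of_zero_le (neg_nonneg.2 hz)
          have h13 : mono x (W i) ^ z = (mono x (W i))⁻¹ ^ a := by
            rw [inv_pow, ← zpow_natCast, ← ha, zpow_neg, inv_inv]
          rw [h13]
          exact (LR hy Q).pow_mem (inv_localRing hy (h10 i) (mono_ne hx _) (h11 i)) _
      refine hfinal C (fun _ => (M1 * (v ⬝ᵥ v)).toNat) (fun _ => ?_) hC fun i => ?_
      · have := mul_pos hM1 hvv
        omega
      · have h13 : mono x (C i) ^ (M1 * (v ⬝ᵥ v)).toNat = ∏ k, mono x (W k) ^ C i k := by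
          have h14 : (M1 * (v ⬝ᵥ v)) • C i = ∑ k, C i k • W k := by
            rw [hW]
            have h15 : ∀ k, C i k • (M1 • ((v ⬝ᵥ v) • (Pi.single k 1 : Fin r → ℤ) - v k • v)) =
                (M1 * (v ⬝ᵥ v)) • (C i k • (Pi.single k 1 : Fin r → ℤ)) -
                  (M1 * (C i k * v k)) • v := by
              intro k
              funext a
              simp only [Pi.smul_apply, Pi.sub_apply, smul_eq_mul]
              ring
            simp only [h15]
            rw [Finset.sum_sub_distrib, ← Finset.smul_sum, ← Finset.sum_smul, ← Finset.mul_sum]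
            have h16 : ∑ k, C i k * v k = 0 := hC0 i
            have h17 : ∑ k, C i k • (Pi.single k 1 : Fin r → ℤ) = C i := by
              funext a
              rw [Finset.sum_apply, Finset.sum_eq_single a]
              · rw [Pi.smul_apply, Pi.single_eq_same, smul_eq_mul, mul_one]
              · intro k _ hk
                rw [Pi.smul_apply, Pi.single_eq_of_ne hk.symm, smul_zero]
              · intro h
                exact absurd (Finset.mem_univ _) h
            rw [h16, h17, mul_zero, zero_smul, sub_zero]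
          have h15 : mono x (C i) ^ (M1 * (v ⬝ᵥ v)).toNat = mono x ((M1 * (v ⬝ᵥ v)) • C i) := by
            rw [mono_zsmul, ← zpow_natCast, Int.toNat_of_nonneg (mul_pos hM1 hvv).le]
          have h16 : ∀ s : Finset (Fin r), mono x (∑ k ∈ s, C i k • W k) =
              ∏ k ∈ s, mono x (W k) ^ C i k := by
            intro s
            induction s using Finset.induction_on with
            | empty => rw [Finset.sum_empty, Finset.prod_empty, mono_zero]
            | insert a s ha ih =>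
              rw [Finset.sum_insert ha, Finset.prod_insert ha, mono_add hx, ih, mono_zsmul]
          rw [h15, h14, h16]
        rw [h13]
        exact (LR hy Q).prod_mem fun k _ => h12 k _

end

end Pool.Agent.K7.H5
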