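import Pool.Agent.K7.H5.Sing

/-!
Nondegeneracy at a place in terms of the order of a determinant.
-/

set_option autoImplicit false
set_option linter.overlappingInstances false
set_option linter.unusedSectionVars false

open FF Pool.Agent.W603.LV Pool.Agent.W619.PQ Pool.Agent.Y173.QA Pool.Agent.R885
  Pool.Agent.W602.GT

namespace Pool.Agent.K7.H5

section

variable {K : Type} [Field K] [Algebra ℂ K] {r n : ℕ} {J : Type} [Fintype J] [DecidableEq J]
  {x : Fin r → K}

/-- the order of the determinant is minimal: the system is nondegenerate -/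
theorem ndp_of_dt (P : Place ℂ K) {e : J ⊕ Fin n ≃ Fin r} (hx : ∀ i, x i ≠ 0)
    {f : J → (Fin r → ℤ) →₀ ℂ} (hf0 : ∀ l, f l ≠ 0) {C : Fin n → Fin r → ℤ}
    (h0 : dt e (fun l => gr x (f l)) C ≠ 0)
    (h : P.ord (dt e (fun l => gr x (f l)) C) = ∑ l, mn (vec P x) (f l)) : N.NDP P x f := by
  classical
  intro _
  have hpt := pt_ne P hx
  choose m0 hm0 hm0' using fun l => exists_mn (hf0 l) (vec P x)
  have h3 : dt e (fun l => gr x (f l)) C = (∏ l, mono x (m0 l)) *
      dt e (fun l => gr' x (f l) (m0 l)) C := dt_scale fun l i => gr_eq hx (f l) (m0 l) i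
  have h4 : ∏ l, mono x (m0 l) ≠ 0 := Finset.prod_ne_zero_iff.2 fun l _ => mono_ne hx _
  have h5 : ∀ s : Finset J, P.ord (∏ l ∈ s, mono x (m0 l)) = ∑ l ∈ s, mn (vec P x) (f l) := by
    intro s
    induction s using Finset.induction_on with
    | empty => simp [P.ord_one]
    | insert a s ha ih =>
      rw [Finset.prod_insert ha, Finset.sum_insert ha, P.ord_mul (mono_ne hx _)
        (Finset.prod_ne_zero_iff.2 fun l _ => mono_ne hx _), ih, ord_mono P hx, hm0']
  have h6 : dt e (fun l => gr' x (f l) (m0 l)) C ≠ 0 := by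
    intro h7
    apply h0
    rw [h3, h7, mul_zero]
  have h7 : P.ord (dt e (fun l => gr' x (f l) (m0 l)) C) = 0 := by
    rw [h3, P.ord_mul h4 h6, h5] at h
    linarith
  -- the residues
  obtain ⟨A, hA⟩ : ∃ A : Matrix (J ⊕ Fin n) (J ⊕ Fin n) K,
      A = Matrix.of fun a b => rows (fun l => gr' x (f l) (m0 l)) C a (e b) := ⟨_, rfl⟩
  have hAreg : ∀ i j, P.Reg (A i j) := by
    intro i j
    rw [hA]
    rcases i with l | b
    · exact reg_gr' P hx (f l) (hm0' l) (e j)
    · exact reg_int P (C b (e j))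
  obtain ⟨h8, h9⟩ := Pool.Agent.R885.red_det P A hAreg
  have hAdt : A.det = dt e (fun l => gr' x (f l) (m0 l)) C := by rw [hA]; rfl
  have h10 : (A.map P.red).det ≠ 0 := by
    rw [← h9]
    exact P.red_ne_zero (hAdt ▸ h6) (by rw [hAdt]; exact h7)
  have h11 : LinearIndependent P.RF (A.map P.red).row :=
    Matrix.linearIndependent_rows_iff_isUnit.2
      ((Matrix.isUnit_iff_isUnit_det _).2 (isUnit_iff_ne_zero.2 h10))
  have h12 : LinearIndependent P.RF fun l i => P.red (gr' x (f l) (m0 l) i) := by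
    have h13 := h11.comp Sum.inl Sum.inl_injective
    refine LinearIndependent.of_comp (LinearMap.funLeft P.RF P.RF (e : J ⊕ Fin n → Fin r)) ?_
    have h14 : (LinearMap.funLeft P.RF P.RF (e : J ⊕ Fin n → Fin r)) ∘
        (fun l i => P.red (gr' x (f l) (m0 l) i)) = (A.map P.red).row ∘ Sum.inl := by
      funext l b
      rw [hA]
      rfl
    rw [h14]
    exact h13
  have h15 := h12.units_smul fun l => Units.mk0 (mono (pt P x) (m0 l)) (mono_ne hpt _)
  have h16 : (fun l => gr (pt P x) (ini (vec P x) (f l))) =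
      (fun l => Units.mk0 (mono (pt P x) (m0 l)) (mono_ne hpt _)) •
        fun l i => P.red (gr' x (f l) (m0 l) i) := by
    funext l i
    change _ = (mono (pt P x) (m0 l) • fun i => P.red (gr' x (f l) (m0 l) i)) i
    rw [Pi.smul_apply, smul_eq_mul, red_gr' P hx (f l) (hm0' l), mul_div_cancel₀]
    exact mono_ne hpt _
  rw [h16]
  exact h15

end

end Pool.Agent.K7.H5
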