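import Pool.Agent.K7.H14.TG.Stm

/-! Project TG, job EX: the example, a non-primitive digraph on `c + 1` vertices. -/

set_option autoImplicit false

namespace Pool.Agent.K7.H5.TGEX

open Pool.Agent.K7.H14.TG

theorem wk_trans {α : Type} {G : α → α → Prop} {k l : ℕ} {x y z : α} (h : Wk G k x y)
    (h' : Wk G l y z) : Wk G (k + l) x z := by
  induction l generalizing z with
  | zero =>
    have h2 : y = z := h'
    subst h2
    exact h
  | succ l ih =>
    obtain ⟨w, hw, hg⟩ := h'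
    exact ⟨w, ih hw, hg⟩

/-- The arcs, in terms of the positions. -/
def R (c : ℕ) (a b : ℕ) : Prop :=
  (b = a + 1 ∧ b ≤ c - 1) ∨ (b = 0 ∧ (a = c - 1 ∨ a = c - 2)) ∨ (a = 0 ∧ b = c)

/-- representable numbers -/
theorem repr (a n : ℕ) (ha : 1 ≤ a) (hn : a * (a - 1) ≤ n) : ∃ x y : ℕ, n = x * a + y * (a + 1) := by
  obtain ⟨q, hq⟩ : ∃ q, q = n / a := ⟨_, rfl⟩
  obtain ⟨r, hr⟩ : ∃ r, r = n % a := ⟨_, rfl⟩
  have h1 : n = a * q + r := by rw [hq, hr]; exact (Nat.div_add_mod n a).symm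
  have h2 : r < a := by rw [hr]; exact Nat.mod_lt _ ha
  have h3 : a - 1 ≤ q := by
    rw [hq]
    exact (Nat.le_div_iff_mul_le ha).2 (by rw [mul_comm]; exact hn)
  obtain ⟨d, hd⟩ : ∃ d, q = r + d := ⟨q - r, by omega⟩
  refine ⟨d, r, ?_⟩
  rw [h1, hd]
  ring

theorem not_repr (a x y : ℕ) (ha : 3 ≤ a) : a * a - a - 1 ≠ x * a + y * (a + 1) := by
  intro h
  have h0 : a * 3 ≤ a * a := Nat.mul_le_mul_left a ha
  have h1 : a * a = (x + y + 1) * a + (y + 1) := by
    have e : (x + y + 1) * a + (y + 1) = (x * a + y * (a + 1)) + a + 1 := by ring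
    rw [e, ← h]
    omega
  have h2 : a ∣ y + 1 := by
    have h3 : a ∣ (x + y + 1) * a + (y + 1) := ⟨a, h1.symm⟩
    exact (Nat.dvd_add_right (Dvd.intro_left _ rfl)).1 h3
  have h4 : a ≤ y + 1 := Nat.le_of_dvd (Nat.succ_pos _) h2
  have h5 : (x + y + 1) * a + (y + 1) ≥ (a - 1 + 1) * a + 1 := by
    have : (a - 1 + 1) * a ≤ (x + y + 1) * a := Nat.mul_le_mul_right a (by omega)
    omega
  have h6 : a - 1 + 1 = a := by omega
  rw [h6] at h5
  omega

section

variable {α : Type} {c : ℕ} (p : α → ℕ) (j : α) (hj : p j = 0)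
  (hinj : ∀ u v, p u = p v → u = v) (hsur : ∀ i, i ≤ c → ∃ v, p v = i) (hc : 4 ≤ c)

include hj hinj hsur hc

theorem path : ∀ i, i ≤ c - 1 → ∀ v, p v = i → Wk (fun u v => R c (p u) (p v)) i j v := by
  intro i
  induction i with
  | zero =>
    intro _ v hv
    exact hinj j v (by rw [hj, hv])
  | succ i ih =>
    intro hi v hv
    obtain ⟨z, hz⟩ := hsur i (by omega)
    refine ⟨z, ih (by omega) z hz, Or.inl ⟨by rw [hv, hz], by rw [hv]; exact hi⟩⟩

theorem loopA : Wk (fun u v => R c (p u) (p v)) (c - 1) j j := by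
  obtain ⟨z, hz⟩ := hsur (c - 2) (by omega)
  have h := path p j hj hinj hsur hc (c - 2) (by omega) z hz
  have e : c - 1 = (c - 2) + 1 := by omega
  rw [e]
  exact ⟨z, h, Or.inr (Or.inl ⟨hj, Or.inr hz⟩)⟩

theorem loopB : Wk (fun u v => R c (p u) (p v)) c j j := by
  obtain ⟨z, hz⟩ := hsur (c - 1) (by omega)
  have h := path p j hj hinj hsur hc (c - 1) le_rfl z hz
  have h2 : Wk (fun u v => R c (p u) (p v)) ((c - 1) + 1) j j :=
    ⟨z, h, Or.inr (Or.inl ⟨hj, Or.inl hz⟩)⟩
  have e : (c - 1) + 1 = c := by omega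
  rwa [e] at h2

theorem loops (x y : ℕ) : Wk (fun u v => R c (p u) (p v)) (x * (c - 1) + y * c) j j := by
  have h1 : ∀ x : ℕ, Wk (fun u v => R c (p u) (p v)) (x * (c - 1)) j j := by
    intro x
    induction x with
    | zero => rw [zero_mul]; exact (rfl : j = j)
    | succ x ih =>
      rw [Nat.succ_mul]
      exact wk_trans ih (loopA p j hj hinj hsur hc)
  have h2 : ∀ y : ℕ, Wk (fun u v => R c (p u) (p v)) (y * c) j j := by
    intro y
    induction y with
    | zero => rw [zero_mul]; exact (rfl : j = j)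
    | succ y ih =>
      rw [Nat.succ_mul]
      exact wk_trans ih (loopB p j hj hinj hsur hc)
  exact wk_trans (h1 x) (h2 y)

theorem inv (k : ℕ) : ∀ v, Wk (fun u v => R c (p u) (p v)) k j v → p v < c →
    ∃ x y : ℕ, k = p v + (x * (c - 1) + y * c) := by
  induction k with
  | zero =>
    intro v hv _
    have h : j = v := hv
    exact ⟨0, 0, by rw [← h, hj]; simp⟩
  | succ k ih =>
    rintro v ⟨z, hz, hR⟩ hv
    rcases hR with ⟨h1, h2⟩ | ⟨h1, h2 | h2⟩ | ⟨_, h2⟩
    · obtain ⟨x, y, h⟩ := ih z hz (by omega)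
      exact ⟨x, y, by rw [h1, h]; ring⟩
    · obtain ⟨x, y, h⟩ := ih z hz (by omega)
      refine ⟨x, y + 1, ?_⟩
      rw [h1, h, h2, Nat.succ_mul]
      omega
    · obtain ⟨x, y, h⟩ := ih z hz (by omega)
      refine ⟨x + 1, y, ?_⟩
      rw [h1, h, h2, Nat.succ_mul]
      omega
    · exact absurd h2 (by omega)

end

theorem t : StEx := by
  intro c hc j
  obtain ⟨p, hp⟩ : ∃ p : Fin (c + 1) → ℕ, p = fun v => (v - j).val := ⟨_, rfl⟩
  have hj : p j = 0 := by rw [hp]; simp
  have hle : ∀ v, p v ≤ c := by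
    intro v
    rw [hp]
    exact Nat.lt_succ_iff.1 (v - j).isLt
  have hinj : ∀ u v, p u = p v → u = v := by
    intro u v h
    rw [hp] at h
    exact sub_left_injective (Fin.ext h)
  have hsur : ∀ i, i ≤ c → ∃ v, p v = i := by
    intro i hi
    refine ⟨(⟨i, Nat.lt_succ_iff.2 hi⟩ : Fin (c + 1)) + j, ?_⟩
    rw [hp]
    simp
  have hrep : ∀ n, (c - 1) * (c - 2) ≤ n → Wk (fun u v => R c (p u) (p v)) n j j := by
    intro n hn
    obtain ⟨x, y, h⟩ := repr (c - 1) n (by omega) (by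
      have : c - 1 - 1 = c - 2 := by omega
      rw [this]; exact hn)
    have e : c - 1 + 1 = c := by omega
    rw [e] at h
    rw [h]
    exact loops p j hj hinj hsur hc x y
  refine ⟨fun u v => R c (p u) (p v), ⟨(c - 1) * (c - 2) + c, by omega, ?_⟩, ?_, ?_⟩
  · intro u
    rcases lt_or_ge (p u) c with hu | hu
    · have h1 := path p j hj hinj hsur hc (p u) (by omega) u rfl
      have h2 := hrep ((c - 1) * (c - 2) + c - p u) (by omega)
      have h3 := wk_trans h2 h1
      have e : (c - 1) * (c - 2) + c - p u + p u = (c - 1) * (c - 2) + c := by omega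
      rwa [e] at h3
    · have hu' : p u = c := le_antisymm (hle u) hu
      have h2 := hrep ((c - 1) * (c - 2) + c - 1) (by omega)
      have h3 : Wk (fun u v => R c (p u) (p v)) (((c - 1) * (c - 2) + c - 1) + 1) j u :=
        ⟨j, h2, Or.inr (Or.inr ⟨hj, hu'⟩)⟩
      have e : (c - 1) * (c - 2) + c - 1 + 1 = (c - 1) * (c - 2) + c := by omega
      rwa [e] at h3
  · obtain ⟨z, hz⟩ := hsur c le_rfl
    refine ⟨z, ?_⟩
    have key : ∀ k u, ¬ Wk (fun u v => R c (p u) (p v)) (k + 1) z u := by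
      intro k
      induction k with
      | zero =>
        rintro u ⟨w, hw, hR⟩
        have hw' : z = w := hw
        subst hw'
        have hu := hle u
        unfold R at hR
        rw [hz] at hR
        omega
      | succ k ih =>
        rintro u ⟨w, hw, _⟩
        exact ih w hw
    intro k hk
    obtain ⟨m, rfl⟩ : ∃ m, k = m + 1 := ⟨k - 1, by omega⟩
    exact ⟨z, key m z⟩
  · intro h
    obtain ⟨x, y, h1⟩ := inv p j hj hinj hsur hc _ j h (by omega)
    rw [hj, zero_add] at h1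
    have e : c = c - 1 + 1 := by omega
    refine not_repr (c - 1) x y (by omega) ?_
    rw [h1]
    congr 2

end Pool.Agent.K7.H5.TGEX
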