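import Pool.Agent.K7.H60.UP.Stm

set_option autoImplicit false

/-!
# Job MAJ of project UP (MP_d3fa2a_an)
-/

open Polynomial

namespace Pool.Agent.K7.H5.UPMAJ

open Pool.Agent.K7.H60.UP

theorem pow_eq (q x : ℝ) (hx : 0 ≤ x) : x ^ q = ph (q / 2) (x ^ 2) := by
  unfold ph
  rw [max_eq_left (sq_nonneg x), ← Real.rpow_natCast x 2, ← Real.rpow_mul hx]
  congr 1
  push_cast
  ring

/-- JOB MAJ -/
theorem t (hR : StRea) (hI : StInc) (hN : StNrm) (hE : StEq) : StMaj := by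
  intro q a b hq ha hb
  have hl : 2 ≤ q / 2 := by linarith
  obtain ⟨ρ, θ, s, hρ0, hρ, h⟩ := hN a b
  have hs2 : Real.sqrt 2 ^ 2 = 2 := Real.sq_sqrt (by norm_num)
  have hs0 : 0 ≤ Real.sqrt 2 := Real.sqrt_nonneg 2
  have ha0 := norm_nonneg a
  have hb0 := norm_nonneg b
  have hC : 1 + ‖a‖ ^ 2 + ‖b‖ ^ 2 ≤ 2 := by
    have h1 : ‖a‖ ^ 2 ≤ (2 * Real.sqrt 2 / 3) ^ 2 := pow_le_pow_left₀ ha0 ha 2
    have h2 : ‖b‖ ^ 2 ≤ (1 / 3) ^ 2 := pow_le_pow_left₀ hb0 hb 2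
    nlinarith
  have hρ' : ρ ≤ 8 * Real.sqrt 2 / 9 := by
    have h1 : ‖a‖ * (1 + ‖b‖) ≤ (2 * Real.sqrt 2 / 3) * (4 / 3) :=
      mul_le_mul ha (by linarith) (by linarith) (by positivity)
    linarith
  set F : ℝ → ℝ := fun τ => ph (q / 2) (1 + ‖a‖ ^ 2 + ‖b‖ ^ 2 + 2 * ‖b‖ * Real.cos (2 * τ) +
    2 * ρ * Real.cos (τ - θ)) with hF
  have e1 : ∫ t in (0 : ℝ)..(2 * Real.pi),
      ‖1 + a * Complex.exp (t * Complex.I) + b * Complex.exp (t * Complex.I) ^ 2‖ ^ q =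
      ∫ τ in (0 : ℝ)..(2 * Real.pi), F τ := by
    have e2 : ∀ t : ℝ,
        ‖1 + a * Complex.exp (t * Complex.I) + b * Complex.exp (t * Complex.I) ^ 2‖ ^ q =
          F (t + s) := by
      intro t
      rw [pow_eq q _ (norm_nonneg _), h t]
    have hper : Function.Periodic F (2 * Real.pi) := by
      intro x
      have h1 : Real.cos (2 * (x + 2 * Real.pi)) = Real.cos (2 * x) := by
        rw [show 2 * (x + 2 * Real.pi) = 2 * x + 2 * Real.pi + 2 * Real.pi by ring,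
          Real.cos_add_two_pi, Real.cos_add_two_pi]
      have h2 : Real.cos (x + 2 * Real.pi - θ) = Real.cos (x - θ) := by
        rw [show x + 2 * Real.pi - θ = x - θ + 2 * Real.pi by ring, Real.cos_add_two_pi]
      simp only [hF, h1, h2]
    rw [intervalIntegral.integral_congr (g := fun t => F (t + s)) (fun t _ => e2 t),
      intervalIntegral.integral_comp_add_right F s]
    have h3 := hper.intervalIntegral_add_eq s 0
    rw [zero_add] at h3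
    rw [zero_add, add_comm (2 * Real.pi) s, h3]
  rw [e1]
  have e3 : ∫ t in (0 : ℝ)..(2 * Real.pi),
      (2 + 16 * Real.sqrt 2 / 9 * Real.cos t + 2 / 3 * Real.cos (2 * t)) ^ (q / 2) =
      ∫ τ in (0 : ℝ)..(2 * Real.pi), ph (q / 2) (2 + 2 * (1 / 3) * Real.cos (2 * τ) +
        2 * (8 * Real.sqrt 2 / 9) * Real.cos τ) := by
    refine intervalIntegral.integral_congr fun t _ => ?_
    have h0 : 0 ≤ 2 + 16 * Real.sqrt 2 / 9 * Real.cos t + 2 / 3 * Real.cos (2 * t) := by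
      rw [← (hE t).1]
      positivity
    have h1 : 2 + 2 * (1 / 3) * Real.cos (2 * t) + 2 * (8 * Real.sqrt 2 / 9) * Real.cos t =
        2 + 16 * Real.sqrt 2 / 9 * Real.cos t + 2 / 3 * Real.cos (2 * t) := by ring
    simp only [ph, h1]
    rw [max_eq_left h0]
  rw [e3]
  exact (hR (q / 2) (1 + ‖a‖ ^ 2 + ‖b‖ ^ 2) ‖b‖ ρ θ hl hb0).trans
    (hI (q / 2) (1 + ‖a‖ ^ 2 + ‖b‖ ^ 2) 2 ‖b‖ (1 / 3) ρ (8 * Real.sqrt 2 / 9) hl hC hb0 hb hρ0 hρ')

end Pool.Agent.K7.H5.UPMAJ
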