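import Pool.Agent.K7.H5.Poly
import Pool.Agent.K7.H5.Ind
import Pool.Agent.R885.NPla
import Pool.Agent.R885.NOm

/-!
The directions of the prime divisors of the model.
-/

set_option autoImplicit false
set_option linter.overlappingInstances false
set_option linter.unusedSectionVars false

open FF Pool.Agent.W603.LV Pool.Agent.W619.PQ Pool.Agent.Y173.QA Pool.Agent.R885

namespace Pool.Agent.K7.H5

section

variable {k K : Type} [Field k] [CharZero k] [Field K] [Algebra k K] {r m q : ℕ} {x : Fin r → K}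
  {f : Fin q → (Fin r → ℤ) →₀ k} {c : ℤ} {V S B : Finset (Fin r → ℤ)} {β : (Fin r → ℤ) → ℤ}

/-- **The direction of a prime divisor.** -/
theorem vec_cases (htr : Algebra.trdeg k K = (m + 1 : ℕ))
    (hfin : ∀ y : Fin (m + 1) → K, IsTranscendenceBasis k y →
      FiniteDimensional (IntermediateField.adjoin k (Set.range y)) K)
    (P : Place k K) (hx : ∀ i, x i ≠ 0) (hf0 : ∀ l, f l ≠ 0) (hf : ∀ l, ev x (f l) = 0)
    (hnd : N.NDP P x f) (hr : r = m + 1 + q) (pd : PD f c V S B β) {b : Fin r → ℤ} (hb : b ∈ B)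
    (hmin : ∀ b' ∈ B, b ⬝ᵥ vec P x ≤ b' ⬝ᵥ vec P x) {s : Fin m → Fin r → ℤ} (hs : ∀ j, s j ∈ B)
    (hres : ∀ p : MvPolynomial (Fin m) k, p ≠ 0 →
      MvPolynomial.aeval (fun j => mono x (s j - b)) p ≠ 0 ∧
        P.ord (MvPolynomial.aeval (fun j => mono x (s j - b)) p) = 0) :
    vec P x = 0 ∨ ∃ t ∈ S, ∃ α : ℤ, 0 < α ∧ vec P x = α • t := by
  classical
  obtain ⟨jj, σ, α, u, hu, h1, h2, h3, h4, h5⟩ := pd.rep (vec P x)
  obtain ⟨T, hT⟩ : ∃ T : Finset (Fin q), T = Finset.univ.filter fun l =>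
    ∀ e ∈ (f l).support, ∃ i, mn (σ i) (f l) < e ⬝ᵥ σ i := ⟨_, rfl⟩
  have hdq : ∀ e : Fin r → ℤ, ((e ⬝ᵥ vec P x : ℤ) : ℚ) = ∑ i, α i * ((e ⬝ᵥ σ i : ℤ) : ℚ) := by
    intro e
    unfold dotProduct
    push_cast
    simp only [Finset.mul_sum]
    rw [Finset.sum_comm]
    refine Finset.sum_congr rfl fun k _ => ?_
    rw [← h2 k, Finset.mul_sum]
    exact Finset.sum_congr rfl fun i _ => by ring
  -- the other equations
  have hL0 : ∀ l ∈ Tᶜ, ∀ e ∈ (f l).support, ∀ e' ∈ (f l).support,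
      e ⬝ᵥ vec P x = mn (vec P x) (f l) → e' ⬝ᵥ vec P x = mn (vec P x) (f l) →
      ∀ i, e ⬝ᵥ σ i = e' ⬝ᵥ σ i := by
    intro l hl
    rw [Finset.mem_compl, hT, Finset.mem_filter] at hl
    push Not at hl
    obtain ⟨e0, he0, he0'⟩ := hl (Finset.mem_univ _)
    have key : ∀ e ∈ (f l).support, e ⬝ᵥ vec P x = mn (vec P x) (f l) →
        ∀ i, e ⬝ᵥ σ i = mn (σ i) (f l) := by
      intro e he hev
      have h6 : e ⬝ᵥ vec P x ≤ e0 ⬝ᵥ vec P x := by
        rw [hev]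
        exact mn_le he0
      have h6' : ((e ⬝ᵥ vec P x : ℤ) : ℚ) ≤ ((e0 ⬝ᵥ vec P x : ℤ) : ℚ) := by exact_mod_cast h6
      rw [hdq, hdq] at h6'
      have h7 : ∀ i ∈ (Finset.univ : Finset (Fin jj)),
          0 ≤ α i * (((e ⬝ᵥ σ i : ℤ) : ℚ) - ((mn (σ i) (f l) : ℤ) : ℚ)) := by
        intro i _
        refine mul_nonneg (h1 i).2.1.le (sub_nonneg.2 ?_)
        exact_mod_cast mn_le he
      have h8 : ∑ i, α i * (((e ⬝ᵥ σ i : ℤ) : ℚ) - ((mn (σ i) (f l) : ℤ) : ℚ)) ≤ 0 := by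
        simp only [mul_sub]
        rw [Finset.sum_sub_distrib]
        have h9 : ∑ i, α i * ((e0 ⬝ᵥ σ i : ℤ) : ℚ) ≤ ∑ i, α i * ((mn (σ i) (f l) : ℤ) : ℚ) := by
          refine Finset.sum_le_sum fun i _ => mul_le_mul_of_nonneg_left ?_ (h1 i).2.1.le
          exact_mod_cast he0' i
        linarith
      have h9 := (Finset.sum_eq_zero_iff_of_nonneg h7).1 (le_antisymm h8 (Finset.sum_nonneg h7))
      intro i
      have h10 := (mul_eq_zero.1 (h9 i (Finset.mem_univ _))).resolve_left (h1 i).2.1.ne'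
      have h11 : ((e ⬝ᵥ σ i : ℤ) : ℚ) = ((mn (σ i) (f l) : ℤ) : ℚ) := by linarith
      exact_mod_cast h11
    intro e he e' he' h6 h7 i
    rw [key e he h6 i, key e' he' h7 i]
  -- the rank
  have hsum : ∀ b1 (hb1 : b1 ∈ B), (∑ b' : B, (Pi.single (⟨b1, hb1⟩ : B) 1 : B → k) b' •
      mono x ((b' : Fin r → ℤ) - b)) = mono x (b1 - b) := by
    intro b1 hb1
    rw [Finset.sum_eq_single (⟨b1, hb1⟩ : B)]
    · rw [Pi.single_eq_same, one_smul]
    · intro b' _ hb'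
      rw [Pi.single_eq_of_ne hb', zero_smul]
    · intro h
      exact absurd (Finset.mem_univ _) h
  have hb1 : (∑ b' : B, (Pi.single (⟨b, hb⟩ : B) 1 : B → k) b' •
      mono x ((b' : Fin r → ℤ) - b)) = 1 := by
    rw [hsum b hb, sub_self, mono_zero]
  have hrank := N.rank_place htr hfin P hx hf0 hf hnd (bb := fun b' : B => (b' : Fin r → ℤ))
    (b0 := ⟨b, hb⟩) (fun b' => hmin b' b'.2) (y := fun j => mono x (s j - b)) hres
    (a := fun j => Pi.single (⟨s j, hs j⟩ : B) 1) (a0 := Pi.single (⟨b, hb⟩ : B) 1)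
    (by rw [hb1]; exact one_ne_zero) (by rw [hb1]; exact P.ord_one) (by
      intro j
      rw [hb1, mul_one]
      exact (hsum (s j) (hs j)).symm) h3 (by
      intro b' hb' i
      have h6 := h5 b hb hmin i
      have h7 := h5 b' b'.2 (fun b'' hb'' => by
        rw [hb']
        exact hmin b'' hb'') i
      rw [sub_dotProduct, h6, h7, sub_self]) hL0
  have hcard := Finset.card_add_card_compl T
  rw [Fintype.card_fin] at hcard
  rcases Nat.eq_zero_or_pos jj with hj0 | hj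
  · left
    subst hj0
    funext k
    have h6 := h2 k
    rw [Finset.univ_eq_empty, Finset.sum_empty] at h6
    change vec P x k = 0
    exact_mod_cast h6.symm
  right
  have hkey := key_sum (f := f) hf0 (S := S.filter fun s => u ⬝ᵥ s = c * (1 + ∑ l, mn s (f l)))
    (u0 := u) pd.hc (fun v hv _ => pd.fine u hu v hv) (by
      intro s
      rw [Finset.mem_filter, pd.tight]
      constructor
      · rintro ⟨⟨h6, h7⟩, h8⟩
        refine ⟨h6, fun w hw => hw s ?_, h8⟩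
        rw [Finset.mem_filter, pd.tight]
        exact ⟨⟨h6, h7⟩, h8⟩
      · rintro ⟨h6, -, h8⟩
        exact ⟨⟨h6, u, hu, h8⟩, h8⟩) hj (σ := σ)
    (fun i => Finset.mem_filter.2 ⟨(h1 i).1, (h1 i).2.2⟩) h3 (T := T) (fun l hl => by
      rw [hT, Finset.mem_filter] at hl
      exact hl.2) (by omega)
  have hj1 : jj = 1 := le_antisymm (h4 (Finset.mem_filter.1 hkey).2) hj
  subst hj1
  obtain ⟨c1, hc1⟩ := pd.dot1 _ (h1 0).1
  have h6 := hdq c1
  rw [Fin.sum_univ_one, hc1, Int.cast_one, mul_one] at h6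
  refine ⟨σ 0, (h1 0).1, c1 ⬝ᵥ vec P x, ?_, ?_⟩
  · have h7 := (h1 0).2.1
    rw [← h6] at h7
    exact_mod_cast h7
  · funext k
    have h7 := h2 k
    rw [Fin.sum_univ_one, ← h6] at h7
    rw [Pi.smul_apply, smul_eq_mul]
    exact_mod_cast h7.symm

end

end Pool.Agent.K7.H5
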